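import Pool.Agent.Helper140_E5.DatA

/-! Check of the first table: two generators, a vector fixed by the first one. -/

set_option autoImplicit false
set_option maxRecDepth 100000

namespace Pool.Agent.Helper140_E5

theorem a1_ok : chkT 344 a1_ds a1_ls a1_fl a1_fs = true := by decide +kernel

end Pool.Agent.Helper140_E5
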