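import Pool.Agent.Helper140_E5.DatB

/-! Check of the second table: two generators, the first one cubic. -/

set_option autoImplicit false
set_option maxRecDepth 100000

namespace Pool.Agent.Helper140_E5

theorem a2_ok : chkW 297 a2_ds a2_ls a2_w a2_cs = true := by decide +kernel

end Pool.Agent.Helper140_E5
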