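import Pool.Agent.Helper140_E5.Snd2
import Pool.Agent.Helper140_E5.OkA
import Pool.Agent.Helper140_E5.OkB

/-!
# Actions of two-generator groups on elementary abelian 5-groups
-/

set_option autoImplicit false

namespace Pool.Agent.Helper140_E5

open Subgroup

universe u v

section
variable {V : Type u} [AddCommGroup V] {P : Type v} [Group P]

/-- the letters as group elements -/
def lg (x y : P) : ℕ → P
  | 0 => x
  | 1 => x⁻¹
  | 2 => y
  | _ => y⁻¹

theorem lg_iv (x y : P) (l : ℕ) : lg x y (iv l) = (lg x y l)⁻¹ := by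
  match l with
  | 0 => rfl
  | 1 => exact (inv_inv x).symm
  | 2 => rfl
  | _ + 3 => exact (inv_inv y).symm

/-- the element of a word -/
def wg (x y : P) : List ℕ → P
  | [] => 1
  | l :: w => wg x y w * lg x y l

theorem wg_append (x y : P) (a b : List ℕ) : wg x y (a ++ b) = wg x y b * wg x y a := by
  induction a with
  | nil => simp [wg]
  | cons l a ih => rw [List.cons_append, wg, ih, wg, mul_assoc]

theorem wg_ivw (x y : P) (w : List ℕ) : wg x y (ivw w) = (wg x y w)⁻¹ := by
  induction w with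
  | nil => simp [wg, ivw]
  | cons l w ih => rw [ivw, wg_append, ih, wg, wg, wg, one_mul, lg_iv, mul_inv_rev]

theorem wg_mem (x y : P) (w : List ℕ) : wg x y w ∈ closure ({x, y} : Set P) := by
  have hx : x ∈ closure ({x, y} : Set P) := subset_closure (by simp)
  have hy : y ∈ closure ({x, y} : Set P) := subset_closure (by simp)
  induction w with
  | nil => exact one_mem _
  | cons l w ih =>
    refine mul_mem ih ?_
    match l with
    | 0 => exact hx
    | 1 => exact inv_mem hx
    | 2 => exact hy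
    | _ + 3 => exact inv_mem hy

/-- the assumption on an action -/
structure Act5 (ρ : P →* AddMonoid.End V) : Prop where
  five : ∀ v : V, (5 : ℕ) • v = 0
  law : ∀ (g : P) (v : V), v + ρ g v + ρ (g ^ 2) v + ρ (g ^ 3) v + ρ (g ^ 4) v = 0

/-- the letters as endomorphisms -/
def le (ρ : P →* AddMonoid.End V) (x y : P) (l : ℕ) : V →+ V := ρ (lg x y l)

theorem act_le (ρ : P →* AddMonoid.End V) (x y : P) (w : List ℕ) (v : V) :
    act (le ρ x y) w v = ρ (wg x y w) v := by
  induction w generalizing v with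
  | nil => rw [wg, map_one]; rfl
  | cons l w ih => rw [act_cons, ih, wg, map_mul]; rfl

theorem mul_app (ρ : P →* AddMonoid.End V) (g h : P) (v : V) : ρ g (ρ h v) = ρ (g * h) v := by
  rw [map_mul]; rfl

theorem law_le {ρ : P →* AddMonoid.End V} (H : Act5 ρ) (x y : P) : Law (le ρ x y) := by
  refine ⟨H.five, fun l v => ?_, fun w v => ?_⟩
  · change ρ (lg x y (iv l)) (ρ (lg x y l) v) = v
    rw [lg_iv, mul_app, inv_mul_cancel, map_one]
    rfl
  · simp only [act_le]
    rw [wg_ivw]
    set g := wg x y w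
    have h := H.law g (ρ (g⁻¹ * g⁻¹) v)
    simp only [mul_app] at h ⊢
    rw [show g * (g⁻¹ * g⁻¹) = g⁻¹ by group, show g ^ 2 * (g⁻¹ * g⁻¹) = 1 by group,
      show g ^ 3 * (g⁻¹ * g⁻¹) = g by group,
      show g ^ 4 * (g⁻¹ * g⁻¹) = g * g by rw [← pow_two g]; group, map_one] at h
    rw [← h]
    change v + _ = _ + _ + v + _ + _
    abel

/-- A vector fixed by the first generator lies in a finite invariant subgroup. -/
theorem fixed_fin {ρ : P →* AddMonoid.End V} (H : Act5 ρ) (x y : P) (a : V) (ha : ρ x a = a) :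
    ∃ s : Finset V, a ∈ AddSubgroup.closure (s : Set V) ∧ ∀ g ∈ closure ({x, y} : Set P),
      ∀ v ∈ AddSubgroup.closure (s : Set V), ρ g v ∈ AddSubgroup.closure (s : Set V) := by
  obtain ⟨s, h1, h2⟩ := chkT_snd (law_le H x y) a1_ok a ha
  refine ⟨s, h1, fun g hg => ?_⟩
  induction hg using closure_induction with
  | mem g hg =>
    rcases hg with rfl | hg
    · exact h2 0 (by norm_num)
    · rw [Set.mem_singleton_iff] at hg
      subst hg
      exact h2 2 (by norm_num)
  | one => intro v hv; rw [map_one]; exact hv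
  | mul g h _ _ hg hh => intro v hv; rw [← mul_app]; exact hg _ (hh v hv)
  | inv g hg' hg =>
    intro v hv
    have h5 : ∀ v : V, ρ (g ^ 5) v = v := by
      intro v
      have e1 := H.law g v
      have e2 := H.law g (ρ g v)
      simp only [mul_app] at e2
      have e3 : ρ (g ^ 4 * g) v - v = 0 := by
        have : ρ (g ^ 4 * g) v - v = (ρ g v + ρ (g * g) v + ρ (g ^ 2 * g) v + ρ (g ^ 3 * g) v +
          ρ (g ^ 4 * g) v) - (v + ρ g v + ρ (g ^ 2) v + ρ (g ^ 3) v + ρ (g ^ 4) v) := by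
          rw [show g * g = g ^ 2 from (pow_two g).symm, show g ^ 2 * g = g ^ 3 by group,
            show g ^ 3 * g = g ^ 4 by group]
          abel
        rw [this, e1, e2, sub_zero]
      rw [show g ^ 4 * g = g ^ 5 by group, sub_eq_zero] at e3
      exact e3
    have e : ρ g⁻¹ v = ρ g (ρ g (ρ g (ρ g v))) := by
      have := h5 (ρ g⁻¹ v)
      rw [mul_app, show g ^ 5 * g⁻¹ = g * (g * (g * g)) by
        rw [pow_succ, mul_assoc, mul_inv_cancel, mul_one, pow_succ', pow_succ', pow_two]] at this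
      rw [← this]
      simp only [mul_app]
    rw [e]
    exact hg _ (hg _ (hg _ (hg v hv)))

theorem fin_closure (h5 : ∀ v : V, (5 : ℕ) • v = 0) (s : Set V) (hs : s.Finite) :
    Finite (AddSubgroup.closure s) := by
  have hfg : AddGroup.FG (AddSubgroup.closure s) := by
    rw [AddGroup.fg_iff_addSubgroup_fg]
    exact ⟨hs.toFinset, by rw [hs.coe_toFinset]⟩
  refine AddCommGroup.finite_of_fg_isAddTorsion _ ?_
  intro v
  rw [isOfFinAddOrder_iff_nsmul_eq_zero]
  exact ⟨5, by norm_num, Subtype.ext (h5 _)⟩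

/-- the set of vectors lying in finite invariant subgroups -/
def FI (ρ : P →* AddMonoid.End V) (v : V) : Prop :=
  ∃ s : Finset V, v ∈ AddSubgroup.closure (s : Set V) ∧ ∀ g : P,
    ∀ v ∈ AddSubgroup.closure (s : Set V), ρ g v ∈ AddSubgroup.closure (s : Set V)

theorem FI.many {ρ : P →* AddMonoid.End V} (D : Set V) (hD : D.Finite) (h : ∀ d ∈ D, FI ρ d) :
    ∃ s : Finset V, D ⊆ AddSubgroup.closure (s : Set V) ∧ ∀ g : P,
    ∀ v ∈ AddSubgroup.closure (s : Set V), ρ g v ∈ AddSubgroup.closure (s : Set V) := by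
  classical
  induction D, hD using Set.Finite.induction_on with
  | empty =>
    refine ⟨∅, Set.empty_subset _, fun g v hv => ?_⟩
    rw [Finset.coe_empty, AddSubgroup.closure_empty, AddSubgroup.mem_bot] at hv ⊢
    rw [hv, map_zero]
  | insert hd hD' ih =>
    rename_i d D'
    obtain ⟨s, h1, h2⟩ := ih fun d hd => h d (Set.mem_insert_of_mem _ hd)
    obtain ⟨t, h3, h4⟩ := h d (Set.mem_insert _ _)
    refine ⟨s ∪ t, ?_, fun g v hv => ?_⟩
    · rw [Finset.coe_union, AddSubgroup.closure_union]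
      refine Set.insert_subset ?_ ?_
      · exact le_sup_right (a := AddSubgroup.closure (s : Set V)) h3
      · exact h1.trans (le_sup_left (a := AddSubgroup.closure (s : Set V)))
    · rw [Finset.coe_union, AddSubgroup.closure_union, AddSubgroup.mem_sup] at hv ⊢
      obtain ⟨a, ha, b, hb, rfl⟩ := hv
      exact ⟨ρ g a, h2 g a ha, ρ g b, h4 g b hb, (map_add _ _ _).symm⟩

/-- the subgroup of vectors lying in finite invariant subgroups -/
def FIs (ρ : P →* AddMonoid.End V) : AddSubgroup V where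
  carrier := {v | FI ρ v}
  zero_mem' := ⟨∅, zero_mem _, fun g v hv => by
    rw [Finset.coe_empty, AddSubgroup.closure_empty, AddSubgroup.mem_bot] at hv ⊢
    rw [hv, map_zero]⟩
  add_mem' := by
    rintro a b ha hb
    obtain ⟨s, h1, h2⟩ := FI.many (ρ := ρ) {a, b} (by simp) (by
      rintro d (rfl | hd)
      · exact ha
      · rw [Set.mem_singleton_iff] at hd
        subst hd
        exact hb)
    exact ⟨s, add_mem (h1 (by simp)) (h1 (by simp)), h2⟩
  neg_mem' := by
    rintro a ⟨s, h1, h2⟩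
    exact ⟨s, neg_mem h1, h2⟩

theorem FI.map {ρ : P →* AddMonoid.End V} {v : V} (h : FI ρ v) (g : P) : FI ρ (ρ g v) := by
  obtain ⟨s, h1, h2⟩ := h
  exact ⟨s, h2 g v h1, h2⟩

/-- the action on the quotient -/
noncomputable def quo (ρ : P →* AddMonoid.End V) : P →* AddMonoid.End (V ⧸ FIs ρ) where
  toFun g := QuotientAddGroup.map (FIs ρ) (FIs ρ) (ρ g) (fun v hv => FI.map hv g)
  map_one' := by
    refine AddMonoidHom.ext fun v => ?_
    obtain ⟨v, rfl⟩ := QuotientAddGroup.mk_surjective v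
    change ((ρ 1 v : V) : V ⧸ FIs ρ) = v
    rw [map_one]
    rfl
  map_mul' g h := by
    refine AddMonoidHom.ext fun v => ?_
    obtain ⟨v, rfl⟩ := QuotientAddGroup.mk_surjective v
    change ((ρ (g * h) v : V) : V ⧸ FIs ρ) = ((ρ g (ρ h v) : V) : V ⧸ FIs ρ)
    rw [map_mul]
    rfl

theorem quo_mk (ρ : P →* AddMonoid.End V) (g : P) (v : V) :
    quo ρ g (v : V ⧸ FIs ρ) = ((ρ g v : V) : V ⧸ FIs ρ) := rfl

theorem quo_act {ρ : P →* AddMonoid.End V} (H : Act5 ρ) : Act5 (quo ρ) := by
  constructor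
  · intro v
    obtain ⟨v, rfl⟩ := QuotientAddGroup.mk_surjective v
    rw [← QuotientAddGroup.mk_nsmul, H.five]
    rfl
  · intro g v
    obtain ⟨v, rfl⟩ := QuotientAddGroup.mk_surjective v
    simp only [quo_mk, ← QuotientAddGroup.mk_add, H.law]
    rfl

theorem exists_fixed {ρ : P →* AddMonoid.End V} (H : Act5 ρ) (x : P) {w : V} (hw : w ≠ 0) :
    ∃ a : V, a ≠ 0 ∧ ρ x a = a := by
  have h4 : ∀ v : V, ρ x (ρ x (ρ x (ρ x v - v) - (ρ x v - v)) - (ρ x (ρ x v - v) - (ρ x v - v))) -
      (ρ x (ρ x (ρ x v - v) - (ρ x v - v)) - (ρ x (ρ x v - v) - (ρ x v - v))) = 0 := by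
    intro v
    have h1 := H.law x v
    have h2 := H.five (ρ (x ^ 3) v)
    have h3 := H.five (ρ (x ^ 2) v)
    have h4 := H.five (ρ x v)
    simp only [map_sub, mul_app] at *
    rw [show x * x = x ^ 2 from (pow_two x).symm, show x * x ^ 2 = x ^ 3 from (pow_succ' x 2).symm,
      show x * x ^ 3 = x ^ 4 from (pow_succ' x 3).symm]
    have e : ρ (x ^ 4) v - ρ (x ^ 3) v - (ρ (x ^ 3) v - ρ (x ^ 2) v) -
        (ρ (x ^ 3) v - ρ (x ^ 2) v - (ρ (x ^ 2) v - ρ x v)) -
        (ρ (x ^ 3) v - ρ (x ^ 2) v - (ρ (x ^ 2) v - ρ x v) -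
          (ρ (x ^ 2) v - ρ x v - (ρ x v - v))) =
        (v + ρ x v + ρ (x ^ 2) v + ρ (x ^ 3) v + ρ (x ^ 4) v) - (5 : ℕ) • ρ (x ^ 3) v +
        (5 : ℕ) • ρ (x ^ 2) v - (5 : ℕ) • ρ x v := by abel
    rw [e, h1, h2, h3, h4]
    simp
  by_cases c1 : ρ x w - w = 0
  · exact ⟨w, hw, sub_eq_zero.1 c1⟩
  by_cases c2 : ρ x (ρ x w - w) - (ρ x w - w) = 0
  · exact ⟨_, c1, sub_eq_zero.1 c2⟩
  by_cases c3 : ρ x (ρ x (ρ x w - w) - (ρ x w - w)) - (ρ x (ρ x w - w) - (ρ x w - w)) = 0
  · exact ⟨_, c2, sub_eq_zero.1 c3⟩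
  · exact ⟨_, c3, sub_eq_zero.1 (h4 w)⟩

/-- **Local finiteness of actions of two-generator groups.** -/
theorem two_fin {ρ : P →* AddMonoid.End V} (H : Act5 ρ) (x y : P)
    (hxy : closure ({x, y} : Set P) = ⊤) (v : V) : FI ρ v := by
  classical
  by_contra hv
  have hv0 : ((v : V) : V ⧸ FIs ρ) ≠ 0 := by
    intro h
    exact hv ((QuotientAddGroup.eq_zero_iff v).1 h)
  have HQ := quo_act H
  obtain ⟨a, ha0, ha⟩ := exists_fixed HQ x hv0
  obtain ⟨s, h1, h2⟩ := fixed_fin HQ x y a ha
  have h2' : ∀ g : P, ∀ v ∈ AddSubgroup.closure (s : Set (V ⧸ FIs ρ)),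
      quo ρ g v ∈ AddSubgroup.closure (s : Set (V ⧸ FIs ρ)) :=
    fun g => h2 g (by rw [hxy]; trivial)
  have hf : (AddSubgroup.closure (s : Set (V ⧸ FIs ρ)) : Set (V ⧸ FIs ρ)).Finite := by
    have := fin_closure HQ.five (s : Set (V ⧸ FIs ρ)) s.finite_toSet
    exact Set.toFinite _
  set M := (AddSubgroup.closure (s : Set (V ⧸ FIs ρ)) : Set (V ⧸ FIs ρ)) with hM
  let D : Set V := ⋃ l ∈ Finset.range 4, (fun m : V ⧸ FIs ρ =>
    ρ (lg x y l) m.out - (quo ρ (lg x y l) m).out) '' M
  have hD : D.Finite := Set.Finite.biUnion (Finset.range 4).finite_toSet fun l _ => hf.image _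
  have hDF : ∀ d ∈ D, FI ρ d := by
    intro d hd
    simp only [D, Set.mem_iUnion, Set.mem_image] at hd
    obtain ⟨l, _, m, hm, rfl⟩ := hd
    have : ((ρ (lg x y l) m.out - (quo ρ (lg x y l) m).out : V) : V ⧸ FIs ρ) = 0 := by
      rw [QuotientAddGroup.mk_sub, ← quo_mk, QuotientAddGroup.out_eq', QuotientAddGroup.out_eq',
        sub_self]
    exact (QuotientAddGroup.eq_zero_iff _).1 this
  obtain ⟨t, ht1, ht2⟩ := FI.many D hD hDF
  let U : Finset V := t ∪ hf.toFinset.image (fun m : V ⧸ FIs ρ => m.out)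
  have hUt : AddSubgroup.closure (t : Set V) ≤ AddSubgroup.closure (U : Set V) :=
    AddSubgroup.closure_mono (by simp [U])
  have hUm : ∀ m ∈ M, m.out ∈ AddSubgroup.closure (U : Set V) := by
    intro m hm
    refine AddSubgroup.subset_closure ?_
    simp only [U, Finset.coe_union, Finset.coe_image, Set.Finite.coe_toFinset]
    exact Or.inr ⟨m, hm, rfl⟩
  have hl : ∀ l < 4, ∀ v ∈ AddSubgroup.closure (U : Set V),
      ρ (lg x y l) v ∈ AddSubgroup.closure (U : Set V) := by
    intro l hl v hv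
    induction hv using AddSubgroup.closure_induction with
    | mem v hv =>
      simp only [U, Finset.coe_union, Finset.coe_image, Set.Finite.coe_toFinset] at hv
      rcases hv with hv | ⟨m, hm, rfl⟩
      · exact hUt (ht2 _ _ (AddSubgroup.subset_closure hv))
      · have e : ρ (lg x y l) m.out =
            (ρ (lg x y l) m.out - (quo ρ (lg x y l) m).out) + (quo ρ (lg x y l) m).out := by
          abel
        change ρ (lg x y l) m.out ∈ _
        rw [e]
        refine add_mem (hUt (ht1 ?_)) (hUm _ (h2' _ _ hm))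
        simp only [D, Set.mem_iUnion, Set.mem_image]
        exact ⟨l, Finset.mem_range.2 hl, m, hm, rfl⟩
    | zero => rw [map_zero]; exact zero_mem _
    | add a b _ _ ha hb => rw [map_add]; exact add_mem ha hb
    | neg a _ ha => rw [map_neg]; exact neg_mem ha
  have hg : ∀ g : P, ∀ v ∈ AddSubgroup.closure (U : Set V),
      ρ g v ∈ AddSubgroup.closure (U : Set V) := by
    intro g
    have hg : g ∈ closure ({x, y} : Set P) := by rw [hxy]; trivial
    induction hg using closure_induction'' with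
    | mem g hg =>
      rcases hg with rfl | hg
      · exact hl 0 (by norm_num)
      · rw [Set.mem_singleton_iff] at hg
        subst hg
        exact hl 2 (by norm_num)
    | inv_mem g hg =>
      rcases hg with rfl | hg
      · exact hl 1 (by norm_num)
      · rw [Set.mem_singleton_iff] at hg
        subst hg
        exact hl 3 (by norm_num)
    | one => intro v hv; rw [map_one]; exact hv
    | mul g h _ _ hg hh => intro v hv; rw [← mul_app]; exact hg _ (hh v hv)
  have ho : FI ρ a.out := ⟨U, hUm a h1, hg⟩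
  apply ha0
  have := (QuotientAddGroup.eq_zero_iff (N := FIs ρ) a.out).2 ho
  rwa [QuotientAddGroup.out_eq'] at this

end

end Pool.Agent.Helper140_E5
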