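import Pool.Agent.Helper140_E5.Zrn

/-!
# The action version of the main theorem
-/

set_option autoImplicit false

namespace Pool.Agent.Helper140_E5

open Subgroup

universe u v

section
variable {G : Type u} [Group G] {V : Type v} [AddCommGroup V]

/-- the ring spanned by the image of `ρ` -/
def Rg (ρ : G →* AddMonoid.End V) : Subring (AddMonoid.End V) := Subring.closure (Set.range ρ)

/-- `ρ` with values in the ring it spans -/
def fR (ρ : G →* AddMonoid.End V) : G →* Rg ρ where
  toFun g := ⟨ρ g, Subring.subset_closure ⟨g, rfl⟩⟩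
  map_one' := Subtype.ext ρ.map_one
  map_mul' g h := Subtype.ext (ρ.map_mul g h)

/-- the image of `G` as a group of units -/
def ER (ρ : G →* AddMonoid.End V) : Subgroup (Rg ρ)ˣ := (fR ρ).toHomUnits.range

theorem ER_span (ρ : G →* AddMonoid.End V) :
    AddSubgroup.closure {r : Rg ρ | ∃ h ∈ ER ρ, (h : Rg ρ) = r} = ⊤ := by
  rw [eq_top_iff]
  rintro ⟨r, hr⟩ -
  have hr' := hr
  rw [Rg, Subring.mem_closure_iff] at hr'
  have hm : (Submonoid.closure (Set.range ρ) : Set (AddMonoid.End V)) = Set.range ρ := by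
    refine Set.Subset.antisymm ?_ Submonoid.subset_closure
    have : Submonoid.closure (Set.range ρ) ≤ MonoidHom.mrange ρ := by
      rw [Submonoid.closure_le]
      exact subset_rfl
    exact this
  rw [hm] at hr'
  refine AddSubgroup.closure_induction (p := fun x _ => ∀ hx : x ∈ Rg ρ,
    (⟨x, hx⟩ : Rg ρ) ∈ AddSubgroup.closure {r : Rg ρ | ∃ h ∈ ER ρ, (h : Rg ρ) = r})
    ?_ ?_ ?_ ?_ hr' hr
  · rintro _ ⟨g, rfl⟩ hx
    exact AddSubgroup.subset_closure ⟨(fR ρ).toHomUnits g, ⟨g, rfl⟩, rfl⟩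
  · intro hx
    exact zero_mem _
  · intro x y hx hy h1 h2 h3
    have hx' : x ∈ Rg ρ := by
      rw [Rg, Subring.mem_closure_iff, hm]
      exact hx
    have hy' : y ∈ Rg ρ := by
      rw [Rg, Subring.mem_closure_iff, hm]
      exact hy
    exact add_mem (h1 hx') (h2 hy')
  · intro x hx h1 h2
    have hx' : x ∈ Rg ρ := by
      rw [Rg, Subring.mem_closure_iff, hm]
      exact hx
    exact neg_mem (h1 hx')

theorem ER_uni {ρ : G →* AddMonoid.End V} (H : Act5 ρ) : Uni (ER ρ) := by
  have h5 : (5 : AddMonoid.End V) = 0 := by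
    have h2 : (5 : AddMonoid.End V) = (5 : ℕ) • (1 : AddMonoid.End V) := by
      rw [nsmul_eq_mul, mul_one]
      rfl
    rw [h2]
    exact AddMonoidHom.ext fun v => H.five v
  constructor
  · exact Subtype.ext h5
  · rintro _ ⟨g, rfl⟩
    refine Subtype.ext ?_
    change (ρ g - 1) ^ 4 = 0
    have h1 : 1 + ρ g + ρ g ^ 2 + ρ g ^ 3 + ρ g ^ 4 = 0 := by
      refine AddMonoidHom.ext fun v => ?_
      have := H.law g v
      rw [map_pow, map_pow, map_pow] at this
      exact this
    have : (ρ g - 1) ^ 4 = (1 + ρ g + ρ g ^ 2 + ρ g ^ 3 + ρ g ^ 4) +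
        5 * (ρ g ^ 2 - ρ g ^ 3 - ρ g) := by noncomm_ring
    rw [this, h1, h5]
    simp

theorem act_main {ρ : G →* AddMonoid.End V} (H : Act5 ρ) {S : Set G} (hS : S.Finite)
    (hc : closure S = ⊤) : (Set.range ρ).Finite ∧
      ∃ n, ∀ l : List (AddMonoid.End V), (∀ x ∈ l, ∃ g, x = ρ g - 1) → l.length = n →
        l.prod = 0 := by
  have hE : closure ((fR ρ).toHomUnits '' S) = ER ρ := by
    rw [← MonoidHom.map_closure, hc, ER, MonoidHom.range_eq_map]
  refine ⟨?_, ?_⟩
  · have := fin_main (ER_uni H) (ER_span ρ) (hS.image _) hE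
    have h1 : (Set.range fun h : ER ρ => (((h : (Rg ρ)ˣ) : Rg ρ) : AddMonoid.End V)).Finite :=
      Set.finite_range _
    refine h1.subset ?_
    rintro _ ⟨g, rfl⟩
    exact ⟨⟨(fR ρ).toHomUnits g, g, rfl⟩, rfl⟩
  · obtain ⟨n, hn⟩ := nil_main (ER_uni H) (ER_span ρ) (hS.image _) hE
    refine ⟨n, fun l hl hln => ?_⟩
    choose! c hc using hl
    have h1 := hn ((l.map c).map fun g => (fR ρ g - 1 : Rg ρ)) (by
      intro x hx
      obtain ⟨g, -, rfl⟩ := List.mem_map.1 hx
      exact ⟨(fR ρ).toHomUnits g, ⟨g, rfl⟩, rfl⟩) (by simpa using hln)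
    have h2 := congrArg (Subring.subtype (Rg ρ)) h1
    rw [map_zero, map_list_prod, List.map_map, List.map_map] at h2
    have h3 : l.map (((Subring.subtype (Rg ρ)) ∘ fun g => (fR ρ g - 1 : Rg ρ)) ∘ c) = l := by
      have : ∀ x ∈ l, (((Subring.subtype (Rg ρ)) ∘ fun g => (fR ρ g - 1 : Rg ρ)) ∘ c) x = x := by
        intro x hx
        have := hc x hx
        change ρ (c x) - 1 = x
        exact this.symm
      rw [List.map_congr_left this, List.map_id']
    rw [h3] at h2
    exact h2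

end

end Pool.Agent.Helper140_E5
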