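import Pool.Agent.Helper140_E5.Cns2

/-!
# Uniform bounds by forming products
-/

set_option autoImplicit false

namespace Pool.Agent.Helper140_E5

open Subgroup
open scoped commutatorElement

universe u v

section
variable {G : ℕ → Type u} [∀ m, Group (G m)]

/-- the product of subgroups -/
def pN (N : ∀ m, Subgroup (G m)) : Subgroup (∀ m, G m) where
  carrier := {f | ∀ m, f m ∈ N m}
  one_mem' _ := one_mem _
  mul_mem' ha hb m := mul_mem (ha m) (hb m)
  inv_mem' ha m := inv_mem (ha m)

theorem pN_normal {N : ∀ m, Subgroup (G m)} (h : ∀ m, (N m).Normal) : (pN N).Normal :=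
  ⟨fun _ hf g m => (h m).conj_mem _ (hf m) (g m)⟩

theorem ds_pN (N : ∀ m, Subgroup (G m)) : ∀ k, ds (pN N) k ≤ pN fun m => ds (N m) k
  | 0 => le_rfl
  | k + 1 => by
    rw [ds, commutator_le]
    intro f hf g hg m
    exact commutator_mem_commutator (ds_pN N k hf m) (ds_pN N k hg m)

end

theorem sol_index (d l : ℕ) : ∃ m : ℕ, ∀ (G : Type u) [Group G] (a : Fin d → G)
    (N : Subgroup G), (∀ x : G, x ^ 5 = 1) → N.Normal → ds N l = ⊥ →
    (centralizer (N : Set G)).relIndex (closure (Set.range a)) ≤ m := by
  by_contra hcon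
  push Not at hcon
  choose G iG a N h5 hN hds hm using hcon
  have hN' := pN_normal hN
  have hds' : ds (pN N) l = ⊥ := by
    rw [eq_bot_iff]
    intro f hf
    rw [mem_bot]
    funext m
    have : f m ∈ ds (N m) l := ds_pN N l hf m
    rw [hds, mem_bot] at this
    exact this
  set a' : Fin d → ∀ m, G m := fun i m => a m i with ha'
  have h1 := sol_lfq (fun x => funext fun m => h5 m (x m)) l (pN N) hN' hds' (Set.range a')
    (Set.finite_range _)
  set q := (centralizer ((pN N : Subgroup (∀ m, G m)) : Set (∀ m, G m))).relIndex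
    (closure (Set.range a')) with hq
  have h2 := hm q
  set π : (∀ m, G m) →* G q := Pi.evalMonoidHom G q with hπ
  have h3 : (closure (Set.range a')).map π = closure (Set.range (a q)) := by
    rw [MonoidHom.map_closure, ← Set.range_comp]
    rfl
  rw [← h3, ← relIndex_comap] at h2
  refine absurd ?_ (not_le.2 h2)
  refine relIndex_le_of_le_left ?_ h1
  intro x hx
  rw [mem_comap, mem_centralizer_iff]
  intro n hn
  rw [mem_centralizer_iff] at hx
  have h4 := hx (Pi.mulSingle q n) (by
    intro m
    by_cases hmq : m = q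
    · subst hmq
      rw [Pi.mulSingle_eq_same]
      exact hn
    · rw [Pi.mulSingle_eq_of_ne hmq]
      exact one_mem _)
  have h5 := congrFun h4 q
  rw [Pi.mul_apply, Pi.mul_apply, Pi.mulSingle_eq_same] at h5
  exact h5

/-- the index of the `l`-th derived subgroup and surjective maps -/
theorem ds_index_map {G : Type u} {K : Type v} [Group G] [Group K] (f : G →* K) (N : Subgroup G)
    (l : ℕ) (h : (ds N l).relIndex N ≠ 0) :
    (ds (N.map f) l).relIndex (N.map f) ≤ (ds N l).relIndex N := by
  rw [← relIndex_comap]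
  refine relIndex_le_of_le_left ?_ h
  rw [← ds_map]
  exact le_comap_map _ _

theorem card_ds {G : Type u} [Group G] (N : Subgroup G) (l : ℕ) :
    Nat.card (N ⧸ derivedSeries N l) = (ds N l).relIndex N := by
  rw [relIndex, ds_sub]
  rfl

theorem nc_card (d r l : ℕ) : ∃ m : ℕ, ∀ (G : Type u) [Group G] (a : Fin d → G) (t : Fin r → G),
    (∀ x : G, x ^ 5 = 1) → closure (Set.range a) = ⊤ →
    Nat.card (normalClosure (Set.range t) ⧸ derivedSeries (normalClosure (Set.range t)) l) ≤ m := by
  by_contra hcon
  push Not at hcon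
  choose G iG a t h5 ha hm using hcon
  set a' : Fin d → ∀ m, G m := fun i m => a m i with ha'
  set t' : Fin r → ∀ m, G m := fun i m => t m i with ht'
  set H : Subgroup (∀ m, G m) := closure (Set.range a' ∪ Set.range t') with hH
  have hta : ∀ i, a' i ∈ H := fun i => subset_closure (Or.inl ⟨i, rfl⟩)
  have htt : ∀ i, t' i ∈ H := fun i => subset_closure (Or.inr ⟨i, rfl⟩)
  set b : Fin d → H := fun i => ⟨a' i, hta i⟩ with hb
  set s : Fin r → H := fun i => ⟨t' i, htt i⟩ with hs
  have hcl : closure (Set.range b ∪ Set.range s) = ⊤ := by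
    have h1 : (closure (Set.range b ∪ Set.range s)).map H.subtype = H := by
      rw [MonoidHom.map_closure, Set.image_union, ← Set.range_comp, ← Set.range_comp]
      rfl
    rw [eq_top_iff]
    rintro ⟨x, hx⟩ -
    have hx' := hx
    rw [← h1] at hx'
    obtain ⟨y, hy, hyx⟩ := hx'
    have : y = ⟨x, hx⟩ := Subtype.ext hyx
    rw [← this]
    exact hy
  have h1 := nc_der (G := H) (fun x => Subtype.ext (funext fun m => h5 m ((x : ∀ m, G m) m)))
    ((Set.finite_range b).union (Set.finite_range s)) hcl (T := Set.range s)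
    (Set.finite_range _) l
  set NH := normalClosure (Set.range s) with hNH
  set q := Nat.card (NH ⧸ derivedSeries NH l) with hq
  have hq0 : q ≠ 0 := Nat.card_pos.ne'
  have h2 := hm q
  set π : H →* G q := (Pi.evalMonoidHom G q).comp H.subtype with hπ
  have hπs : Function.Surjective π := by
    rw [← MonoidHom.range_eq_top, eq_top_iff, ← ha q, closure_le]
    rintro _ ⟨i, rfl⟩
    exact ⟨b i, rfl⟩
  have h3 : NH.map π = normalClosure (Set.range (t q)) := by
    rw [hNH, map_normalClosure _ π hπs, ← Set.range_comp]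
    rfl
  rw [← h3, card_ds] at h2
  rw [card_ds] at hq
  have h4 := ds_index_map π NH l (by rw [← hq]; exact hq0)
  rw [← hq] at h4
  exact absurd h4 (not_le.2 h2)

end Pool.Agent.Helper140_E5
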