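import Mathlib

/-!
# Commutators with 2-Engel elements of a normal subgroup
-/

set_option autoImplicit false

namespace Pool.Agent.Helper140_E5

open scoped commutatorElement

universe u

section
variable {G : Type u} [Group G]

theorem comm_of {a b : G} (h : ⁅⁅a, b⁆, b⁆ = 1) : Commute ⁅a, b⁆ b :=
  commutatorElement_eq_one_iff_mul_comm.1 h

/-- the linearised identity -/
theorem lin_id {v g k : G} (h1 : ⁅⁅v, g⁆, g⁆ = 1)
    (h3 : ⁅⁅v, g * k⁆, g * k⁆ = 1) :
    (k * ⁅v, g⁆ * k⁻¹) * (k * g * ⁅v, k⁆ * g⁻¹ * k⁻¹) = ⁅v, g⁆ * ⁅v, k⁆ := by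
  have c1 := comm_of h1
  have c3 := comm_of h3
  have e : ⁅v, g * k⁆ = ⁅v, g⁆ * (g * ⁅v, k⁆ * g⁻¹) := by
    simp only [commutatorElement_def]
    group
  rw [e] at c3
  set A := ⁅v, g⁆
  set B := ⁅v, k⁆
  have e1 : A * (g * B * g⁻¹) * (g * k) = g * k * (A * (g * B * g⁻¹)) := c3
  have e2 : g⁻¹ * A * g = A := by
    rw [mul_assoc, c1.eq, ← mul_assoc, inv_mul_cancel, one_mul]
  calc (k * A * k⁻¹) * (k * g * B * g⁻¹ * k⁻¹) =
      g⁻¹ * (g * k * (A * (g * B * g⁻¹))) * k⁻¹ := by group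
    _ = g⁻¹ * (A * (g * B * g⁻¹) * (g * k)) * k⁻¹ := by rw [e1]
    _ = (g⁻¹ * A * g) * B := by group
    _ = A * B := by rw [e2]

/-- The commutator `[u, h, h]` commutes with `u` and `h`. -/
theorem cen (h5 : ∀ x : G, x ^ 5 = 1) (N : Subgroup G) (hNn : N.Normal)
    (hN : ∀ v ∈ N, ∀ g : G, ⁅⁅v, g⁆, g⁆ = 1) (u h : G) (hv : ⁅u, h⁆ ∈ N) :
    Commute ⁅⁅u, h⁆, h⁆ u ∧ Commute ⁅⁅u, h⁆, h⁆ h := by
  have hmem : ∀ v ∈ N, ∀ g : G, ⁅v, g⁆ ∈ N := by
    intro v hv g
    have : ⁅v, g⁆ = v * (g * v⁻¹ * g⁻¹) := by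
      simp only [commutatorElement_def]
      group
    rw [this]
    exact mul_mem hv (hNn.conj_mem _ (inv_mem hv) g)
  have L : ∀ v ∈ N, ∀ g k : G, (k * ⁅v, g⁆ * k⁻¹) * (k * g * ⁅v, k⁆ * g⁻¹ * k⁻¹) =
      ⁅v, g⁆ * ⁅v, k⁆ := fun v hv g k => lin_id (hN v hv g) (hN v hv (g * k))
  set v := ⁅u, h⁆ with hvd
  set s := ⁅v, h⁆ with hs
  set t := ⁅v, u⁆ with ht
  have sN : s ∈ N := hmem v hv h
  have tN : t ∈ N := hmem v hv u
  have f1 : Commute s h := comm_of (hN v hv h)
  have f2 : Commute t u := comm_of (hN v hv u)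
  refine ⟨?_, f1⟩
  set a := ⁅s, u⁆ with ha
  set b := ⁅t, h⁆ with hb
  have f3 : Commute a u := comm_of (hN s sN u)
  have f4 : Commute b h := comm_of (hN t tN h)
  have s1 : ⁅s, h⁆ = 1 := commutatorElement_eq_one_iff_mul_comm.2 f1
  have t1 : ⁅t, u⁆ = 1 := commutatorElement_eq_one_iff_mul_comm.2 f2
  have f5 : Commute a h := by
    have := L s sN h u
    rw [s1, ← ha, one_mul, mul_one, mul_inv_cancel, one_mul] at this
    -- `u h a h⁻¹ u⁻¹ = a`
    have e1 : h * a * h⁻¹ = u⁻¹ * a * u := by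
      calc h * a * h⁻¹ = u⁻¹ * (u * h * a * h⁻¹ * u⁻¹) * u := by group
        _ = u⁻¹ * a * u := by rw [this]
    have e2 : u⁻¹ * a * u = a := by rw [mul_assoc, f3.eq, ← mul_assoc, inv_mul_cancel, one_mul]
    rw [e2] at e1
    change a * h = h * a
    calc a * h = (h * a * h⁻¹) * h := by rw [e1]
      _ = h * a := by group
  have f6 : Commute b u := by
    have := L t tN u h
    rw [t1, ← hb, one_mul, mul_one, mul_inv_cancel, one_mul] at this
    have e1 : u * b * u⁻¹ = h⁻¹ * b * h := by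
      calc u * b * u⁻¹ = h⁻¹ * (h * u * b * u⁻¹ * h⁻¹) * h := by group
        _ = h⁻¹ * b * h := by rw [this]
    have e2 : h⁻¹ * b * h = b := by rw [mul_assoc, f4.eq, ← mul_assoc, inv_mul_cancel, one_mul]
    rw [e2] at e1
    change b * u = u * b
    calc b * u = (u * b * u⁻¹) * u := by rw [e1]
      _ = u * b := by group
  have av : Commute a v := by
    rw [hvd, commutatorElement_def]
    exact (((f3.mul_right f5).mul_right f3.inv_right).mul_right f5.inv_right)
  have bv : Commute b v := by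
    rw [hvd, commutatorElement_def]
    exact (((f6.mul_right f4).mul_right f6.inv_right).mul_right f4.inv_right)
  have as : Commute a s := by
    rw [hs, commutatorElement_def]
    exact (((av.mul_right f5).mul_right av.inv_right).mul_right f5.inv_right)
  have bs : Commute b s := by
    rw [hs, commutatorElement_def]
    exact (((bv.mul_right f4).mul_right bv.inv_right).mul_right f4.inv_right)
  have at' : Commute a t := by
    rw [ht, commutatorElement_def]
    exact (((av.mul_right f3).mul_right av.inv_right).mul_right f3.inv_right)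
  have bt : Commute b t := by
    rw [ht, commutatorElement_def]
    exact (((bv.mul_right f6).mul_right bv.inv_right).mul_right f6.inv_right)
  -- conjugation formulas
  have usu : u * s * u⁻¹ = a⁻¹ * s := by
    rw [ha, commutatorElement_def]
    group
  have hth : h * t * h⁻¹ = b⁻¹ * t := by
    rw [hb, commutatorElement_def]
    group
  have E1 : a⁻¹ * b⁻¹ = 1 := by
    have e := L v hv h u
    rw [← hs, ← ht, usu] at e
    have e1 : u * h * t * h⁻¹ * u⁻¹ = b⁻¹ * t := by
      calc u * h * t * h⁻¹ * u⁻¹ = u * (h * t * h⁻¹) * u⁻¹ := by group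
        _ = u * (b⁻¹ * t) * u⁻¹ := by rw [hth]
        _ = (b⁻¹ * t) * u * u⁻¹ := by rw [← (f6.inv_left.mul_left f2).eq]
        _ = b⁻¹ * t := by group
    rw [e1] at e
    have e2 : a⁻¹ * s * (b⁻¹ * t) = (a⁻¹ * b⁻¹) * (s * t) := by
      calc a⁻¹ * s * (b⁻¹ * t) = a⁻¹ * (s * b⁻¹) * t := by group
        _ = a⁻¹ * (b⁻¹ * s) * t := by rw [← bs.inv_left.eq]
        _ = (a⁻¹ * b⁻¹) * (s * t) := by group
    rw [e2] at e
    exact mul_eq_right.1 e
  have sv : Commute s v := by
    have e := L v hv h v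
    rw [← hs] at e
    have e1 : ⁅v, v⁆ = 1 := commutatorElement_self v
    rw [e1] at e
    have e2 : v * s * v⁻¹ = s := by
      calc v * s * v⁻¹ = v * s * v⁻¹ * (v * h * 1 * h⁻¹ * v⁻¹) := by group
        _ = s * 1 := e
        _ = s := mul_one s
    change s * v = v * s
    calc s * v = (v * s * v⁻¹) * v := by rw [e2]
      _ = v * s := by group
  have uvu : u * v * u⁻¹ = t⁻¹ * v := by
    rw [ht, commutatorElement_def]
    group
  have st : Commute s t := by
    have e1 : Commute (u * s * u⁻¹) (u * v * u⁻¹) := by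
      change u * s * u⁻¹ * (u * v * u⁻¹) = u * v * u⁻¹ * (u * s * u⁻¹)
      calc u * s * u⁻¹ * (u * v * u⁻¹) = u * (s * v) * u⁻¹ := by group
        _ = u * (v * s) * u⁻¹ := by rw [sv.eq]
        _ = u * v * u⁻¹ * (u * s * u⁻¹) := by group
    rw [usu, uvu] at e1
    have e2 : Commute a (t⁻¹ * v) := at'.inv_right.mul_right av
    have e3 : Commute s (t⁻¹ * v) := by
      have := e2.mul_left e1
      rwa [mul_inv_cancel_left] at this
    have e4 : Commute s t⁻¹ := by
      have := e3.mul_right sv.inv_right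
      rwa [mul_inv_cancel_right] at this
    have := e4.inv_right
    rwa [inv_inv] at this
  have hvh : h⁻¹ * v * h = s * v := by
    have e1 : h * v * h⁻¹ = s⁻¹ * v := by
      rw [hs, commutatorElement_def]
      group
    calc h⁻¹ * v * h = h⁻¹ * (s * (s⁻¹ * v)) * h := by group
      _ = h⁻¹ * (s * (h * v * h⁻¹)) * h := by rw [e1]
      _ = h⁻¹ * (s * h) * v := by group
      _ = h⁻¹ * (h * s) * v := by rw [f1.eq]
      _ = s * v := by group
  have uvu' : u⁻¹ * v * u = t * v := by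
    calc u⁻¹ * v * u = u⁻¹ * (t * (t⁻¹ * v)) * u := by group
      _ = u⁻¹ * (t * (u * v * u⁻¹)) * u := by rw [uvu]
      _ = u⁻¹ * (t * u) * v := by group
      _ = u⁻¹ * (u * t) * v := by rw [f2.eq]
      _ = t * v := by group
  have hth' : h⁻¹ * t * h = b * t := by
    calc h⁻¹ * t * h = h⁻¹ * (b * (b⁻¹ * t)) * h := by group
      _ = h⁻¹ * (b * (h * t * h⁻¹)) * h := by rw [hth]
      _ = h⁻¹ * (b * h) * t := by group
      _ = h⁻¹ * (h * b) * t := by rw [f4.eq]
      _ = b * t := by group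
  have usu' : u⁻¹ * s * u = a * s := by
    calc u⁻¹ * s * u = u⁻¹ * (a * (a⁻¹ * s)) * u := by group
      _ = u⁻¹ * (a * (u * s * u⁻¹)) * u := by rw [usu]
      _ = u⁻¹ * (a * u) * s := by group
      _ = u⁻¹ * (u * a) * s := by rw [f3.eq]
      _ = a * s := by group
  have E2 : b * t * (s * v) = a * s * (t * v) := by
    have e0 : u * h = v * (h * u) := by
      rw [hvd, commutatorElement_def]
      group
    calc b * t * (s * v) = (h⁻¹ * t * h) * (h⁻¹ * v * h) := by rw [hth', hvh]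
      _ = h⁻¹ * (t * v) * h := by group
      _ = h⁻¹ * (u⁻¹ * v * u) * h := by rw [uvu']
      _ = (u * h)⁻¹ * v * (u * h) := by group
      _ = (v * (h * u))⁻¹ * v * (v * (h * u)) := by rw [e0]
      _ = u⁻¹ * (h⁻¹ * v * h) * u := by group
      _ = u⁻¹ * (s * v) * u := by rw [hvh]
      _ = (u⁻¹ * s * u) * (u⁻¹ * v * u) := by group
      _ = a * s * (t * v) := by rw [usu', uvu']
  have ab : b = a := by
    have e1 : b * (s * t) = a * (s * t) := by
      calc b * (s * t) = b * (t * s) := by rw [st.eq]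
        _ = b * t * (s * v) * v⁻¹ := by group
        _ = a * s * (t * v) * v⁻¹ := by rw [E2]
        _ = a * (s * t) := by group
    exact mul_right_cancel e1
  have a1 : a = 1 := by
    rw [ab] at E1
    have e1 : a ^ 2 = 1 := by
      have : (a ^ 2)⁻¹ = a⁻¹ * a⁻¹ := by group
      rw [← inv_inj, this, E1, inv_one]
    have e2 := h5 a
    calc a = a ^ 5 * (a ^ 2)⁻¹ * (a ^ 2)⁻¹ := by group
      _ = 1 := by rw [e1, e2]; simp
  exact commutatorElement_eq_one_iff_mul_comm.1 a1

end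

end Pool.Agent.Helper140_E5
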