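import Mathlib

/-!
# A checker for vector enumerations over the field with five elements: definitions

Vectors are packed into natural numbers with base `2 ^ 16`.  The first `N` digits are the
coefficients of the nodes `0, …, N - 1`; the digit `N * (l + 1) + i` is the coefficient of the image
of node `i` under letter `l`.
-/

set_option autoImplicit false

namespace Pool.Agent.Helper140_E5

/-- base of the packing, `2 ^ 16` -/
abbrev Bs : ℕ := 65536

/-- the inverse of a letter -/
def iv : ℕ → ℕ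
  | 0 => 1
  | 1 => 0
  | 2 => 3
  | _ => 2

/-- force the evaluation of a number -/
noncomputable def frc (n : ℕ) (f : ℕ → Bool) : Bool :=
  Nat.rec (motive := fun _ => Bool) (f 0) (fun m _ => f (Nat.succ m)) n

/-- memory -/
inductive T
  | L
  | N (v : ℕ) (l r : T)

/-- reading -/
noncomputable def T.get (t : T) : ℕ → ℕ :=
  T.rec (motive := fun _ => ℕ → ℕ) (fun _ => 0)
    (fun v _ _ gl gr n => Nat.casesOn (motive := fun _ => ℕ) n v fun m =>
      Bool.casesOn (motive := fun _ => ℕ) (Nat.beq (Nat.mod m 2) 0)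
        (gr (Nat.div m 2)) (gl (Nat.div m 2))) t

/-- writing -/
noncomputable def T.ins (t : T) (x : ℕ) : ℕ → T :=
  T.rec (motive := fun _ => ℕ → T) (fun _ => .N x .L .L)
    (fun v l r il ir n => Nat.casesOn (motive := fun _ => T) n (.N x l r) fun m =>
      Bool.casesOn (motive := fun _ => T) (Nat.beq (Nat.mod m 2) 0)
        (.N v l (ir (Nat.div m 2))) (.N v (il (Nat.div m 2)) r)) t

/-- add multiples of stored vectors, at most 300 -/
noncomputable def sm (t : T) (fuel : ℕ) : ℕ → ℕ → ℕ :=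
  Nat.rec (motive := fun _ => ℕ → ℕ → ℕ) (fun _ acc => acc)
    (fun _ ih code acc => Nat.casesOn (motive := fun _ => ℕ) code acc fun m =>
      ih (Nat.div (Nat.succ m) 16384) (Nat.add acc
        (Nat.mul (Nat.mod (Nat.mod (Nat.succ m) 16384) 5)
          (t.get (Nat.div (Nat.mod (Nat.succ m) 16384) 5))))) fuel

/-- `1 + Bs + … + Bs ^ (D - 1)` -/
def rep (D : ℕ) : ℕ := Nat.div (Nat.sub (Nat.pow Bs D) 1) 65535

/-- reduction modulo five of the digits -/
noncomputable def rd (D : ℕ) (Y : ℕ) (k : ℕ → Bool) : Bool :=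
  frc Y fun Y =>
  frc (Nat.add (Nat.add (Nat.land Y (Nat.mul 15 (rep D)))
      (Nat.land (Nat.div Y 16) (Nat.mul 15 (rep D))))
    (Nat.add (Nat.land (Nat.div Y 256) (Nat.mul 15 (rep D)))
      (Nat.land (Nat.div Y 4096) (Nat.mul 15 (rep D))))) fun h =>
  frc (Nat.add (Nat.land h (Nat.mul 15 (rep D)))
    (Nat.land (Nat.div h 16) (Nat.mul 15 (rep D)))) fun h =>
  frc (Nat.sub h (Nat.mul 5 (Nat.land (Nat.div (Nat.mul h 205) 1024) (Nat.mul 31 (rep D)))))
    fun X =>
  frc (Nat.div (Nat.sub Y X) 5) fun Q =>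
  (Nat.beq (Nat.land X (Nat.mul 7 (rep D))) X).and <|
  (Nat.beq (Nat.land Q (Nat.mul 8191 (rep D))) Q).and <|
  (Nat.beq (Nat.add X (Nat.mul 5 Q)) Y).and <| k X

/-- one step of a path -/
noncomputable def stp (N : ℕ) (t : T) (l code P : ℕ) (k : ℕ → Bool) : Bool :=
  (Nat.blt l 4).and <|
  rd (Nat.mul 5 N) (sm t 300 code (Nat.mul P (Nat.pow Bs (Nat.mul N (Nat.succ l))))) fun X =>
    (Nat.blt X (Nat.pow Bs N)).and (k X)

/-- a path -/
noncomputable def wlk (N : ℕ) (t : T) (w : List ℕ) :
    ℕ → List ℕ → (ℕ → List ℕ → Bool) → Bool :=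
  List.rec (motive := fun _ => ℕ → List ℕ → (ℕ → List ℕ → Bool) → Bool)
    (fun P cs k => k P cs)
    (fun l _ ih P cs k => List.casesOn (motive := fun _ => Bool) cs false fun c cs =>
      stp N t l c P fun X => ih X cs k) w

/-- the inverse word -/
def ivw : List ℕ → List ℕ
  | [] => []
  | l :: w => ivw w ++ [iv l]

/-- lines of a certificate -/
inductive Ln
  | inst (i : ℕ) (w : List ℕ) (cs : List ℕ)
  | shf (f l c code : ℕ)
  | lin (code : ℕ)
  | inv (i l c c1 c2 : ℕ)
  | cub (i : ℕ) (cs : List ℕ)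

/-- final reduction of a line -/
noncomputable def fin' (N : ℕ) (t : T) (Y : ℕ) (cs : List ℕ) (k : ℕ → Bool) : Bool :=
  List.casesOn (motive := fun _ => Bool) cs false fun c _ => rd (Nat.mul 5 N) (sm t 300 c Y) k

/-- check of one line -/
noncomputable def Ln.run (N : ℕ) (z : Bool) (t : T) (ln : Ln) (k : ℕ → Bool) : Bool :=
  Ln.casesOn (motive := fun _ => Bool) ln
    (fun i w cs => (Nat.blt i N).and <| frc (Nat.pow Bs i) fun e =>
      wlk N t w e cs fun P1 cs => wlk N t w P1 cs fun P2 cs =>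
      wlk N t (ivw w) e cs fun P3 cs => wlk N t (ivw w) P3 cs fun P4 cs =>
      fin' N t (Nat.add e (Nat.add (Nat.add P1 P2) (Nat.add P3 P4))) cs k)
    (fun f l c code => (Nat.blt l 4).and <| (Nat.blt c 5).and <| frc (t.get f) fun P =>
      (Nat.blt P (Nat.pow Bs N)).and <|
      rd (Nat.mul 5 N) (sm t 300 code
        (Nat.mul c (Nat.mul P (Nat.pow Bs (Nat.mul N (Nat.succ l)))))) k)
    (fun code => rd (Nat.mul 5 N) (sm t 300 code 0) k)
    (fun i l c c1 c2 => (Nat.blt i N).and <| (Nat.blt l 4).and <| (Nat.blt c 5).and <|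
      frc (Nat.pow Bs i) fun e => stp N t l c1 e fun P =>
      rd (Nat.mul 5 N) (sm t 300 c2 (Nat.mul c
        (Nat.add (Nat.mul P (Nat.pow Bs (Nat.mul N (Nat.succ (iv l))))) (Nat.mul 4 e)))) k)
    (fun i cs => z.and <| (Nat.blt i N).and <| frc (Nat.pow Bs i) fun e =>
      wlk N t [0] e cs fun P1 cs => wlk N t [0] P1 cs fun P2 cs => wlk N t [0] P2 cs fun P3 cs =>
      fin' N t (Nat.add (Nat.add (Nat.mul 4 e) (Nat.mul 3 P1)) (Nat.add (Nat.mul 2 P2) P3)) cs k)

/-- check of all lines -/
noncomputable def loop (N : ℕ) (z : Bool) (ls : List Ln) : T → ℕ → (T → Bool) → Bool :=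
  List.rec (motive := fun _ => T → ℕ → (T → Bool) → Bool) (fun t _ k => k t)
    (fun ln _ ih t n k => ln.run N z t fun X => frc n fun n => ih (t.ins X n) (Nat.succ n) k) ls

/-- the definitions of the nodes, `4 * b + l` for `l (node b)` -/
noncomputable def ini (N : ℕ) (ds : List ℕ) : T → ℕ → (T → ℕ → Bool) → Bool :=
  List.rec (motive := fun _ => T → ℕ → (T → ℕ → Bool) → Bool)
    (fun t n k => k t n)
    (fun d _ ih t n k => (Nat.ble (Nat.div d 4) (Nat.div n 2)).and <|
      (Nat.blt (Nat.succ (Nat.div n 2)) N).and <|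
      frc (Nat.add (Nat.pow Bs (Nat.add (Nat.mul N (Nat.succ (Nat.mod d 4))) (Nat.div d 4)))
        (Nat.mul 4 (Nat.pow Bs (Nat.succ (Nat.div n 2))))) fun F1 =>
      frc (Nat.add (Nat.pow Bs (Nat.add (Nat.mul N (Nat.succ (iv (Nat.mod d 4))))
        (Nat.succ (Nat.div n 2)))) (Nat.mul 4 (Nat.pow Bs (Nat.div d 4)))) fun F2 =>
      frc n fun n => ih ((t.ins F1 n).ins F2 (Nat.succ n)) (Nat.succ (Nat.succ n)) k) ds

/-- the initial relations for a vector fixed by the letter `0` -/
noncomputable def sta (N : ℕ) (b : Bool) (t : T) (n : ℕ) (k : T → ℕ → Bool) : Bool :=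
  Bool.casesOn (motive := fun _ => Bool) b (k t n)
    (frc (Nat.add (Nat.pow Bs N) 4) fun F1 => frc (Nat.add (Nat.pow Bs (Nat.mul N 2)) 4) fun F2 =>
      k ((t.ins F1 n).ins F2 (Nat.succ n)) (Nat.succ (Nat.succ n)))

/-- the mask of a set of nodes -/
noncomputable def msk (fl : List Bool) : ℕ :=
  List.rec (motive := fun _ => ℕ) 0
    (fun b _ ih => Nat.add (Bool.casesOn (motive := fun _ => ℕ) b 0 7) (Nat.mul Bs ih)) fl

/-- one final fact: the image of node `i` under `l` is in the span -/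
noncomputable def chF (N m i l X : ℕ) : Bool :=
  frc (Nat.pow Bs (Nat.add (Nat.mul N (Nat.succ l)) i)) fun s =>
  frc (Nat.sub X s) fun R => (Nat.beq (Nat.add R s) X).and (Nat.beq (Nat.land R m) R)

/-- the final check: `fs` contains the four positions for each node of the set -/
noncomputable def clo (N m : ℕ) (t : T) (fl : List Bool) : ℕ → List ℕ → Bool :=
  List.rec (motive := fun _ => ℕ → List ℕ → Bool) (fun _ _ => true)
    (fun b _ ih i fs => Bool.casesOn (motive := fun _ => Bool) b (ih (Nat.succ i) fs)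
      (List.casesOn (motive := fun _ => Bool) fs false fun f0 fs =>
       List.casesOn (motive := fun _ => Bool) fs false fun f1 fs =>
       List.casesOn (motive := fun _ => Bool) fs false fun f2 fs =>
       List.casesOn (motive := fun _ => Bool) fs false fun f3 fs =>
       (chF N m i 0 (t.get f0)).and <| (chF N m i 1 (t.get f1)).and <|
       (chF N m i 2 (t.get f2)).and <| (chF N m i 3 (t.get f3)).and <| ih (Nat.succ i) fs)) fl

/-- the first entry is `true` -/
def hd : List Bool → Bool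
  | [] => false
  | b :: _ => b

/-- the check of a finite table -/
noncomputable def chkT (N : ℕ) (ds : List ℕ) (ls : List Ln) (fl : List Bool) (fs : List ℕ) :
    Bool :=
  (Nat.blt 0 N).and <| ini N ds .L 0 fun t n => sta N true t n fun t n => loop N false ls t n fun t =>
    (Nat.beq fl.length N).and <| (hd fl).and <| frc (msk fl) fun m => clo N m t fl 0 fs

/-- the check of an identity `v + 3 w v + w w v = 0` -/
noncomputable def chkW (N : ℕ) (ds : List ℕ) (ls : List Ln) (w cs : List ℕ) : Bool :=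
  (Nat.blt 0 N).and <| ini N ds .L 0 fun t n => loop N true ls t n fun t =>
    wlk N t w 1 cs fun P1 cs => wlk N t w P1 cs fun P2 cs =>
    fin' N t (Nat.add 1 (Nat.add (Nat.mul 3 P1) P2)) cs fun X => Nat.beq X 0

end Pool.Agent.Helper140_E5
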