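import Pool.Agent.Helper140_E5.Grp

/-!
# Consequences for groups of exponent five: soluble normal subgroups
-/

set_option autoImplicit false

namespace Pool.Agent.Helper140_E5

open Subgroup
open scoped commutatorElement

universe u v

section
variable {G : Type u} [Group G]

/-- the derived series of a subgroup -/
def ds (N : Subgroup G) : ℕ → Subgroup G
  | 0 => N
  | k + 1 => ⁅ds N k, ds N k⁆

theorem ds_normal {N : Subgroup G} (hN : N.Normal) : ∀ k, (ds N k).Normal
  | 0 => hN
  | k + 1 => by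
    have := ds_normal hN k
    exact commutator_normal _ _

theorem ds_shift (N : Subgroup G) : ∀ k, ds ⁅N, N⁆ k = ds N (k + 1)
  | 0 => rfl
  | k + 1 => by
    rw [ds, ds_shift N k]
    rfl

theorem ds_map {K : Type v} [Group K] (f : G →* K) (N : Subgroup G) :
    ∀ k, (ds N k).map f = ds (N.map f) k
  | 0 => rfl
  | k + 1 => by
    rw [ds, map_commutator, ds_map f N k]
    rfl

theorem ds_top : ∀ k, ds (⊤ : Subgroup G) k = derivedSeries G k
  | 0 => rfl
  | k + 1 => by
    rw [ds, ds_top k, derivedSeries_succ]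

theorem ds_eq (N : Subgroup G) (k : ℕ) : (derivedSeries N k).map N.subtype = ds N k := by
  rw [← ds_top, ds_map, ← MonoidHom.range_eq_map, Subgroup.range_subtype]

theorem ds_sub (N : Subgroup G) (k : ℕ) : (ds N k).subgroupOf N = derivedSeries N k := by
  rw [← ds_eq, subgroupOf, comap_map_eq_self_of_injective (Subgroup.subtype_injective N)]

theorem ds_bot {N : Subgroup G} (h : Group.IsSolvable N) : ∃ k, ds N k = ⊥ := by
  obtain ⟨k, hk⟩ := h.solvable
  exact ⟨k, by rw [← ds_eq, hk, Subgroup.map_bot]⟩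

end

/-- the law for groups of exponent `5` -/
theorem law5 {G : Type u} [Group G] (h5 : ∀ x : G, x ^ 5 = 1) (M : Subgroup G) (n g : G) :
    (n * g) ^ 5 * (g ^ 5)⁻¹ ∈ M := by
  rw [h5, h5]
  simp

/-- sections, for finitely generated subgroups -/
theorem sec_fg {G : Type u} [Group G] (h5 : ∀ x : G, x ^ 5 = 1) {S : Set G} (hS : S.Finite)
    (M N : Subgroup G) [M.Normal] [N.Normal] (hab : ⁅N, N⁆ ≤ M) :
    (∃ k, ∀ n ∈ N, ∀ l : List G, (∀ g ∈ l, g ∈ closure S) → l.length = k → lnc n l ∈ M) ∧
      (Cs M N).relIndex (closure S) ≠ 0 := by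
  obtain ⟨d, a, -, rfl⟩ := hS.fin_param
  obtain ⟨k, m, h⟩ := grp_sec.{u} d
  obtain ⟨h1, h2, -⟩ := h G a M N hab fun n _ g _ => law5 h5 M n g
  exact ⟨⟨k, h1⟩, h2⟩

/-- soluble normal subgroups, uniform -/
theorem sol_unif (d l : ℕ) : ∃ k, ∀ (G : Type u) [Group G] (a : Fin d → G) (N : Subgroup G),
    (∀ x : G, x ^ 5 = 1) → N.Normal → ds N l = ⊥ → ∀ n ∈ N, ∀ w : List G,
      (∀ g ∈ w, g ∈ closure (Set.range a)) → w.length = k → lnc n w = 1 := by
  obtain ⟨k, m, h⟩ := grp_sec.{u} d
  refine ⟨k * l, fun G _ a N h5 hN hl n hn => ?_⟩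
  have key : ∀ i, ∀ w : List G, (∀ g ∈ w, g ∈ closure (Set.range a)) → w.length = k * i →
      lnc n w ∈ ds N i := by
    intro i
    induction i with
    | zero =>
      intro w _ hw
      rw [Nat.mul_zero, List.length_eq_zero_iff] at hw
      subst hw
      exact hn
    | succ i ih =>
      intro w hw hwl
      have e : w = w.take (k * i) ++ w.drop (k * i) := (List.take_append_drop _ _).symm
      rw [e, lnc_append]
      have := ds_normal hN i
      have := ds_normal hN (i + 1)
      refine (h G a (ds N (i + 1)) (ds N i) le_rfl fun n _ g _ => law5 h5 _ n g).1 _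
        (ih (w.take (k * i)) (fun g hg => hw g (List.mem_of_mem_take hg)) ?_) _
        (fun g hg => hw g (List.mem_of_mem_drop hg)) ?_
      · rw [List.length_take, hwl, Nat.mul_succ]
        omega
      · rw [List.length_drop, hwl, Nat.mul_succ]
        omega
  intro w hw hwl
  have := key l w hw hwl
  rw [hl, mem_bot] at this
  exact this

theorem mem_ucs {G : Type u} [Group G] (k : ℕ) : ∀ n : G,
    (∀ w : List G, w.length = k → lnc n w = 1) → n ∈ Subgroup.upperCentralSeries G k := by
  induction k with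
  | zero =>
    intro n h
    rw [Subgroup.upperCentralSeries_zero, mem_bot]
    exact h [] rfl
  | succ k ih =>
    intro n h
    rw [Subgroup.mem_upperCentralSeries_succ_iff]
    intro y
    refine ih _ fun w hw => ?_
    rw [← lnc_cons]
    exact h _ (by simp [hw])

/-- every finitely generated subgroup meets `C` in a subgroup of finite index -/
def LFq {G : Type u} [Group G] (C : Subgroup G) : Prop :=
  ∀ S : Set G, S.Finite → C.relIndex (closure S) ≠ 0

section
variable {G : Type u} [Group G]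

/-- finitely generated intersections -/
theorem fg_inf {S : Set G} (hS : S.Finite) {D : Subgroup G} (h : D.relIndex (closure S) ≠ 0) :
    ∃ T : Set G, T.Finite ∧ closure T = D ⊓ closure S := by
  have h3 : Group.FG (closure S) := by
    rw [Group.fg_iff_subgroup_fg]
    exact ⟨hS.toFinset, by rw [Set.Finite.coe_toFinset]⟩
  have h2 : (D.subgroupOf (closure S)).FiniteIndex := ⟨h⟩
  have h4 : Group.FG (D.subgroupOf (closure S)) :=
    Subgroup.fg_of_index_ne_zero _
  rw [Group.fg_iff_subgroup_fg] at h4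
  obtain ⟨T, hT⟩ := h4
  refine ⟨(closure S).subtype '' T, T.finite_toSet.image _, ?_⟩
  rw [← MonoidHom.map_closure, hT, subgroupOf_map_subtype]

theorem LFq.chain {D C : Subgroup G} (hD : LFq D)
    (hC : ∀ S : Set G, S.Finite → closure S ≤ D → C.relIndex (closure S) ≠ 0) : LFq C := by
  intro S hS
  obtain ⟨T, hT, hTc⟩ := fg_inf hS (hD S hS)
  have h1 := hC T hT (by rw [hTc]; exact inf_le_left)
  rw [hTc] at h1
  refine relIndex_ne_zero_trans h1 ?_
  rw [inf_relIndex_right]
  exact hD S hS

theorem LFq.inf {D C : Subgroup G} (hD : LFq D) (hC : LFq C) : LFq (D ⊓ C) :=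
  fun S hS => relIndex_inf_ne_zero (hD S hS) (hC S hS)

/-- commutators of automorphisms acting trivially on the factors of `N ≥ N'` -/
theorem stab_comm {N : Subgroup G} [N.Normal] {g h : G} (g1 : g ∈ Cs ⁅N, N⁆ N)
    (g2 : g ∈ centralizer (⁅N, N⁆ : Subgroup G)) (h1 : h ∈ Cs ⁅N, N⁆ N)
    (h2 : h ∈ centralizer (⁅N, N⁆ : Subgroup G)) : ⁅g, h⁆ ∈ centralizer (N : Set G) := by
  have hN : N.Normal := inferInstance
  have hN' : (⁅N, N⁆ : Subgroup G).Normal := inferInstance
  rw [mem_Cs] at g1 h1
  rw [mem_centralizer_iff] at g2 h2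
  have key : ∀ n ∈ N, (g * h) * n * (g * h)⁻¹ = (h * g) * n * (h * g)⁻¹ := by
    intro n hn
    have a1 := g1 _ (inv_mem hn)
    have b1 := h1 _ (inv_mem hn)
    set a := ⁅n⁻¹, g⁆ with ha
    set b := ⁅n⁻¹, h⁆ with hb
    have ea : g * n * g⁻¹ = n * a := by
      rw [ha, commutatorElement_def]
      group
    have eb : h * n * h⁻¹ = n * b := by
      rw [hb, commutatorElement_def]
      group
    have gb := g2 b b1
    have ha' := h2 a a1
    have gb' : g * b * g⁻¹ = b := by rw [← gb, mul_inv_cancel_right]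
    have ha'' : h * a * h⁻¹ = a := by rw [← ha', mul_inv_cancel_right]
    -- `a` commutes with `b`
    have hx : n * b * n⁻¹ ∈ (⁅N, N⁆ : Subgroup G) := hN'.conj_mem _ b1 n
    have e1 := g2 _ hx
    have e2 : g * (n * b * n⁻¹) * g⁻¹ = n * b * n⁻¹ := by rw [← e1, mul_inv_cancel_right]
    have e3 : g * (n * b * n⁻¹) * g⁻¹ = n * a * b * a⁻¹ * n⁻¹ := by
      calc g * (n * b * n⁻¹) * g⁻¹ = (g * n * g⁻¹) * (g * b * g⁻¹) * (g * n * g⁻¹)⁻¹ := by group
        _ = n * a * b * (n * a)⁻¹ := by rw [ea, gb']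
        _ = n * a * b * a⁻¹ * n⁻¹ := by group
    rw [e2] at e3
    have e4 : b = a * b * a⁻¹ := by
      have := congrArg (fun z => n⁻¹ * z * n) e3
      simpa [mul_assoc] using this
    have e5 : b * a = a * b := by
      calc b * a = a * b * a⁻¹ * a := by rw [← e4]
        _ = a * b := by group
    calc (g * h) * n * (g * h)⁻¹ = g * (h * n * h⁻¹) * g⁻¹ := by group
      _ = (g * n * g⁻¹) * (g * b * g⁻¹) := by rw [eb]; group
      _ = n * (a * b) := by rw [ea, gb', mul_assoc]
      _ = n * b * a := by rw [← e5, mul_assoc]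
      _ = (h * n * h⁻¹) * (h * a * h⁻¹) := by rw [eb, ha'']
      _ = h * (n * a) * h⁻¹ := by group
      _ = h * (g * n * g⁻¹) * h⁻¹ := by rw [ea]
      _ = (h * g) * n * (h * g)⁻¹ := by group
  rw [mem_centralizer_iff]
  intro x hx
  have hy : (h * g)⁻¹ * x * (h * g) ∈ N := by
    have := hN.conj_mem x hx (h * g)⁻¹
    rw [inv_inv] at this
    exact this
  have := key _ hy
  have e : (h * g) * ((h * g)⁻¹ * x * (h * g)) * (h * g)⁻¹ = x := by group
  rw [e] at this
  have e' : ⁅g, h⁆ * x * ⁅g, h⁆⁻¹ = x := by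
    rw [← this, commutatorElement_def]
    group
    have := key _ hy
    rw [e] at this
    nth_rw 2 [← this]
    group
  exact (mul_inv_eq_iff_eq_mul.1 e').symm

end

end Pool.Agent.Helper140_E5
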