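import Pool.Agent.Helper140_E5.Cns

/-!
# Consequences for groups of exponent five
-/

set_option autoImplicit false

namespace Pool.Agent.Helper140_E5

open Subgroup
open scoped commutatorElement

universe u v

section
variable {G : Type u} [Group G]

/-- Soluble normal subgroups: every finitely generated subgroup acts as a finite group. -/
theorem sol_lfq (h5 : ∀ x : G, x ^ 5 = 1) (l : ℕ) : ∀ N : Subgroup G, N.Normal → ds N l = ⊥ →
    LFq (centralizer (N : Set G)) := by
  induction l with
  | zero =>
    intro N _ hN S _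
    have : N = ⊥ := hN
    subst this
    have e : centralizer ((⊥ : Subgroup G) : Set G) = ⊤ := by
      rw [eq_top_iff]
      intro g _
      rw [mem_centralizer_iff]
      intro x hx
      rw [SetLike.mem_coe, mem_bot] at hx
      rw [hx, one_mul, mul_one]
    rw [e, relIndex_top_left]
    exact one_ne_zero
  | succ l ih =>
    intro N hN hl
    have hN' : (⁅N, N⁆ : Subgroup G).Normal := commutator_normal _ _
    have i1 : LFq (Cs ⁅N, N⁆ N) := fun S hS => (sec_fg h5 hS ⁅N, N⁆ N le_rfl).2
    have i2 : LFq (centralizer ((⁅N, N⁆ : Subgroup G) : Set G)) :=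
      ih ⁅N, N⁆ hN' (by rw [ds_shift]; exact hl)
    refine (i1.inf i2).chain fun S hS hSD => ?_
    set H := closure S with hH
    have hCn : (centralizer (N : Set G)).Normal := inferInstance
    set C' := (centralizer (N : Set G)).subgroupOf H with hC'
    have hlf : LFin (H ⧸ C') := by
      refine lf_comm ?_ (n := 5) (by norm_num) ?_
      · intro x y
        obtain ⟨x, rfl⟩ := QuotientGroup.mk_surjective x
        obtain ⟨y, rfl⟩ := QuotientGroup.mk_surjective y
        have : ⁅x, y⁆ ∈ C' := by
          rw [hC', mem_subgroupOf]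
          have hx := hSD x.2
          have hy := hSD y.2
          exact stab_comm hx.1 hx.2 hy.1 hy.2
        have h1 := (QuotientGroup.eq_one_iff (N := C') _).2 this
        change (QuotientGroup.mk' C') ⁅x, y⁆ = 1 at h1
        rw [map_commutatorElement] at h1
        exact commutatorElement_eq_one_iff_mul_comm.1 h1
      · intro x
        obtain ⟨x, rfl⟩ := QuotientGroup.mk_surjective x
        rw [← QuotientGroup.mk_pow]
        have : x ^ 5 = 1 := Subtype.ext (h5 x)
        rw [this, QuotientGroup.mk_one]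
    have h3 : Group.FG H := by
      rw [Group.fg_iff_subgroup_fg]
      exact ⟨hS.toFinset, by rw [Set.Finite.coe_toFinset]⟩
    have h4 : Group.FG (H ⧸ C') := QuotientGroup.fg C'
    obtain ⟨T, hT⟩ := h4.out
    have h6 := hlf T T.finite_toSet
    rw [hT] at h6
    have h7 : Finite (H ⧸ C') := Finite.of_injective
      (fun k => (⟨k, trivial⟩ : (⊤ : Subgroup (H ⧸ C')))) fun x y hxy => congrArg Subtype.val hxy
    have h8 : C'.FiniteIndex := Subgroup.finiteIndex_of_finite_quotient
    exact h8.index_ne_zero

/-- local finiteness criterion -/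
theorem lf_crit (h5 : ∀ x : G, x ^ 5 = 1) {l : ℕ} {N : Subgroup G} (hN : N.Normal)
    (hl : ds N l = ⊥) (hC : LFin (centralizer (N : Set G))) : LFin G := by
  intro S hS
  obtain ⟨T, hT, hTc⟩ := fg_inf hS (sol_lfq h5 l N hN hl S hS)
  have h1 : Finite (closure T) := by
    have hTC : T ⊆ (centralizer (N : Set G) : Set G) := by
      intro t ht
      have : t ∈ closure T := subset_closure ht
      rw [hTc] at this
      exact this.1
    have h2 := hC (Subtype.val ⁻¹' T) (hT.preimage Subtype.val_injective.injOn)
    have h3 : closure T = (closure (Subtype.val ⁻¹' T : Set (centralizer (N : Set G)))).map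
        (centralizer (N : Set G)).subtype := by
      rw [MonoidHom.map_closure]
      congr 1
      ext t
      constructor
      · intro ht
        exact ⟨⟨t, hTC ht⟩, ht, rfl⟩
      · rintro ⟨t, ht, rfl⟩
        exact ht
    rw [h3]
    exact Finite.of_surjective (fun x : closure (Subtype.val ⁻¹' T :
      Set (centralizer (N : Set G))) => (⟨_, x, x.2, rfl⟩ :
        (closure (Subtype.val ⁻¹' T : Set (centralizer (N : Set G)))).map
        (centralizer (N : Set G)).subtype)) (by
        rintro ⟨_, x, hx, rfl⟩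
        exact ⟨⟨x, hx⟩, rfl⟩)
  rw [hTc] at h1
  have h2 : (centralizer (N : Set G) ⊓ closure S).relIndex (closure S) ≠ 0 := by
    rw [inf_relIndex_right]
    exact sol_lfq h5 l N hN hl S hS
  set A := centralizer (N : Set G) ⊓ closure S with hA
  have h3 : (A.subgroupOf (closure S)).FiniteIndex := ⟨h2⟩
  have h4 : Finite (A.subgroupOf (closure S)) :=
    Finite.of_injective (fun x => (⟨(x : closure S), x.2⟩ : A)) (by
      intro x y hxy
      exact Subtype.ext (Subtype.ext (congrArg (fun z : A => (z : G)) hxy)))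
  have h5 : Finite (closure S ⧸ A.subgroupOf (closure S)) :=
    Subgroup.finite_quotient_of_finiteIndex
  exact Finite.of_equiv _ (Subgroup.groupEquivQuotientProdSubgroup
    (s := A.subgroupOf (closure S))).symm

/-- A finitary version of membership in the normal closure of one element. -/
theorem nc_fin {w x : G} (hx : x ∈ normalClosure {w}) : ∃ S : Set G, S.Finite ∧
    ∀ H : Subgroup G, S ⊆ H → x ∈ closure {y | ∃ h ∈ H, y = h * w * h⁻¹} := by
  rw [normalClosure] at hx
  induction hx using closure_induction with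
  | mem x hx =>
    rw [Group.mem_conjugatesOfSet_iff] at hx
    obtain ⟨a, ha, hax⟩ := hx
    rw [Set.mem_singleton_iff] at ha
    subst ha
    obtain ⟨h, rfl⟩ := isConj_iff.1 hax
    exact ⟨{h}, Set.finite_singleton h, fun H hH => subset_closure ⟨h, hH rfl, rfl⟩⟩
  | one => exact ⟨∅, Set.finite_empty, fun H _ => one_mem _⟩
  | mul x y _ _ hx hy =>
    obtain ⟨S, hS, hS'⟩ := hx
    obtain ⟨T, hT, hT'⟩ := hy
    exact ⟨S ∪ T, hS.union hT, fun H hH => mul_mem
      (hS' H (Set.subset_union_left.trans hH)) (hT' H (Set.subset_union_right.trans hH))⟩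
  | inv x _ hx =>
    obtain ⟨S, hS, hS'⟩ := hx
    exact ⟨S, hS, fun H hH => inv_mem (hS' H hH)⟩

/-- An element of an abelian normal subgroup is not in the normal closure of `[n, g]`. -/
theorem ab_nc (h5 : ∀ x : G, x ^ 5 = 1) {N : Subgroup G} (hN : N.Normal)
    (hab : ∀ x ∈ N, ∀ y ∈ N, x * y = y * x) {n g : G} (hn : n ∈ N)
    (hng : n ∈ normalClosure {⁅n, g⁆}) : n = 1 := by
  obtain ⟨S, hS, hS'⟩ := nc_fin hng
  set H := closure (insert g S) with hH
  have hgH : g ∈ H := subset_closure (Set.mem_insert _ _)
  have hmem := hS' H fun s hs => subset_closure (Set.mem_insert_of_mem _ hs)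
  obtain ⟨⟨k, hk⟩, -⟩ := sec_fg h5 (hS.insert g) ⊥ N (by
    rw [commutator_le]
    intro x hx y hy
    rw [mem_bot, commutatorElement_eq_one_iff_mul_comm]
    exact hab x hx y hy)
  have hcm : ∀ x ∈ N, ∀ y : G, ⁅x, y⁆ ∈ N := by
    intro x hx y
    have : ⁅x, y⁆ = x * (y * x⁻¹ * y⁻¹) := by
      rw [commutatorElement_def]
      group
    rw [this]
    exact mul_mem hx (hN.conj_mem _ (inv_mem hx) y)
  have hln : ∀ (l : List G) (x : G), x ∈ N → lnc x l ∈ N := by
    intro l
    induction l with
    | nil => exact fun x hx => hx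
    | cons g l ih => exact fun x hx => ih _ (hcm x hx g)
  set W : ℕ → Subgroup G := fun j =>
    closure {z | ∃ x ∈ N, ∃ l : List G, (∀ h ∈ l, h ∈ H) ∧ l.length = j ∧ z = lnc x l} with hW
  have hWN : ∀ j, W j ≤ N := by
    intro j
    rw [hW, closure_le]
    rintro _ ⟨x, hx, l, -, -, rfl⟩
    exact hln l x hx
  have hWc : ∀ j, ∀ z ∈ W j, ∀ h ∈ H, h * z * h⁻¹ ∈ W j := by
    intro j z hz h hh
    rw [hW] at hz
    refine closure_induction (p := fun z _ => h * z * h⁻¹ ∈ W j) ?_ ?_ ?_ ?_ hz
    · rintro _ ⟨x, hx, l, hl, hlj, rfl⟩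
      refine subset_closure ⟨h * x * h⁻¹, hN.conj_mem x hx h, l.map fun y => h * y * h⁻¹, ?_, ?_, ?_⟩
      · intro y hy
        obtain ⟨y', hy', rfl⟩ := List.mem_map.1 hy
        exact mul_mem (mul_mem hh (hl y' hy')) (inv_mem hh)
      · rw [List.length_map, hlj]
      · exact (lnc_map (MulAut.conj h).toMonoidHom x l).symm
    · rw [mul_one, mul_inv_cancel]
      exact one_mem _
    · intro x y _ _ hx hy
      have : h * (x * y) * h⁻¹ = (h * x * h⁻¹) * (h * y * h⁻¹) := by group
      rw [this]
      exact mul_mem hx hy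
    · intro x _ hx
      have : h * x⁻¹ * h⁻¹ = (h * x * h⁻¹)⁻¹ := by group
      rw [this]
      exact inv_mem hx
  have hWs : ∀ j, ∀ z ∈ W j, ⁅z, g⁆ ∈ W (j + 1) := by
    intro j z hz
    have hz' := hz
    rw [hW] at hz'
    refine closure_induction (p := fun z _ => ⁅z, g⁆ ∈ W (j + 1)) ?_ ?_ ?_ ?_ hz'
    · rintro _ ⟨x, hx, l, hl, hlj, rfl⟩
      refine subset_closure ⟨x, hx, l ++ [g], ?_, ?_, ?_⟩
      · intro y hy
        rcases List.mem_append.1 hy with hy | hy
        · exact hl y hy
        · rw [List.mem_singleton.1 hy]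
          exact hgH
      · rw [List.length_append, hlj, List.length_singleton]
      · rw [lnc_append]
        rfl
    · rw [commutatorElement_one_left]
      exact one_mem _
    · intro x y hx hy h1 h2
      have hxN : x ∈ N := hWN j hx
      have hyN : y ∈ N := hWN j hy
      have : ⁅x * y, g⁆ = ⁅x, g⁆ * ⁅y, g⁆ := by
        have e : ⁅x * y, g⁆ = x * ⁅y, g⁆ * x⁻¹ * ⁅x, g⁆ := by
          simp only [commutatorElement_def]
          group
        rw [e, hab x hxN _ (hcm y hyN g), mul_inv_cancel_right,
          hab _ (hcm y hyN g) _ (hcm x hxN g)]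
      rw [this]
      exact mul_mem h1 h2
    · intro x hx h1
      have hxN : x ∈ N := hWN j hx
      have : ⁅x⁻¹, g⁆ = ⁅x, g⁆⁻¹ := by
        have e : ⁅x⁻¹, g⁆ = x⁻¹ * ⁅x, g⁆⁻¹ * x := by
          simp only [commutatorElement_def]
          group
        rw [e, hab _ (inv_mem hxN) _ (inv_mem (hcm x hxN g)), inv_mul_cancel_right]
      rw [this]
      exact inv_mem h1
  have hnW : ∀ j, n ∈ W j := by
    intro j
    induction j with
    | zero => exact subset_closure ⟨n, hn, [], by simp, rfl, rfl⟩
    | succ j ih =>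
      have h1 := hWs j n ih
      have h2 : closure {y | ∃ h ∈ H, y = h * ⁅n, g⁆ * h⁻¹} ≤ W (j + 1) := by
        rw [closure_le]
        rintro _ ⟨h, hh, rfl⟩
        exact hWc _ _ h1 h hh
      exact h2 hmem
  have h1 := hnW k
  have h2 : W k = ⊥ := by
    rw [eq_bot_iff, hW, closure_le]
    rintro _ ⟨x, hx, l, hl, hlk, rfl⟩
    exact hk x hx l hl hlk
  rw [h2, mem_bot] at h1
  exact h1

/-- Abelian chief factors are central. -/
theorem chief (h5 : ∀ x : G, x ^ 5 = 1) (M N : Subgroup G) [M.Normal] [N.Normal] (hMN : M ≤ N)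
    (hab : ⁅N, N⁆ ≤ M) (hmin : ∀ L : Subgroup G, L.Normal → M ≤ L → L ≤ N → L = M ∨ L = N) :
    ⁅N, ⊤⁆ ≤ M := by
  rw [commutator_le]
  intro n hn g _
  by_contra hcon
  have hNn : N.Normal := inferInstance
  have hcm : ⁅n, g⁆ ∈ N := by
    have : ⁅n, g⁆ = n * (g * n⁻¹ * g⁻¹) := by
      rw [commutatorElement_def]
      group
    rw [this]
    exact mul_mem hn (hNn.conj_mem _ (inv_mem hn) g)
  set π := QuotientGroup.mk' M with hπ
  have hπs : Function.Surjective π := QuotientGroup.mk'_surjective M
  have hker : ∀ x, π x = 1 ↔ x ∈ M := fun x => QuotientGroup.eq_one_iff x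
  have hNm : (N.map π).Normal := hNn.map π hπs
  have h5' : ∀ x : G ⧸ M, x ^ 5 = 1 := by
    intro x
    obtain ⟨x, rfl⟩ := hπs x
    rw [← map_pow, h5, map_one]
  have hL : ((normalClosure {π ⁅n, g⁆}).comap π).Normal := inferInstance
  rcases hmin _ hL (by
      intro x hx
      rw [mem_comap, (hker x).2 hx]
      exact one_mem _) (by
      have h1 : normalClosure {π ⁅n, g⁆} ≤ N.map π := by
        refine normalClosure_le_normal ?_
        rw [Set.singleton_subset_iff]
        exact ⟨_, hcm, rfl⟩
      refine (comap_mono h1).trans ?_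
      rw [comap_map_eq, QuotientGroup.ker_mk', sup_eq_left.2 hMN]) with h | h
  · refine hcon ?_
    rw [← h, mem_comap]
    exact subset_normalClosure rfl
  · refine hcon ?_
    have hn' : n ∈ (normalClosure {π ⁅n, g⁆}).comap π := by
      rw [h]
      exact hn
    rw [mem_comap, map_commutatorElement] at hn'
    have := ab_nc h5' hNm (by
      rintro _ ⟨x, hx, rfl⟩ _ ⟨y, hy, rfl⟩
      rw [← commutatorElement_eq_one_iff_mul_comm, ← map_commutatorElement]
      exact (hker _).2 (hab (commutator_mem_commutator hx hy))) ⟨n, hn, rfl⟩ hn'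
    rw [← hker, map_commutatorElement, this, commutatorElement_one_left]

/-- the union of the finite terms of the upper central series -/
def Zw (G : Type u) [Group G] : Subgroup G := ⨆ k, Subgroup.upperCentralSeries G k

theorem mem_Zw {x : G} : x ∈ Zw G ↔ ∃ k, x ∈ Subgroup.upperCentralSeries G k := by
  rw [Zw, mem_iSup_of_directed]
  exact (Subgroup.upperCentralSeries_mono G).directed_le

instance Zw_normal : (Zw G).Normal := by
  constructor
  intro x hx g
  rw [mem_Zw] at hx ⊢
  obtain ⟨k, hk⟩ := hx
  exact ⟨k, (inferInstance : (Subgroup.upperCentralSeries G k).Normal).conj_mem x hk g⟩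

/-- In a finitely generated group the hypercentre absorbs. -/
theorem Zw_abs (h5 : ∀ x : G, x ^ 5 = 1) {S : Set G} (hS : S.Finite) (hc : closure S = ⊤)
    (N : Subgroup G) (hN : N.Normal) (hab : ⁅N, N⁆ ≤ Zw G) : N ≤ Zw G := by
  obtain ⟨⟨k, hk⟩, -⟩ := sec_fg h5 hS (Zw G) N hab
  intro n hn
  have key : ∀ j, j ≤ k → ∀ l : List G, (∀ g ∈ l, g ∈ S) → l.length = k - j → lnc n l ∈ Zw G := by
    intro j
    induction j with
    | zero =>
      intro _ l hl hlk
      exact hk n hn l (fun g hg => subset_closure (hl g hg)) hlk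
    | succ j ih =>
      intro hj l hl hlk
      have h1 : ∀ s ∈ S, ∃ i, ⁅lnc n l, s⁆ ∈ Subgroup.upperCentralSeries G i := by
        intro s hs
        rw [← mem_Zw]
        have := ih (by omega) (l ++ [s]) (by
          intro g hg
          rcases List.mem_append.1 hg with hg | hg
          · exact hl g hg
          · rw [List.mem_singleton.1 hg]
            exact hs) (by
          rw [List.length_append, hlk, List.length_singleton]
          omega)
        rw [lnc_append] at this
        exact this
      choose! i hi using h1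
      obtain ⟨b, hb⟩ := (hS.image i).bddAbove
      have h2 : ∀ s ∈ S, ⁅lnc n l, s⁆ ∈ Subgroup.upperCentralSeries G b := fun s hs =>
        Subgroup.upperCentralSeries_mono G (hb ⟨s, hs, rfl⟩) (hi s hs)
      rw [mem_Zw]
      refine ⟨b + 1, ?_⟩
      rw [Subgroup.mem_upperCentralSeries_succ_iff]
      intro y
      have hy : y ∈ closure S := by
        rw [hc]
        trivial
      have hU : (Subgroup.upperCentralSeries G b).Normal := inferInstance
      set x := lnc n l
      refine closure_induction (p := fun y _ => ⁅x, y⁆ ∈ Subgroup.upperCentralSeries G b)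
        h2 ?_ ?_ ?_ hy
      · rw [commutatorElement_one_right]
        exact one_mem _
      · intro y z _ _ hy hz
        have : ⁅x, y * z⁆ = ⁅x, y⁆ * (y * ⁅x, z⁆ * y⁻¹) := by
          simp only [commutatorElement_def]
          group
        rw [this]
        exact mul_mem hy (hU.conj_mem _ hz y)
      · intro y _ hy
        have : ⁅x, y⁻¹⁆ = y⁻¹ * ⁅x, y⁆⁻¹ * y⁻¹⁻¹ := by
          simp only [commutatorElement_def]
          group
        rw [this]
        exact hU.conj_mem _ (inv_mem hy) _
  exact key k le_rfl [] (by simp) (by simp)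

/-- In perfect groups the upper central series stops at the centre. -/
theorem perfect_Zw (hp : ⁅(⊤ : Subgroup G), (⊤ : Subgroup G)⁆ = ⊤) : Zw G ≤ center G := by
  have h2 : ∀ x ∈ Subgroup.upperCentralSeries G 2, x ∈ center G := by
    intro x hx
    rw [Subgroup.mem_upperCentralSeries_succ_iff] at hx
    have hx' : ∀ y, ⁅x, y⁆ ∈ center G := by
      intro y
      have := hx y
      rwa [Subgroup.upperCentralSeries_one] at this
    let f : G →* center G :=
      { toFun := fun y => ⟨⁅x, y⁆, hx' y⟩
        map_one' := Subtype.ext (commutatorElement_one_right x)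
        map_mul' := fun y z => Subtype.ext (by
          change ⁅x, y * z⁆ = ⁅x, y⁆ * ⁅x, z⁆
          have : ⁅x, y * z⁆ = ⁅x, y⁆ * (y * ⁅x, z⁆ * y⁻¹) := by
            simp only [commutatorElement_def]
            group
          rw [this, mem_center_iff.1 (hx' z) y, mul_inv_cancel_right]) }
    have hf : f.ker = ⊤ := by
      rw [eq_top_iff, ← hp, commutator_le]
      intro y _ z _
      rw [MonoidHom.mem_ker, map_commutatorElement, commutatorElement_eq_one_iff_mul_comm]
      exact Subtype.ext (mem_center_iff.1 (f z).2 (f y : G))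
    rw [mem_center_iff]
    intro y
    have hy : y ∈ f.ker := by
      rw [hf]
      trivial
    have h3 : ⁅x, y⁆ = 1 := congrArg Subtype.val hy
    exact (commutatorElement_eq_one_iff_mul_comm.1 h3).symm
  have key : ∀ k, Subgroup.upperCentralSeries G k ≤ center G := by
    intro k
    induction k with
    | zero =>
      rw [Subgroup.upperCentralSeries_zero]
      exact bot_le
    | succ k ih =>
      intro x hx
      refine h2 x ?_
      rw [Subgroup.mem_upperCentralSeries_succ_iff] at hx ⊢
      intro y
      rw [Subgroup.upperCentralSeries_one]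
      exact ih (hx y)
  intro x hx
  obtain ⟨k, hk⟩ := mem_Zw.1 hx
  exact key k hk

/-- Normal closures of finite sets have finite soluble quotients. -/
theorem nc_der (h5 : ∀ x : G, x ^ 5 = 1) {S : Set G} (hS : S.Finite) (hc : closure S = ⊤)
    {T : Set G} (hT : T.Finite) (l : ℕ) :
    Finite (normalClosure T ⧸ derivedSeries (normalClosure T) l) := by
  set N := normalClosure T with hN
  have hNn : N.Normal := normalClosure_normal
  have hD : (ds N l).Normal := ds_normal hNn l
  set π := QuotientGroup.mk' (ds N l) with hπ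
  have hπs : Function.Surjective π := QuotientGroup.mk'_surjective _
  have h5' : ∀ x : G ⧸ ds N l, x ^ 5 = 1 := by
    intro x
    obtain ⟨x, rfl⟩ := hπs x
    rw [← map_pow, h5, map_one]
  have hNm : (N.map π).Normal := hNn.map π hπs
  have hds : ds (N.map π) l = ⊥ := by
    rw [← ds_map]
    exact QuotientGroup.map_mk'_self _
  have hSc : closure (π '' S) = ⊤ := by
    rw [← MonoidHom.map_closure, hc, ← MonoidHom.range_eq_map, MonoidHom.range_eq_top.2 hπs]
  have hfi := sol_lfq h5' l (N.map π) hNm hds (π '' S) (hS.image _)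
  rw [hSc, relIndex_top_right] at hfi
  have hNc : N.map π = normalClosure (π '' T) := by
    exact map_normalClosure T π hπs
  -- finitely many conjugates
  have hconj : (Group.conjugatesOfSet (π '' T)).Finite := by
    have : Group.conjugatesOfSet (π '' T) = ⋃ t ∈ π '' T, {y | ∃ g : G ⧸ ds N l, g * t * g⁻¹ = y} := by
      ext y
      simp only [Group.mem_conjugatesOfSet_iff, Set.mem_iUnion, Set.mem_ofPred_eq, isConj_iff,
        exists_prop]
    rw [this]
    refine (hT.image π).biUnion fun t ht => ?_
    have htN : t ∈ N.map π := by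
      rw [hNc]
      exact subset_normalClosure ht
    have hfi' : (centralizer ((N.map π : Subgroup (G ⧸ ds N l)) : Set (G ⧸ ds N l))).FiniteIndex :=
      ⟨hfi⟩
    have hq : Finite ((G ⧸ ds N l) ⧸ centralizer ((N.map π : Subgroup (G ⧸ ds N l)) :
        Set (G ⧸ ds N l))) := Subgroup.finite_quotient_of_finiteIndex
    have hwd : ∀ g : G ⧸ ds N l, (fun q : (G ⧸ ds N l) ⧸ centralizer ((N.map π :
        Subgroup (G ⧸ ds N l)) : Set (G ⧸ ds N l)) => q.out * t * q.out⁻¹) (QuotientGroup.mk g) =
        g * t * g⁻¹ := by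
      intro g
      obtain ⟨c, hc⟩ := QuotientGroup.mk_out_eq_mul (centralizer ((N.map π :
        Subgroup (G ⧸ ds N l)) : Set (G ⧸ ds N l))) g
      change (QuotientGroup.mk g : (G ⧸ ds N l) ⧸ centralizer ((N.map π :
        Subgroup (G ⧸ ds N l)) : Set (G ⧸ ds N l))).out * t * _⁻¹ = g * t * g⁻¹
      rw [hc]
      have h1 := mem_centralizer_iff.1 c.2 t htN
      calc g * c * t * (g * c)⁻¹ = g * (c * t) * (c : G ⧸ ds N l)⁻¹ * g⁻¹ := by group
        _ = g * (t * c) * (c : G ⧸ ds N l)⁻¹ * g⁻¹ := by rw [h1]
        _ = g * t * g⁻¹ := by group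
    refine (Set.finite_range fun q : (G ⧸ ds N l) ⧸ centralizer ((N.map π :
        Subgroup (G ⧸ ds N l)) : Set (G ⧸ ds N l)) => q.out * t * q.out⁻¹).subset ?_
    rintro _ ⟨g, rfl⟩
    exact ⟨QuotientGroup.mk g, hwd g⟩
  have hlf : LFin (N.map π) := by
    refine lf_soluble (n := 5) (by norm_num) l _ ?_ fun x => Subtype.ext (h5' x)
    rw [← ds_sub, hds]
    exact bot_subgroupOf _
  have hfin : Finite (N.map π) := by
    have h1 : closure (Group.conjugatesOfSet (π '' T)) = N.map π := by
      rw [hNc]
      rfl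
    have hsub : Group.conjugatesOfSet (π '' T) ⊆ (N.map π : Set (G ⧸ ds N l)) := by
      rw [← h1]
      exact subset_closure
    have h2 := hlf (Subtype.val ⁻¹' Group.conjugatesOfSet (π '' T))
      (hconj.preimage Subtype.val_injective.injOn)
    have h3 : closure (Subtype.val ⁻¹' Group.conjugatesOfSet (π '' T) : Set (N.map π)) = ⊤ := by
      rw [eq_top_iff]
      rintro ⟨x, hx⟩ -
      have h4 : (closure (Subtype.val ⁻¹' Group.conjugatesOfSet (π '' T) : Set (N.map π))).map
          (N.map π).subtype = N.map π := by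
        rw [MonoidHom.map_closure]
        conv_rhs => rw [← h1]
        congr 1
        ext t
        constructor
        · rintro ⟨t, ht, rfl⟩
          exact ht
        · intro ht
          exact ⟨⟨t, hsub ht⟩, ht, rfl⟩
      have h5 := hx
      rw [← h4] at h5
      obtain ⟨y, hy, hyx⟩ := h5
      have : y = ⟨x, hx⟩ := Subtype.ext hyx
      rw [← this]
      exact hy
    rw [h3] at h2
    exact Finite.of_injective (fun k => (⟨k, trivial⟩ : (⊤ : Subgroup (N.map π))))
      fun x y hxy => congrArg Subtype.val hxy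
  rw [← ds_sub]
  have h1 : (ds N l).relIndex N ≠ 0 := by
    have h2 := relIndex_ker (K := N) π
    rw [QuotientGroup.ker_mk'] at h2
    rw [h2]
    exact Nat.card_pos.ne'
  have h2 : ((ds N l).subgroupOf N).FiniteIndex := ⟨h1⟩
  exact Subgroup.finite_quotient_of_finiteIndex

end

end Pool.Agent.Helper140_E5
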