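import Pool.Agent.Helper140_E5.SanT

/-!
# Cubic elements, and central commutators
-/

set_option autoImplicit false
set_option linter.deprecated false

namespace Pool.Agent.Helper140_E5

open Subgroup
open scoped commutatorElement

universe u

section
variable {A : Type u} [CommRing A]

theorem poly1 {S G : A} (h5 : (5 : A) = 0) (hS : S ^ 4 = 0) (hG : G ^ 4 = 0)
    (h1 : (G + S + S * G) ^ 4 = 0) (h2 : ((1 - S + S ^ 2 - S ^ 3) * (1 + G) - 1) ^ 4 = 0) :
    S ^ 2 * G ^ 2 = 0 := by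
  linear_combination ((-2) + (2) * G ^ 2) * h1 + ((-2) + (1) * G ^ 1) * h2 + ((4) + (39) * G ^ 1 + (114) * G ^ 2 + (92) * G ^ 3 + (-24) * G ^ 4 + (-39) * G ^ 5 + (-2) * G ^ 6 + (-8) * S ^ 1 + (-76) * S ^ 1 * G ^ 1 + (-176) * S ^ 1 * G ^ 2 + (-116) * S ^ 1 * G ^ 3 + (32) * S ^ 1 * G ^ 4 + (40) * S ^ 1 * G ^ 5 + (20) * S ^ 2 + (126) * S ^ 2 * G ^ 1 + (232) * S ^ 2 * G ^ 2 + (122) * S ^ 2 * G ^ 3 + (-48) * S ^ 2 * G ^ 4 + (-44) * S ^ 2 * G ^ 5 + (-32) * S ^ 3 + (-160) * S ^ 3 * G ^ 1 + (-248) * S ^ 3 * G ^ 2 + (-104) * S ^ 3 * G ^ 3 + (56) * S ^ 3 * G ^ 4 + (40) * S ^ 3 * G ^ 5 + (38) * S ^ 4 + (157) * S ^ 4 * G ^ 1 + (212) * S ^ 4 * G ^ 2 + (74) * S ^ 4 * G ^ 3 + (-50) * S ^ 4 * G ^ 4 + (-31) * S ^ 4 * G ^ 5 + (-32) * S ^ 5 + (-120) * S ^ 5 * G ^ 1 + (-148) * S ^ 5 * G ^ 2 + (-44) * S ^ 5 * G ^ 3 + (36) * S ^ 5 * G ^ 4 + (20) * S ^ 5 * G ^ 5 + (20) * S ^ 6 + (70) * S ^ 6 * G ^ 1 + (80) * S ^ 6 * G ^ 2 + (20) * S ^ 6 * G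 ^ 3 + (-20) * S ^ 6 * G ^ 4 + (-10) * S ^ 6 * G ^ 5 + (-8) * S ^ 7 + (-28) * S ^ 7 * G ^ 1 + (-32) * S ^ 7 * G ^ 2 + (-8) * S ^ 7 * G ^ 3 + (8) * S ^ 7 * G ^ 4 + (4) * S ^ 7 * G ^ 5 + (2) * S ^ 8 + (7) * S ^ 8 * G ^ 1 + (8) * S ^ 8 * G ^ 2 + (2) * S ^ 8 * G ^ 3 + (-2) * S ^ 8 * G ^ 4 + (-1) * S ^ 8 * G ^ 5) * hS + ((4) + (-1) * G ^ 1 + (-2) * G ^ 2 + (4) * S ^ 1 + (-4) * S ^ 1 * G ^ 1 + (-8) * S ^ 1 * G ^ 2 + (4) * S ^ 2 + (-34) * S ^ 2 * G ^ 1 + (-12) * S ^ 2 * G ^ 2 + (-16) * S ^ 3 + (-4) * S ^ 3 * G ^ 1 + (-8) * S ^ 3 * G ^ 2) * hG + ((5) * S ^ 2 * G ^ 2 + (10) * S ^ 2 * G ^ 3 + (-4) * S ^ 3 * G ^ 2 + (-8) * S ^ 3 * G ^ 3) * h5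

theorem poly2 {S G : A} (h5 : (5 : A) = 0) (hS : S ^ 3 = 0) (hG : G ^ 3 = 0)
    (h1 : (G + S + S * G) ^ 4 = 0) : S ^ 2 * G ^ 2 = 0 := by
  linear_combination ((1)) * h1 + ((-4) * G ^ 1 + (-12) * G ^ 2 + (-12) * G ^ 3 + (-4) * G ^ 4 + (-1) * S ^ 1 + (-4) * S ^ 1 * G ^ 1 + (-6) * S ^ 1 * G ^ 2 + (-4) * S ^ 1 * G ^ 3 + (-1) * S ^ 1 * G ^ 4) * hS + ((-1) * G ^ 1 + (-4) * S ^ 1 + (-4) * S ^ 1 * G ^ 1 + (-12) * S ^ 2 + (-6) * S ^ 2 * G ^ 1) * hG + ((-1) * S ^ 2 * G ^ 2) * h5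

theorem poly3 {S G : A} (h5 : (5 : A) = 0) (hS : S ^ 4 = 0) (hG : G ^ 4 = 0)
    (h1 : (G + S + S * G) ^ 4 = 0) : S ^ 3 * G ^ 3 = 0 := by
  linear_combination ((-1) * G ^ 2) * h1 + ((1) * G ^ 2 + (4) * G ^ 3 + (6) * G ^ 4 + (4) * G ^ 5 + (1) * G ^ 6) * hS + ((1) * G ^ 2 + (4) * S ^ 1 * G ^ 1 + (4) * S ^ 1 * G ^ 2 + (6) * S ^ 2 + (12) * S ^ 2 * G ^ 1 + (6) * S ^ 2 * G ^ 2 + (12) * S ^ 3 + (12) * S ^ 3 * G ^ 1 + (4) * S ^ 3 * G ^ 2) * hG + ((1) * S ^ 3 * G ^ 3) * h5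

end

variable {R : Type u} [Ring R]

/-- commuting elements lie in the image of a commutative ring -/
theorem comm_lift (a b : R) (h : a * b = b * a) : ∃ (A : Type u) (_ : CommRing A) (f : A →+* R)
    (x y : A), Function.Injective f ∧ f x = a ∧ f y = b := by
  have hc : ∀ x ∈ ({a, b} : Set R), ∀ y ∈ ({a, b} : Set R), x * y = y * x := by
    rintro x (rfl | hx) y (rfl | hy)
    · rfl
    · rw [Set.mem_singleton_iff] at hy; subst hy; exact h
    · rw [Set.mem_singleton_iff] at hx; subst hx; exact h.symm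
    · rw [Set.mem_singleton_iff] at hx hy; subst hx; subst hy; rfl
  letI : CommRing (Subring.closure ({a, b} : Set R)) := Subring.closureCommRingOfComm hc
  refine ⟨Subring.closure ({a, b} : Set R), inferInstance, (Subring.closure ({a, b} : Set R)).subtype,
    ⟨a, Subring.subset_closure (by simp)⟩, ⟨b, Subring.subset_closure (by simp)⟩,
    Subtype.val_injective, rfl, rfl⟩

theorem npoly1 {S G : R} (hc : S * G = G * S) (h5 : (5 : R) = 0) (hS : S ^ 4 = 0)
    (hG : G ^ 4 = 0) (h1 : (G + S + S * G) ^ 4 = 0)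
    (h2 : ((1 - S + S ^ 2 - S ^ 3) * (1 + G) - 1) ^ 4 = 0) : S ^ 2 * G ^ 2 = 0 := by
  obtain ⟨A, _, f, x, y, hf, rfl, rfl⟩ := comm_lift S G hc
  have key := poly1 (S := x) (G := y) (hf (by rw [map_ofNat, map_zero]; exact h5)) (hf (by simpa using hS))
    (hf (by simpa using hG)) (hf (by simpa using h1)) (hf (by simpa using h2))
  rw [← map_pow, ← map_pow, ← map_mul, key, map_zero]

theorem npoly2 {S G : R} (hc : S * G = G * S) (h5 : (5 : R) = 0) (hS : S ^ 3 = 0)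
    (hG : G ^ 3 = 0) (h1 : (G + S + S * G) ^ 4 = 0) : S ^ 2 * G ^ 2 = 0 := by
  obtain ⟨A, _, f, x, y, hf, rfl, rfl⟩ := comm_lift S G hc
  have key := poly2 (S := x) (G := y) (hf (by rw [map_ofNat, map_zero]; exact h5)) (hf (by simpa using hS))
    (hf (by simpa using hG)) (hf (by simpa using h1))
  rw [← map_pow, ← map_pow, ← map_mul, key, map_zero]

theorem npoly3 {S G : R} (hc : S * G = G * S) (h5 : (5 : R) = 0) (hS : S ^ 4 = 0)
    (hG : G ^ 4 = 0) (h1 : (G + S + S * G) ^ 4 = 0) : S ^ 3 * G ^ 3 = 0 := by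
  obtain ⟨A, _, f, x, y, hf, rfl, rfl⟩ := comm_lift S G hc
  have key := poly3 (S := x) (G := y) (hf (by rw [map_ofNat, map_zero]; exact h5)) (hf (by simpa using hS))
    (hf (by simpa using hG)) (hf (by simpa using h1))
  rw [← map_pow, ← map_pow, ← map_mul, key, map_zero]

section
variable {E : Subgroup Rˣ}

theorem comm_conj {c : Rˣ} {y : Rˣ} (h : ⁅⁅y, c⁆, c⁆ = 1) :
    ((c : R) - 1) * (y * ((c : R) - 1) * ((y⁻¹ : Rˣ) : R)) =
      (y * ((c : R) - 1) * ((y⁻¹ : Rˣ) : R)) * ((c : R) - 1) := by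
  rw [comm_comm y c, commutatorElement_eq_one_iff_mul_comm, Units.ext_iff,
    Units.val_mul (y * c * y⁻¹) c, Units.val_mul c,
    conj_val (P := (c : R) - 1) (by abel) y] at h
  set V : R := y * ((c : R) - 1) * ((y⁻¹ : Rˣ) : R)
  have : ((c : R) - 1) * V - V * ((c : R) - 1) = (c : R) * (1 + V) - (1 + V) * (c : R) := by
    noncomm_ring
  rw [← h, sub_self, sub_eq_zero] at this
  exact this

theorem conj_pow' (y : Rˣ) (U : R) (n : ℕ) : (y * U * ((y⁻¹ : Rˣ) : R)) ^ n =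
    y * U ^ n * ((y⁻¹ : Rˣ) : R) := by
  induction n with
  | zero => simp
  | succ n ih =>
    rw [pow_succ, ih, pow_succ]
    have : (y : R) * U ^ n * ((y⁻¹ : Rˣ) : R) * (y * U * ((y⁻¹ : Rˣ) : R)) =
      y * U ^ n * (((y⁻¹ : Rˣ) : R) * y) * U * ((y⁻¹ : Rˣ) : R) := by simp only [mul_assoc]
    rw [this, Units.inv_mul, mul_one]
    simp only [mul_assoc]

theorem law_conj (H : Uni E) {c : Rˣ} (hc : c ∈ E) {y : Rˣ} (hy : y ∈ E) :
    ((y * ((c : R) - 1) * ((y⁻¹ : Rˣ) : R)) + ((c : R) - 1) +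
      ((c : R) - 1) * (y * ((c : R) - 1) * ((y⁻¹ : Rˣ) : R))) ^ 4 = 0 := by
  have h1 := H.law (c * (y * c * y⁻¹)) (mul_mem hc (mul_mem (mul_mem hy hc) (inv_mem hy)))
  rw [Units.val_mul c, conj_val (P := (c : R) - 1) (by abel) y] at h1
  rw [← h1]
  congr 1
  noncomm_ring

/-- Cubic elements in semiprime rings are trivial. -/
theorem cubic_trivial (H : Uni E) (sp : Sp E) {c : Rˣ} (hc : c ∈ E)
    (h3 : ((c : R) - 1) ^ 3 = 0) : c = 1 := by
  refine quad_trivial H sp hc ?_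
  rw [← pow_two]
  refine sp _ fun y hy => ?_
  have h1 : ⁅⁅y, c⁆, c⁆ = 1 := by
    refine quad_trivial H sp ?_ (cubic_comm H hc hy h3)
    rw [comm_comm, commutatorElement_def]
    have : y * c * y⁻¹ ∈ E := mul_mem (mul_mem hy hc) (inv_mem hy)
    exact mul_mem (mul_mem (mul_mem this hc) (inv_mem this)) (inv_mem hc)
  have h2 := comm_conj h1
  set U : R := (c : R) - 1
  have h4 : (y * U * ((y⁻¹ : Rˣ) : R)) ^ 3 = 0 := by rw [conj_pow', h3, mul_zero, zero_mul]
  have h5 := npoly2 h2 H.five h3 h4 (law_conj H hc hy)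
  rw [conj_pow'] at h5
  have : U ^ 2 * (y : R) * U ^ 2 = U ^ 2 * (y * U ^ 2 * ((y⁻¹ : Rˣ) : R)) * y := by
    have : U ^ 2 * (y * U ^ 2 * ((y⁻¹ : Rˣ) : R)) * y =
      U ^ 2 * (y * U ^ 2 * (((y⁻¹ : Rˣ) : R) * y)) := by simp only [mul_assoc]
    rw [this, Units.inv_mul, mul_one, mul_assoc]
  rw [this, h5, zero_mul]

/-- If `c` commutes with all its conjugates then `c = 1`. -/
theorem comm_trivial (H : Uni E) (sp : Sp E) {c : Rˣ} (hc : c ∈ E)
    (h : ∀ y ∈ E, ⁅⁅y, c⁆, c⁆ = 1) : c = 1 := by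
  refine cubic_trivial H sp hc ?_
  refine sp _ fun y hy => ?_
  have h2 := comm_conj (h y hy)
  have h3 := H.law c hc
  set U : R := (c : R) - 1
  have h4 : (y * U * ((y⁻¹ : Rˣ) : R)) ^ 4 = 0 := by rw [conj_pow', h3, mul_zero, zero_mul]
  have h5 := npoly3 h2 H.five h3 h4 (law_conj H hc hy)
  rw [conj_pow'] at h5
  have : U ^ 3 * (y : R) * U ^ 3 = U ^ 3 * (y * U ^ 3 * ((y⁻¹ : Rˣ) : R)) * y := by
    have : U ^ 3 * (y * U ^ 3 * ((y⁻¹ : Rˣ) : R)) * y =
      U ^ 3 * (y * U ^ 3 * (((y⁻¹ : Rˣ) : R) * y)) := by simp only [mul_assoc]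
    rw [this, Units.inv_mul, mul_one, mul_assoc]
  rw [this, h5, zero_mul]

/-- `S ^ 2 (g - 1) ^ 2 = 0` for commuting elements. -/
theorem sq_sq (H : Uni E) {s g : Rˣ} (hs : s ∈ E) (hg : g ∈ E) (hc : s * g = g * s) :
    ((s : R) - 1) ^ 2 * ((g : R) - 1) ^ 2 = 0 := by
  have hc' : ((s : R) - 1) * ((g : R) - 1) = ((g : R) - 1) * ((s : R) - 1) := by
    have h1 : (s : R) * g = g * s := by rw [← Units.val_mul, hc, Units.val_mul]
    have : ((s : R) - 1) * ((g : R) - 1) - ((g : R) - 1) * ((s : R) - 1) =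
      (s : R) * g - g * s := by noncomm_ring
    rw [h1, sub_self, sub_eq_zero] at this
    exact this
  have hs4 := H.law s hs
  refine npoly1 hc' H.five hs4 (H.law g hg) ?_ ?_
  · have h1 := H.law (s * g) (mul_mem hs hg)
    rw [Units.val_mul] at h1
    rw [← h1]
    congr 1
    noncomm_ring
  · have h1 := H.law (s⁻¹ * g) (mul_mem (inv_mem hs) hg)
    have h2 : ((s⁻¹ : Rˣ) : R) = 1 - ((s : R) - 1) + ((s : R) - 1) ^ 2 - ((s : R) - 1) ^ 3 := by
      rw [← Units.mul_right_inj s, Units.mul_inv]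
      have : (s : R) * (1 - ((s : R) - 1) + ((s : R) - 1) ^ 2 - ((s : R) - 1) ^ 3) =
        1 - ((s : R) - 1) ^ 4 := by noncomm_ring
      rw [this, hs4, sub_zero]
    rw [Units.val_mul, h2] at h1
    have e : (1 + ((g : R) - 1)) = g := by abel
    rw [e]
    exact h1

/-- A commutator `s = [u, h, h]` commuting with `u` and `h` is cubic. -/
theorem cub3 (H : Uni E) {u h s : Rˣ} (hu : u ∈ E) (hh : h ∈ E) (hs : s = ⁅⁅u, h⁆, h⁆)
    (su : s * u = u * s) (sh : s * h = h * s) : ((s : R) - 1) ^ 3 = 0 := by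
  have hv : ⁅u, h⁆ ∈ E := by
    rw [commutatorElement_def]
    exact mul_mem (mul_mem (mul_mem hu hh) (inv_mem hu)) (inv_mem hh)
  have hsE : s ∈ E := by
    rw [hs, commutatorElement_def]
    exact mul_mem (mul_mem (mul_mem hv hh) (inv_mem hv)) (inv_mem hh)
  have k1 := sq_sq H hsE hu su
  have k2 := sq_sq H hsE hh sh
  have k3 := sq_sq H hsE (mul_mem hu hh) (show s * (u * h) = u * h * s by
    rw [← mul_assoc, su, mul_assoc, sh, mul_assoc])
  have ju : ((s : R) - 1) ^ 2 * ((u : R) - 1) = ((u : R) - 1) * ((s : R) - 1) ^ 2 := by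
    have h1 : (s : R) * u = u * s := by rw [← Units.val_mul, su, Units.val_mul]
    have h2 : Commute ((s : R) - 1) ((u : R) - 1) := by
      have : ((s : R) - 1) * ((u : R) - 1) - ((u : R) - 1) * ((s : R) - 1) =
        (s : R) * u - u * s := by noncomm_ring
      rw [h1, sub_self, sub_eq_zero] at this
      exact this
    exact (h2.pow_left 2).eq
  have jh : ((s : R) - 1) ^ 2 * ((h : R) - 1) = ((h : R) - 1) * ((s : R) - 1) ^ 2 := by
    have h1 : (s : R) * h = h * s := by rw [← Units.val_mul, sh, Units.val_mul]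
    have h2 : Commute ((s : R) - 1) ((h : R) - 1) := by
      have : ((s : R) - 1) * ((h : R) - 1) - ((h : R) - 1) * ((s : R) - 1) =
        (s : R) * h - h * s := by noncomm_ring
      rw [h1, sub_self, sub_eq_zero] at this
      exact this
    exact (h2.pow_left 2).eq
  rw [Units.val_mul] at k3
  set J : R := ((s : R) - 1) ^ 2 with hJ
  have eu : (u : R) = 1 + ((u : R) - 1) := by abel
  have eh : (h : R) = 1 + ((h : R) - 1) := by abel
  set U : R := (u : R) - 1 with hU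
  set K : R := (h : R) - 1 with hK
  rw [pow_two] at k1 k2
  have uu' : ∀ z, U * (J * (U * z)) = 0 := fun z => by
    have : U * (J * (U * z)) = U * J * U * z := by simp only [mul_assoc]
    rw [this, ← ju, mul_assoc J U U, k1, zero_mul]
  -- words
  have wUU : ∀ z, J * (U * (U * z)) = 0 := fun z => by
    have : J * (U * (U * z)) = J * (U * U) * z := by simp only [mul_assoc]
    rw [this, k1, zero_mul]
  have wKK : ∀ z, J * (K * (K * z)) = 0 := fun z => by
    have : J * (K * (K * z)) = J * (K * K) * z := by simp only [mul_assoc]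
    rw [this, k2, zero_mul]
  have k3' : J * (U * K) + J * (K * U) + J * (U * (K * U)) + J * (K * (U * K)) +
      J * (U * (K * (U * K))) = 0 := by
    have e : J * ((u : R) * h - 1) ^ 2 = J * (U * K) + J * (K * U) + J * (U * (K * U)) +
        J * (K * (U * K)) + J * (U * (K * (U * K))) + J * (U * U) + J * (K * K) +
        J * (U * (U * K)) + U * (J * (K * K)) := by
      rw [eu, eh, pow_two]
      have : U * (J * (K * K)) = J * (U * (K * K)) := by
        rw [← mul_assoc, ← ju, mul_assoc]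
      rw [this]
      noncomm_ring
    rw [k3, k1, k2, wUU, mul_zero, add_zero, add_zero, add_zero, add_zero] at e
    exact e.symm
  -- `J U K U = 0`
  have a1 : J * (U * (K * U)) = 0 := by
    have e : U * (J * (U * K) + J * (K * U) + J * (U * (K * U)) + J * (K * (U * K)) +
      J * (U * (K * (U * K)))) = J * (U * (K * U)) * h := by
      have c1 : ∀ z, U * (J * z) = J * (U * z) := fun z => by
        rw [← mul_assoc, ← ju, mul_assoc]
      rw [eh]
      simp only [mul_add, c1, wUU, add_zero, zero_add, mul_one, mul_assoc]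
    rw [k3', mul_zero] at e
    exact (Units.mul_left_eq_zero h).1 e.symm
  have a2 : J * (K * (U * K)) = 0 := by
    have e : (J * (U * K) + J * (K * U) + J * (U * (K * U)) + J * (K * (U * K)) +
      J * (U * (K * (U * K)))) * K = u * (J * (K * (U * K))) := by
      have c1 : ∀ z, U * (J * z) = J * (U * z) := fun z => by
        rw [← mul_assoc, ← ju, mul_assoc]
      have c2 : ∀ z, J * (U * (K * (K * z))) = 0 := fun z => by
        rw [← c1, wKK, mul_zero]
      have c3 : J * (U * (K * K)) = 0 := by rw [← c1, k2, mul_zero]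
      have c4 : J * (K * (U * (K * K))) = 0 := by
        have : K * (J * (U * (K * K))) = J * (K * (U * (K * K))) := by
          rw [← mul_assoc, ← jh, mul_assoc]
        rw [← this, c3, mul_zero]
      have c5 : J * (U * (K * (U * (K * K)))) = 0 := by rw [← c1, c4, mul_zero]
      rw [eu]
      simp only [add_mul, one_mul, c1, c3, c4, c5, add_zero, zero_add, mul_assoc]
    rw [k3', zero_mul] at e
    exact (Units.mul_right_eq_zero u).1 e.symm
  have a3 : J * (K * U) = -(J * (U * K)) := by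
    have : J * (U * (K * (U * K))) = 0 := by
      have : J * (U * (K * (U * K))) = J * (U * (K * U)) * K := by simp only [mul_assoc]
      rw [this, a1, zero_mul]
    rw [a1, a2, this, add_zero, add_zero, add_zero] at k3'
    rw [eq_neg_iff_add_eq_zero, add_comm]
    exact k3'
  -- the commutator `v`
  set v : Rˣ := ⁅u, h⁆ with hvd
  have e1 : v * (h * u) = u * h := by
    rw [hvd, commutatorElement_def]
    group
  have e2 : J * ((v : R) - 1) * ((h * u : Rˣ) : R) = 2 * (J * (U * K)) := by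
    have : J * ((v : R) - 1) * ((h * u : Rˣ) : R) = J * ((v * (h * u) : Rˣ) : R) -
      J * ((h * u : Rˣ) : R) := by
      rw [Units.val_mul v]
      noncomm_ring
    rw [this, e1, Units.val_mul, Units.val_mul, eu, eh]
    have : J * ((1 + U) * (1 + K)) - J * ((1 + K) * (1 + U)) = J * (U * K) - J * (K * U) := by
      noncomm_ring
    rw [this, a3]
    noncomm_ring
  have e3 : 2 * (J * (U * K)) * ((h * u : Rˣ) : R) = 2 * (J * (U * K)) := by
    have c1 : ∀ z, U * (J * z) = J * (U * z) := fun z => by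
      rw [← mul_assoc, ← ju, mul_assoc]
    have c2 : ∀ z, J * (U * (K * (K * z))) = 0 := fun z => by
      rw [← c1, wKK, mul_zero]
    have c3 : J * (U * (K * K)) = 0 := by rw [← c1, k2, mul_zero]
    rw [Units.val_mul, eu, eh]
    have : 2 * (J * (U * K)) * ((1 + K) * (1 + U)) = 2 * (J * (U * K) + J * (U * (K * U)) +
      J * (U * (K * K)) + J * (U * (K * (K * U)))) := by noncomm_ring
    rw [this, a1, c2, c3, add_zero, add_zero, add_zero]
  have e4 : J * ((v : R) - 1) = 2 * (J * (U * K)) := by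
    have : J * ((v : R) - 1) * ((h * u : Rˣ) : R) =
        2 * (J * (U * K)) * ((h * u : Rˣ) : R) := by rw [e2, e3]
    exact (Units.mul_left_inj _).1 this
  have e5 : s * (h * v) = v * h := by
    rw [hs, commutatorElement_def]
    group
  have e6 : J * ((s : R) - 1) * ((h * v : Rˣ) : R) = 0 := by
    have : J * ((s : R) - 1) * ((h * v : Rˣ) : R) = J * ((s * (h * v) : Rˣ) : R) -
      J * ((h * v : Rˣ) : R) := by
      rw [Units.val_mul s]
      noncomm_ring
    rw [this, e5, Units.val_mul, Units.val_mul]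
    have e7 : J * ((v : R) * h) - J * (h * v) = J * ((v : R) - 1) * K - K * (J * ((v : R) - 1)) := by
      have : K * (J * ((v : R) - 1)) = J * (K * ((v : R) - 1)) := by
        rw [← mul_assoc, ← jh, mul_assoc]
      rw [this, hK]
      noncomm_ring
    have c3 : J * (U * (K * K)) = 0 := by
      have : U * (J * (K * K)) = J * (U * (K * K)) := by rw [← mul_assoc, ← ju, mul_assoc]
      rw [← this, k2, mul_zero]
    have c4 : K * (J * (U * K)) = 0 := by
      rw [← mul_assoc, ← jh, mul_assoc, a2]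
    rw [e7, e4]
    have : 2 * (J * (U * K)) * K - K * (2 * (J * (U * K))) = 2 * (J * (U * (K * K))) -
      2 * (K * (J * (U * K))) := by noncomm_ring
    rw [this, c3, c4]
    simp
  have e8 := (Units.mul_left_eq_zero _).1 e6
  rw [pow_succ]
  exact e8

end

end Pool.Agent.Helper140_E5
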