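import Pool.Agent.Helper140_E5.Bd

/-!
# The ring `F_5[F_d] / ((h - 1) ^ 4)`; collected statements
-/

set_option autoImplicit false

namespace Pool.Agent.Helper140_E5

open Subgroup
open scoped commutatorElement

universe u v

/-- the relations `(h - 1) ^ 4 = 0` -/
def RelA (d : ℕ) (a b : MonoidAlgebra (ZMod 5) (FreeGroup (Fin d))) : Prop :=
  ∃ h : FreeGroup (Fin d), a = (MonoidAlgebra.of (ZMod 5) (FreeGroup (Fin d)) h - 1) ^ 4 ∧ b = 0

/-- the ring homomorphism onto the quotient, restricted to the free group -/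
noncomputable def toA (d : ℕ) : FreeGroup (Fin d) →* RingQuot (RelA d) :=
  (RingQuot.mkRingHom (RelA d) : MonoidAlgebra (ZMod 5) (FreeGroup (Fin d)) →*
    RingQuot (RelA d)).comp (MonoidAlgebra.of (ZMod 5) (FreeGroup (Fin d)))

theorem toA_span (d : ℕ) : AddSubgroup.closure (Set.range (toA d)) = ⊤ := by
  rw [eq_top_iff]
  rintro r -
  obtain ⟨a, rfl⟩ := RingQuot.mkRingHom_surjective (RelA d) r
  induction a using MonoidAlgebra.induction_on with
  | of g => exact AddSubgroup.subset_closure ⟨g, rfl⟩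
  | add a b ha hb =>
    rw [map_add]
    exact add_mem ha hb
  | smul c a ha =>
    have : c • a = c.val • a := by
      rw [← Nat.cast_smul_eq_nsmul (ZMod 5), ZMod.natCast_zmod_val]
    rw [this, map_nsmul]
    exact nsmul_mem ha _

theorem ringA (d : ℕ) : Finite (RingQuot (RelA d)) ∧
    ∃ n, ∀ l : List (FreeGroup (Fin d)), l.length = n → (l.map fun h => toA d h - 1).prod = 0 := by
  refine ring_main (Set.finite_range _) (free_top d) (toA d) (toA_span d) ?_ ?_
  · have h1 : (5 : MonoidAlgebra (ZMod 5) (FreeGroup (Fin d))) = 0 := by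
      have h2 : (5 : ZMod 5) = 0 := rfl
      have := map_ofNat (algebraMap (ZMod 5) (MonoidAlgebra (ZMod 5) (FreeGroup (Fin d)))) 5
      rw [← this]
      change algebraMap (ZMod 5) _ (5 : ZMod 5) = 0
      rw [h2, map_zero]
    have := congrArg (RingQuot.mkRingHom (RelA d)) h1
    rw [map_zero] at this
    rw [← this]
    exact (map_ofNat (RingQuot.mkRingHom (RelA d)) 5).symm
  · intro h
    have := RingQuot.mkRingHom_rel (r := RelA d) ⟨h, rfl, rfl⟩
    rw [map_zero, map_pow, map_sub, map_one] at this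
    exact this

theorem exists_ds {G : Type u} [Group G] {N : Subgroup G} (l : ℕ)
    (h : derivedSeries N l = ⊥) : ds N l = ⊥ := by
  rw [← ds_eq, h, Subgroup.map_bot]

theorem sol_all (d l : ℕ) : ∃ k m : ℕ, ∀ (G : Type u) [Group G] (a : Fin d → G) (N : Subgroup G),
    (∀ x : G, x ^ 5 = 1) → N.Normal → derivedSeries N l = ⊥ →
    (∀ n ∈ N, ∀ w : List G, (∀ g ∈ w, g ∈ closure (Set.range a)) → w.length = k →
      lnc n w = 1) ∧
    (centralizer (N : Set G)).relIndex (closure (Set.range a)) ≠ 0 ∧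
    (centralizer (N : Set G)).relIndex (closure (Set.range a)) ≤ m ∧
    (closure (Set.range a) = ⊤ → N ≤ Subgroup.upperCentralSeries G k) := by
  obtain ⟨k, hk⟩ := sol_unif.{u} d l
  obtain ⟨m, hm⟩ := sol_index.{u} d l
  refine ⟨k, m, fun G _ a N h5 hN hl => ?_⟩
  have hl' := exists_ds l hl
  have h1 := hk G a N h5 hN hl'
  refine ⟨h1, sol_lfq h5 l N hN hl' _ (Set.finite_range a), hm G a N h5 hN hl', ?_⟩
  intro ha n hn
  refine mem_ucs k n fun w hw => h1 n hn w ?_ hw
  intro g _
  rw [ha]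
  trivial

theorem nc_all (d r l : ℕ) : ∃ m : ℕ, ∀ (G : Type u) [Group G] (a : Fin d → G) (t : Fin r → G),
    (∀ x : G, x ^ 5 = 1) → closure (Set.range a) = ⊤ →
    Finite (normalClosure (Set.range t) ⧸ derivedSeries (normalClosure (Set.range t)) l) ∧
    Nat.card (normalClosure (Set.range t) ⧸ derivedSeries (normalClosure (Set.range t)) l) ≤ m := by
  obtain ⟨m, hm⟩ := nc_card.{u} d r l
  refine ⟨m, fun G _ a t h5 ha => ⟨?_, hm G a t h5 ha⟩⟩
  exact nc_der h5 (Set.finite_range a) ha (Set.finite_range t) l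

end Pool.Agent.Helper140_E5
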