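import Mathlib

/-!
# Locally finite groups: extensions, soluble torsion groups
-/

set_option autoImplicit false

namespace Pool.Agent.Helper140_E5

open Subgroup
open scoped commutatorElement

universe u v

/-- locally finite groups -/
def LFin (G : Type u) [Group G] : Prop := ∀ S : Set G, S.Finite → Finite (closure S)

theorem LFin.inj {G : Type u} {H : Type v} [Group G] [Group H] (f : G →* H)
    (hf : Function.Injective f) (h : LFin H) : LFin G := by
  intro S hS
  have h1 := h (f '' S) (hS.image _)
  rw [← MonoidHom.map_closure] at h1
  exact Finite.of_injective (fun x : closure S => (⟨f x, x, x.2, rfl⟩ : (closure S).map f))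
    fun x y hxy => Subtype.ext (hf (congrArg Subtype.val hxy))

theorem LFin.surj {G : Type u} {H : Type v} [Group G] [Group H] (f : G →* H)
    (hf : Function.Surjective f) (h : LFin G) : LFin H := by
  intro S hS
  choose g hg using hf
  have h1 := h (g '' S) (hS.image _)
  have h2 : closure S = (closure (g '' S)).map f := by
    rw [MonoidHom.map_closure, ← Set.image_comp]
    congr 1
    ext x
    constructor
    · intro hx
      exact ⟨x, hx, hg x⟩
    · rintro ⟨y, hy, rfl⟩
      change f (g y) ∈ S
      rw [hg]
      exact hy
  rw [h2]
  exact Finite.of_surjective (fun x : closure (g '' S) => (⟨f x, x, x.2, rfl⟩ :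
    (closure (g '' S)).map f)) (by
      rintro ⟨_, x, hx, rfl⟩
      exact ⟨⟨x, hx⟩, rfl⟩)

/-- A homomorphism with locally finite kernel and range. -/
theorem schmidt {G : Type u} {K : Type v} [Group G] [Group K] (f : G →* K)
    (hk : LFin f.ker) (hr : LFin f.range) : LFin G := by
  classical
  intro S hS
  set H := closure S with hH
  set g : H →* f.range := (f.rangeRestrict).comp H.subtype with hg
  have h1 : Finite g.range := by
    have h0 := hr (f.rangeRestrict '' S) (hS.image _)
    have e : g.range = closure (f.rangeRestrict '' S) := by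
      rw [hg, MonoidHom.range_comp, Subgroup.range_subtype, hH, MonoidHom.map_closure]
    rw [e]
    exact h0
  have h2 : g.ker.FiniteIndex := Subgroup.finiteIndex_ker g
  have h3 : Group.FG H := by
    rw [Group.fg_iff_subgroup_fg]
    exact ⟨hS.toFinset, by rw [Set.Finite.coe_toFinset]⟩
  have h4 : Group.FG g.ker := Subgroup.fg_of_index_ne_zero g.ker
  have hmem : ∀ k : g.ker, ((k : H) : G) ∈ f.ker := by
    intro k
    exact congrArg Subtype.val (show g (k : H) = 1 from k.2)
  set j : g.ker →* f.ker := { toFun := fun k => ⟨((k : H) : G), hmem k⟩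
                              map_one' := rfl
                              map_mul' := fun _ _ => rfl } with hj
  have hinj : Function.Injective j := by
    intro x y hxy
    exact Subtype.ext (Subtype.ext (congrArg (fun z : f.ker => (z : G)) hxy))
  obtain ⟨T, hT⟩ := h4.out
  have h5 := LFin.inj j hinj hk T T.finite_toSet
  rw [hT] at h5
  have h10 : Finite g.ker := Finite.of_injective (fun k => (⟨k, trivial⟩ : (⊤ : Subgroup g.ker)))
    fun x y hxy => congrArg Subtype.val hxy
  have h11 : Finite (H ⧸ g.ker) := Subgroup.finite_quotient_of_finiteIndex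
  exact Finite.of_equiv _ (Subgroup.groupEquivQuotientProdSubgroup (s := g.ker)).symm

/-- abelian groups of exponent dividing `n` -/
theorem lf_comm {G : Type u} [Group G] (hc : ∀ x y : G, x * y = y * x) {n : ℕ} (hn : 0 < n)
    (h : ∀ x : G, x ^ n = 1) : LFin G := by
  intro S hS
  let K : Subgroup G := closure S
  let _ : CommGroup K := { (inferInstance : Group K) with
    mul_comm := fun x y => Subtype.ext (hc x y) }
  have h3 : Group.FG K := by
    rw [Group.fg_iff_subgroup_fg]
    exact ⟨hS.toFinset, by rw [Set.Finite.coe_toFinset]⟩
  refine CommGroup.finite_of_fg_isMulTorsion K ?_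
  intro x
  exact isOfFinOrder_iff_pow_eq_one.2 ⟨n, hn, Subtype.ext (h x)⟩

theorem lf_soluble {n : ℕ} (hn : 0 < n) (k : ℕ) : ∀ (G : Type u) [Group G],
    derivedSeries G k = ⊥ → (∀ x : G, x ^ n = 1) → LFin G := by
  induction k with
  | zero =>
    intro G _ hk _ S _
    rw [derivedSeries_zero] at hk
    have : Subsingleton G := ⟨fun a b => by
      have ha : a ∈ (⊤ : Subgroup G) := trivial
      have hb : b ∈ (⊤ : Subgroup G) := trivial
      rw [hk, mem_bot] at ha hb
      rw [ha, hb]⟩
    infer_instance
  | succ k ih =>
    intro G _ hk hG
    have : (derivedSeries G k).Normal := derivedSeries_normal G k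
    refine schmidt (QuotientGroup.mk' (derivedSeries G k)) ?_ ?_
    · rw [QuotientGroup.ker_mk']
      refine lf_comm ?_ hn fun x => Subtype.ext (hG x)
      intro x y
      refine Subtype.ext ?_
      have : ⁅(x : G), (y : G)⁆ ∈ derivedSeries G (k + 1) := by
        rw [derivedSeries_succ]
        exact commutator_mem_commutator x.2 y.2
      rw [hk, mem_bot] at this
      exact commutatorElement_eq_one_iff_mul_comm.1 this
    · have h2 := ih (G ⧸ derivedSeries G k) (by
        rw [← map_derivedSeries_eq (QuotientGroup.mk'_surjective (derivedSeries G k)) k]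
        exact QuotientGroup.map_mk'_self _) (fun x => by
          obtain ⟨g, rfl⟩ := QuotientGroup.mk_surjective x
          rw [← QuotientGroup.mk_pow, hG, QuotientGroup.mk_one])
      exact LFin.inj (MonoidHom.range _).subtype (Subgroup.subtype_injective _) h2

end Pool.Agent.Helper140_E5
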