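import Pool.Agent.Helper140_E5.Uf
import Pool.Agent.Helper140_E5.Lf

/-!
# Abelian normal sections of groups as modules
-/

set_option autoImplicit false

namespace Pool.Agent.Helper140_E5

open Subgroup
open scoped commutatorElement

universe u v

/-- the left-normed commutator `[x, g₁, …, g_k]` -/
def lnc {G : Type u} [Group G] (x : G) (l : List G) : G := l.foldl (fun a g => ⁅a, g⁆) x

theorem lnc_nil {G : Type u} [Group G] (x : G) : lnc x [] = x := rfl

theorem lnc_cons {G : Type u} [Group G] (x g : G) (l : List G) :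
    lnc x (g :: l) = lnc ⁅x, g⁆ l := rfl

theorem lnc_append {G : Type u} [Group G] (x : G) (l m : List G) :
    lnc x (l ++ m) = lnc (lnc x l) m := by
  rw [lnc, List.foldl_append]
  rfl

theorem lnc_one {G : Type u} [Group G] (l : List G) : lnc (1 : G) l = 1 := by
  induction l with
  | nil => rfl
  | cons g l ih => rw [lnc_cons, commutatorElement_one_left, ih]

theorem lnc_map {G : Type u} {K : Type v} [Group G] [Group K] (f : G →* K) (x : G) (l : List G) :
    lnc (f x) (l.map f) = f (lnc x l) := by
  induction l generalizing x with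
  | nil => rfl
  | cons g l ih => rw [List.map_cons, lnc_cons, lnc_cons, ← map_commutatorElement, ih]

section
variable {G : Type u} [Group G]

/-- an abelian normal subgroup as an additive group -/
def NV (N : Subgroup G) (_ : ∀ x ∈ N, ∀ y ∈ N, x * y = y * x) : Type u := Additive N

instance nvAdd (N : Subgroup G) (hab : ∀ x ∈ N, ∀ y ∈ N, x * y = y * x) :
    AddCommGroup (NV N hab) :=
  { (inferInstance : AddGroup (Additive N)) with
    add_comm := fun x y => by
      change Additive N at x y
      exact congrArg Additive.ofMul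
        (Subtype.ext (hab _ (Additive.toMul x).2 _ (Additive.toMul y).2)) }

variable {N : Subgroup G} {hab : ∀ x ∈ N, ∀ y ∈ N, x * y = y * x}

/-- the element of `G` -/
def tN (v : NV N hab) : G := ((Additive.toMul (v : Additive N) : N) : G)

/-- the element of the additive group -/
def fN {x : G} (hx : x ∈ N) : NV N hab := Additive.ofMul (⟨x, hx⟩ : N)

theorem tN_fN {x : G} (hx : x ∈ N) : tN (fN (hab := hab) hx) = x := rfl

theorem tN_mem (v : NV N hab) : tN v ∈ N := (Additive.toMul (v : Additive N) : N).2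

theorem tN_inj {v w : NV N hab} (h : tN v = tN w) : v = w :=
  congrArg Additive.ofMul (Subtype.ext h : (Additive.toMul (v : Additive N) : N) =
    Additive.toMul (w : Additive N))

theorem tN_add (v w : NV N hab) : tN (v + w) = tN v * tN w := rfl

theorem tN_zero : tN (0 : NV N hab) = 1 := rfl

theorem tN_neg (v : NV N hab) : tN (-v) = (tN v)⁻¹ := rfl

theorem tN_sub (v w : NV N hab) : tN (v - w) = tN v * (tN w)⁻¹ := by
  rw [sub_eq_add_neg, tN_add, tN_neg]

theorem tN_nsmul (n : ℕ) (v : NV N hab) : tN (n • v) = tN v ^ n := by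
  induction n with
  | zero => rw [zero_nsmul, tN_zero, pow_zero]
  | succ n ih => rw [succ_nsmul, tN_add, ih, pow_succ]

/-- conjugation -/
def cj (hN : N.Normal) (hab : ∀ x ∈ N, ∀ y ∈ N, x * y = y * x) : G →* AddMonoid.End (NV N hab) where
  toFun g :=
    { toFun := fun v => fN (hN.conj_mem _ (tN_mem v) g)
      map_zero' := tN_inj (by
        rw [tN_fN, tN_zero, mul_one, mul_inv_cancel])
      map_add' := fun v w => tN_inj (by
        rw [tN_fN, tN_add, tN_add, tN_fN, tN_fN]
        group) }
  map_one' := by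
    refine AddMonoidHom.ext fun v => tN_inj ?_
    change 1 * tN v * 1⁻¹ = tN v
    simp
  map_mul' g h := by
    refine AddMonoidHom.ext fun v => tN_inj ?_
    change (g * h) * tN v * (g * h)⁻¹ = g * (h * tN v * h⁻¹) * g⁻¹
    group

theorem tN_cj (hN : N.Normal) (g : G) (v : NV N hab) : tN (cj hN hab g v) = g * tN v * g⁻¹ := rfl

theorem cj_act (hN : N.Normal) {P : Type v} [Group P] (f : P →* G)
    (law : ∀ n ∈ N, ∀ p : P, (n * f p) ^ 5 = f p ^ 5) : Act5 ((cj hN hab).comp f) := by
  constructor
  · intro v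
    refine tN_inj ?_
    have := law _ (tN_mem v) 1
    rw [map_one, mul_one, one_pow] at this
    rw [tN_nsmul, tN_zero, this]
  · intro p v
    refine tN_inj ?_
    have := law _ (tN_mem v) p
    change tN v * tN (cj hN hab (f p) v) * tN (cj hN hab (f (p ^ 2)) v) *
      tN (cj hN hab (f (p ^ 3)) v) * tN (cj hN hab (f (p ^ 4)) v) = 1
    rw [map_pow f, map_pow f, map_pow f]
    simp only [tN_cj]
    set x := tN v
    set g := f p
    have e : x * (g * x * g⁻¹) * (g ^ 2 * x * (g ^ 2)⁻¹) * (g ^ 3 * x * (g ^ 3)⁻¹) *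
      (g ^ 4 * x * (g ^ 4)⁻¹) * g ^ 5 = (x * g) ^ 5 := by
      simp only [pow_succ, pow_zero, one_mul, mul_inv_rev, mul_assoc, inv_mul_cancel_left]
    rw [this] at e
    exact mul_eq_right.1 e

/-- commutators in terms of the action -/
theorem lnc_cj (hN : N.Normal) (v : NV N hab) (l : List G) :
    lnc (tN v) l = tN ((l.reverse.map fun g => 1 - cj hN hab g).prod v) := by
  induction l generalizing v with
  | nil => rfl
  | cons g l ih =>
    have e : ⁅tN v, g⁆ = tN ((1 - cj hN hab g) v) := by
      change _ = tN (v - cj hN hab g v)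
      rw [tN_sub, tN_cj, commutatorElement_def]
      group
    rw [lnc_cons, e, ih, List.reverse_cons, List.map_append, List.prod_append, List.map_cons,
      List.map_nil, List.prod_singleton]
    rfl

theorem prod_neg {R : Type v} [Ring R] {P : Type u} (φ : P → R) (l : List P)
    (h : (l.map fun x => φ x - 1).prod = 0) : (l.map fun x => 1 - φ x).prod = 0 := by
  have : (l.map fun x => 1 - φ x).prod = (l.map fun x => φ x - 1).prod ∨
      (l.map fun x => 1 - φ x).prod = -(l.map fun x => φ x - 1).prod := by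
    clear h
    induction l with
    | nil => exact Or.inl rfl
    | cons x l ih =>
      rw [List.map_cons, List.prod_cons, List.map_cons, List.prod_cons]
      rcases ih with ih | ih
      · right
        rw [ih]
        noncomm_ring
      · left
        rw [ih]
        noncomm_ring
  rcases this with e | e
  · rw [e, h]
  · rw [e, h, neg_zero]

end

/-- the centraliser of the section `N / M` -/
def Cs {G : Type u} [Group G] (M N : Subgroup G) [M.Normal] : Subgroup G :=
  (centralizer ((N.map (QuotientGroup.mk' M) : Subgroup (G ⧸ M)) : Set (G ⧸ M))).comap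
    (QuotientGroup.mk' M)

theorem mem_Cs {G : Type u} [Group G] {M N : Subgroup G} [M.Normal] {g : G} :
    g ∈ Cs M N ↔ ∀ n ∈ N, ⁅n, g⁆ ∈ M := by
  rw [Cs, mem_comap, mem_centralizer_iff]
  constructor
  · intro h n hn
    have := h (QuotientGroup.mk' M n) ⟨n, hn, rfl⟩
    rw [← commutatorElement_eq_one_iff_mul_comm, ← map_commutatorElement] at this
    exact (QuotientGroup.eq_one_iff _).1 this
  · rintro h _ ⟨n, hn, rfl⟩
    rw [← commutatorElement_eq_one_iff_mul_comm, ← map_commutatorElement]
    exact (QuotientGroup.eq_one_iff _).2 (h n hn)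

/-- abelian normal subgroups -/
theorem grp_ab (d : ℕ) : ∃ k m : ℕ, ∀ (G : Type u) [Group G] (a : Fin d → G) (N : Subgroup G),
    N.Normal → (∀ x ∈ N, ∀ y ∈ N, x * y = y * x) →
    (∀ n ∈ N, ∀ g ∈ closure (Set.range a), (n * g) ^ 5 = g ^ 5) →
    (∀ n ∈ N, ∀ l : List G, (∀ g ∈ l, g ∈ closure (Set.range a)) → l.length = k → lnc n l = 1) ∧
    (centralizer (N : Set G)).relIndex (closure (Set.range a)) ≠ 0 ∧
    (centralizer (N : Set G)).relIndex (closure (Set.range a)) ≤ m := by
  obtain ⟨k, m, h⟩ := unif.{u} d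
  refine ⟨k, m, fun G _ a N hN hab law => ?_⟩
  set f : FreeGroup (Fin d) →* G := FreeGroup.lift a with hf
  have hfr : f.range = closure (Set.range a) := FreeGroup.range_lift_eq_closure
  have hact : Act5 ((cj hN hab).comp f) := cj_act hN f fun n hn p => law n hn _ (by
    rw [← hfr]
    exact ⟨p, rfl⟩)
  obtain ⟨h1, h2, h3⟩ := h (NV N hab) ((cj hN hab).comp f) hact
  constructor
  · intro n hn l hl hlk
    have hch : ∀ g ∈ l, ∃ p, f p = g := by
      intro g hg
      have := hl g hg
      rw [← hfr] at this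
      exact this
    obtain ⟨l', rfl⟩ : ∃ l' : List (FreeGroup (Fin d)), l'.map f = l := by
      choose! c hc using hch
      refine ⟨l.map c, ?_⟩
      rw [List.map_map]
      have : ∀ g ∈ l, (f ∘ c) g = id g := fun g hg => hc g hg
      rw [List.map_congr_left this, List.map_id]
    rw [← tN_fN (hab := hab) hn, lnc_cj hN, ← List.map_reverse, List.map_map]
    have h4 := prod_neg _ _ (h3 l'.reverse (by simpa using hlk))
    have h5 : (l'.reverse.map ((fun g => 1 - cj hN hab g) ∘ f)).prod = 0 := h4
    rw [h5]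
    rfl
  · have hker : ((cj hN hab).toHomUnits).ker = centralizer (N : Set G) := by
      ext g
      rw [MonoidHom.mem_ker, mem_centralizer_iff]
      constructor
      · intro hg n hn
        have h4 : cj hN hab g = 1 := congrArg Units.val hg
        have h5 := congrArg (fun φ : AddMonoid.End (NV N hab) => tN (φ (fN hn))) h4
        change g * n * g⁻¹ = n at h5
        exact (mul_inv_eq_iff_eq_mul.1 h5).symm
      · intro hg
        refine Units.ext ?_
        refine AddMonoidHom.ext fun v => tN_inj ?_
        change g * tN v * g⁻¹ = tN v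
        rw [← hg _ (tN_mem v), mul_inv_cancel_right]
    rw [← hker, relIndex_ker, ← hfr]
    have h6 : Nat.card (f.range.map (cj hN hab).toHomUnits) =
        (Set.range ((cj hN hab).comp f)).ncard := by
      have e : Units.val '' ((f.range.map (cj hN hab).toHomUnits : Subgroup _) :
          Set (AddMonoid.End (NV N hab))ˣ) = Set.range ((cj hN hab).comp f) := by
        ext φ
        constructor
        · rintro ⟨_, ⟨_, ⟨p, rfl⟩, rfl⟩, rfl⟩
          exact ⟨p, rfl⟩
        · rintro ⟨p, rfl⟩
          exact ⟨_, ⟨_, ⟨p, rfl⟩, rfl⟩, rfl⟩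
      rw [← e, Set.ncard_image_of_injective _ Units.val_injective]
      rfl
    rw [h6]
    refine ⟨?_, h2⟩
    rw [← Nat.pos_iff_ne_zero, Set.ncard_pos h1]
    exact Set.range_nonempty _

/-- abelian normal sections -/
theorem grp_sec (d : ℕ) : ∃ k m : ℕ, ∀ (G : Type u) [Group G] (a : Fin d → G) (M N : Subgroup G)
    [M.Normal] [N.Normal], ⁅N, N⁆ ≤ M →
    (∀ n ∈ N, ∀ g ∈ closure (Set.range a), (n * g) ^ 5 * (g ^ 5)⁻¹ ∈ M) →
    (∀ n ∈ N, ∀ l : List G, (∀ g ∈ l, g ∈ closure (Set.range a)) → l.length = k → lnc n l ∈ M) ∧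
    (Cs M N).relIndex (closure (Set.range a)) ≠ 0 ∧
    (Cs M N).relIndex (closure (Set.range a)) ≤ m := by
  obtain ⟨k, m, h⟩ := grp_ab.{u} d
  refine ⟨k, m, fun G _ a M N _ hN hab law => ?_⟩
  set π := QuotientGroup.mk' M with hπ
  have hcl : closure (Set.range (π ∘ a)) = (closure (Set.range a)).map π := by
    rw [Set.range_comp, MonoidHom.map_closure]
  obtain ⟨h1, h2, h3⟩ := h (G ⧸ M) (π ∘ a) (N.map π)
    (hN.map π (QuotientGroup.mk'_surjective M)) (by
      rintro _ ⟨x, hx, rfl⟩ _ ⟨y, hy, rfl⟩
      rw [← commutatorElement_eq_one_iff_mul_comm, ← map_commutatorElement]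
      exact (QuotientGroup.eq_one_iff _).2 (hab (commutator_mem_commutator hx hy))) (by
      rw [hcl]
      rintro _ ⟨n, hn, rfl⟩ _ ⟨g, hg, rfl⟩
      have := (QuotientGroup.eq_one_iff _).2 (law n hn g hg)
      change π ((n * g) ^ 5 * (g ^ 5)⁻¹) = 1 at this
      rw [map_mul, map_inv, mul_inv_eq_one, map_pow, map_pow, map_mul] at this
      exact this)
  refine ⟨?_, ?_, ?_⟩
  · intro n hn l hl hlk
    have := h1 (π n) ⟨n, hn, rfl⟩ (l.map π) (by
      intro g hg
      obtain ⟨g, hg', rfl⟩ := List.mem_map.1 hg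
      rw [hcl]
      exact ⟨g, hl g hg', rfl⟩) (by simpa using hlk)
    rw [lnc_map] at this
    exact (QuotientGroup.eq_one_iff _).1 this
  · rw [Cs, relIndex_comap, ← hcl]
    exact h2
  · rw [Cs, relIndex_comap, ← hcl]
    exact h3

end Pool.Agent.Helper140_E5
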