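import Pool.Agent.Helper140_E5.Lfq

/-!
# Hypoabelian normal subgroups of groups of exponent five: bounds that do not depend on a length
-/

set_option autoImplicit false

namespace Pool.Agent.Helper140_E5

open Subgroup
open scoped commutatorElement

universe u v

section
variable {G : Type u} [Group G]

theorem ds_mono {M N : Subgroup G} (h : M ≤ N) : ∀ k, ds M k ≤ ds N k
  | 0 => h
  | k + 1 => commutator_mono (ds_mono h k) (ds_mono h k)

theorem comm_self_le (K : Subgroup G) : ⁅K, K⁆ ≤ K := by
  rw [commutator_le]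
  intro x hx y hy
  rw [commutatorElement_def]
  exact mul_mem (mul_mem (mul_mem hx hy) (inv_mem hx)) (inv_mem hy)

theorem ds_add (N : Subgroup G) (i : ℕ) : ∀ j, ds (ds N i) j = ds N (i + j)
  | 0 => rfl
  | j + 1 => by
    rw [ds, ds_add N i j]
    rfl

theorem ds_anti (N : Subgroup G) {i j : ℕ} (h : i ≤ j) : ds N j ≤ ds N i := by
  obtain ⟨c, rfl⟩ := Nat.exists_eq_add_of_le h
  induction c with
  | zero => exact le_rfl
  | succ c ih => exact (comm_self_le _).trans (ih (by omega))

/-- finite groups of exponent `5` -/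
theorem p_der (m : ℕ) : ∀ (Q : Type u) [Group Q], Finite Q → (∀ x : Q, x ^ 5 = 1) →
    Nat.card Q ≤ m → derivedSeries Q m = ⊥ := by
  induction m with
  | zero =>
    intro Q _ _ _ h
    have : 0 < Nat.card Q := Nat.card_pos
    omega
  | succ m ih =>
    intro Q _ _ h5 h
    rcases subsingleton_or_nontrivial Q with hQ | hQ
    · exact Subsingleton.elim _ _
    · have hp : IsPGroup 5 Q := fun x => ⟨1, by rw [pow_one, h5]⟩
      have : Fact (Nat.Prime 5) := ⟨by norm_num⟩
      have hn : Group.IsNilpotent Q := hp.isNilpotent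
      have hs : Group.IsSolvable Q := inferInstance
      have hlt : _root_.commutator Q < ⊤ := by
        exact Group.IsSolvable.commutator_lt_top_of_nontrivial Q
      have hc : Nat.card (_root_.commutator Q) < Nat.card Q := by
        have h1 := Subgroup.card_le_card_group (_root_.commutator Q)
        refine lt_of_le_of_ne h1 fun h2 => hlt.ne ?_
        exact Subgroup.eq_top_of_card_eq _ h2
      have h1 := ih (_root_.commutator Q) inferInstance (fun x => Subtype.ext (h5 x)) (by omega)
      rw [← ds_top, ← ds_shift]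
      exact exists_ds m h1

/-- Normal subgroups of index at most `m` contain the `m`-th derived subgroup. -/
theorem der_le (h5 : ∀ x : G, x ^ 5 = 1) {C : Subgroup G} [hC : C.Normal] {m : ℕ}
    (h0 : C.index ≠ 0) (hm : C.index ≤ m) : derivedSeries G m ≤ C := by
  have hf : C.FiniteIndex := ⟨h0⟩
  have h1 : Finite (G ⧸ C) := Subgroup.finite_quotient_of_finiteIndex
  have h2 := p_der m (G ⧸ C) h1 (fun x => by
    obtain ⟨g, rfl⟩ := QuotientGroup.mk_surjective x
    rw [← QuotientGroup.mk_pow, h5, QuotientGroup.mk_one]) hm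
  rw [← map_derivedSeries_eq (QuotientGroup.mk'_surjective C) m] at h2
  rw [← QuotientGroup.ker_mk' C, ← Subgroup.map_eq_bot_iff]
  exact h2

/-- The derived length of soluble normal subgroups is bounded. -/
theorem dl_bound (d : ℕ) : ∃ s : ℕ, ∀ (G : Type u) [Group G] (a : Fin d → G) (N : Subgroup G),
    (∀ x : G, x ^ 5 = 1) → closure (Set.range a) = ⊤ → N.Normal → (∃ l, ds N l = ⊥) →
    ds N s = ⊥ := by
  classical
  obtain ⟨m, hm⟩ := sol_index.{u} d 2
  refine ⟨m + 1, fun G _ a N h5 ha hN hl => ?_⟩
  by_contra hne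
  set l := Nat.find hl with hldef
  have hl1 : ds N l = ⊥ := Nat.find_spec hl
  have hl2 : m + 2 ≤ l := by
    by_contra hcon
    refine hne (eq_bot_iff.2 ?_)
    rw [← hl1]
    exact ds_anti N (by omega)
  obtain ⟨j, hj⟩ := Nat.exists_eq_add_of_le' (show 2 ≤ l by omega)
  have hMn : (ds N j).Normal := ds_normal hN j
  have hM2 : ds (ds N j) 2 = ⊥ := by rw [ds_add, ← hj, hl1]
  have h1 := hm G a (ds N j) h5 hMn hM2
  have h0 := sol_lfq h5 2 (ds N j) hMn hM2 _ (Set.finite_range a)
  rw [ha, relIndex_top_right] at h0 h1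
  have hCn : (centralizer ((ds N j : Subgroup G) : Set G)).Normal := inferInstance
  have h2 := der_le h5 h0 h1
  have h3 : ds N j ≤ centralizer ((ds N j : Subgroup G) : Set G) := by
    refine (ds_anti N (show m ≤ j by omega)).trans ((ds_mono le_top m).trans ?_)
    rw [ds_top]
    exact h2
  have h4 : ds N (j + 1) = ⊥ := by
    rw [ds]
    exact commutator_eq_bot_iff_le_centralizer.2 h3
  exact Nat.find_min hl (show j + 1 < l by omega) h4

/-- The derived series of every normal subgroup of a `d`-generator group stops. -/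
theorem ds_stop (d : ℕ) : ∃ s : ℕ, ∀ (G : Type u) [Group G] (a : Fin d → G) (N : Subgroup G),
    (∀ x : G, x ^ 5 = 1) → closure (Set.range a) = ⊤ → N.Normal →
    ∀ j, ds N (s + j) = ds N s := by
  obtain ⟨s, hs⟩ := dl_bound.{u} d
  refine ⟨s, fun G _ a N h5 ha hN => ?_⟩
  have key : ds N (s + 1) = ds N s := by
    refine le_antisymm (ds_anti N (by omega)) ?_
    have hn : (ds N (s + 1)).Normal := ds_normal hN _
    set π := QuotientGroup.mk' (ds N (s + 1)) with hπ
    have hπs : Function.Surjective π := QuotientGroup.mk'_surjective _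
    have h1 := hs (G ⧸ ds N (s + 1)) (π ∘ a) (N.map π) (fun x => by
      obtain ⟨g, rfl⟩ := hπs x
      rw [← map_pow, h5, map_one]) (by
      rw [Set.range_comp, ← MonoidHom.map_closure, ha, ← MonoidHom.range_eq_map,
        MonoidHom.range_eq_top.2 hπs]) (hN.map π hπs) ⟨s + 1, by
        rw [← ds_map]
        exact QuotientGroup.map_mk'_self _⟩
    rw [← ds_map] at h1
    rw [Subgroup.map_eq_bot_iff, hπ, QuotientGroup.ker_mk'] at h1
    exact h1
  intro j
  induction j with
  | zero => rfl
  | succ j ih =>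
    rw [← key]
    change ⁅ds N (s + j), ds N (s + j)⁆ = ⁅ds N s, ds N s⁆
    rw [ih]

end

end Pool.Agent.Helper140_E5
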