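import Pool.Agent.Helper140_E5.Hyp

/-!
# Groups of exponent five: normal subgroups of finitely generated groups, perfect subgroups
-/

set_option autoImplicit false

namespace Pool.Agent.Helper140_E5

open Subgroup
open scoped commutatorElement

universe u v

theorem lnc_mem {G : Type u} [Group G] {N : Subgroup G} (hN : N.Normal) {x : G} (hx : x ∈ N) :
    ∀ w : List G, lnc x w ∈ N := by
  intro w
  induction w generalizing x with
  | nil => exact hx
  | cons g w ih =>
    refine ih ?_
    have : ⁅x, g⁆ = x * (g * x⁻¹ * g⁻¹) := by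
      rw [commutatorElement_def]
      group
    change ⁅x, g⁆ ∈ N
    rw [this]
    exact mul_mem hx (hN.conj_mem _ (inv_mem hx) g)

theorem mem_ucs_iff {G : Type u} [Group G] (k : ℕ) : ∀ n : G,
    n ∈ Subgroup.upperCentralSeries G k ↔ ∀ w : List G, w.length = k → lnc n w = 1 := by
  induction k with
  | zero =>
    intro n
    rw [Subgroup.upperCentralSeries_zero, mem_bot]
    constructor
    · rintro rfl w _
      exact lnc_one w
    · intro h
      exact h [] rfl
  | succ k ih =>
    intro n
    constructor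
    · intro h w hw
      rw [Subgroup.mem_upperCentralSeries_succ_iff] at h
      obtain ⟨g, w, rfl⟩ := List.exists_cons_of_length_eq_add_one hw
      rw [lnc_cons]
      exact (ih _).1 (h g) w (by simpa using hw)
    · exact mem_ucs (k + 1) n

/-- normal subgroups of `d`-generator groups -/
theorem nrm_all (d : ℕ) : ∃ k m : ℕ, ∀ (G : Type u) [Group G] (a : Fin d → G) (N : Subgroup G),
    (∀ x : G, x ^ 5 = 1) → closure (Set.range a) = ⊤ → N.Normal →
    (∀ j, ds N (k + j) = ds N k) ∧
    (∀ n ∈ N, ∀ w : List G, w.length = k → lnc n w ∈ ds N k) ∧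
    ∃ C : Subgroup G, (∀ g, g ∈ C ↔ ∀ n ∈ N, ⁅n, g⁆ ∈ ds N k) ∧ C.index ≠ 0 ∧ C.index ≤ m := by
  obtain ⟨s, hs⟩ := ds_stop.{u} d
  obtain ⟨k, hk⟩ := sol_unif.{u} d s
  obtain ⟨m, hm⟩ := sol_index.{u} d s
  refine ⟨s + k, m, fun G _ a N h5 ha hN => ?_⟩
  have h0 := hs G a N h5 ha hN
  have hn : (ds N s).Normal := ds_normal hN _
  set π := QuotientGroup.mk' (ds N s) with hπ
  have hπs : Function.Surjective π := QuotientGroup.mk'_surjective _
  have h5' : ∀ x : G ⧸ ds N s, x ^ 5 = 1 := by
    intro x
    obtain ⟨g, rfl⟩ := hπs x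
    rw [← map_pow, h5, map_one]
  have ha' : closure (Set.range (π ∘ a)) = ⊤ := by
    rw [Set.range_comp, ← MonoidHom.map_closure, ha, ← MonoidHom.range_eq_map,
        MonoidHom.range_eq_top.2 hπs]
  have hb : ds (N.map π) s = ⊥ := by
    rw [← ds_map]
    exact QuotientGroup.map_mk'_self _
  have hNm := hN.map π hπs
  rw [h0 k]
  refine ⟨fun j => by rw [Nat.add_assoc, h0], ?_, Cs (ds N s) N, fun g => mem_Cs, ?_, ?_⟩
  · intro n hn' w hw
    have e : w = w.take k ++ w.drop k := (List.take_append_drop _ _).symm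
    rw [e, lnc_append]
    refine lnc_mem hn ?_ _
    have := hk (G ⧸ ds N s) (π ∘ a) (N.map π) h5' hNm hb (π n) ⟨n, hn', rfl⟩
      ((w.take k).map π) (fun g _ => by rw [ha']; trivial) (by
        rw [List.length_map, List.length_take]
        omega)
    rw [lnc_map] at this
    exact (QuotientGroup.eq_one_iff _).1 this
  · have h1 := sol_lfq h5' s (N.map π) hNm hb _ (Set.finite_range (π ∘ a))
    rw [ha', relIndex_top_right] at h1
    rw [Cs, index_comap_of_surjective _ hπs]
    exact h1
  · have h1 := hm (G ⧸ ds N s) (π ∘ a) (N.map π) h5' hNm hb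
    rw [ha', relIndex_top_right] at h1
    rw [Cs, index_comap_of_surjective _ hπs]
    exact h1

/-- The restricted Burnside problem for exponent `5`. -/
theorem rbp (d : ℕ) : ∃ s m : ℕ, ∀ (G : Type u) [Group G] (a : Fin d → G),
    (∀ x : G, x ^ 5 = 1) → closure (Set.range a) = ⊤ →
    ⁅derivedSeries G s, derivedSeries G s⁆ = derivedSeries G s ∧
    (derivedSeries G s).index ≠ 0 ∧ (derivedSeries G s).index ≤ m ∧
    ∀ F : Subgroup G, F.index ≠ 0 → derivedSeries G s ≤ F := by
  obtain ⟨s, hs⟩ := ds_stop.{u} d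
  obtain ⟨m, hm⟩ := nc_all.{u} d d s
  refine ⟨s, m, fun G _ a h5 ha => ?_⟩
  have h0 := hs G a ⊤ h5 ha inferInstance
  obtain ⟨h1, h2⟩ := hm G a a h5 ha
  have hnc : normalClosure (Set.range a) = ⊤ := by
    rw [eq_top_iff, ← ha]
    exact closure_le_normalClosure
  rw [hnc] at h1 h2
  have h3 : (derivedSeries G s).index = Nat.card ((⊤ : Subgroup G) ⧸ derivedSeries
      (⊤ : Subgroup G) s) := by
    rw [card_ds, ds_top, relIndex_top_right]
  refine ⟨?_, ?_, ?_, ?_⟩
  · have := h0 1
    rw [ds_top, ds_top, derivedSeries_succ] at this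
    exact this
  · rw [h3]
    exact Nat.card_pos.ne'
  · rw [h3]
    exact h2
  · intro F hF
    have hFf : F.FiniteIndex := ⟨hF⟩
    have hc : F.normalCore.index ≠ 0 := Subgroup.FiniteIndex.index_ne_zero
    refine le_trans ?_ (normalCore_le F)
    have h4 := der_le h5 hc le_rfl
    have h5' : derivedSeries G s = ds (⊤ : Subgroup G) (s + F.normalCore.index) := by
      rw [h0, ds_top]
    rw [h5', ds_top]
    refine le_trans ?_ h4
    exact derivedSeries_antitone G (Nat.le_add_left _ _)

section
variable {G : Type u} [Group G]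

/-- Perfect groups commute with the finite terms of the upper central series. -/
theorem perf_ucs {P : Subgroup G} (hP : ⁅P, P⁆ = P) (k : ℕ) :
    ⁅Subgroup.upperCentralSeries G k, P⁆ = ⊥ := by
  induction k with
  | zero =>
    rw [Subgroup.upperCentralSeries_zero]
    exact commutator_bot_left P
  | succ k ih =>
    have h1 : ⁅Subgroup.upperCentralSeries G (k + 1), P⁆ ≤ Subgroup.upperCentralSeries G k := by
      rw [commutator_le]
      intro x hx y _
      rw [Subgroup.mem_upperCentralSeries_succ_iff] at hx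
      exact hx y
    have h2 : ⁅⁅Subgroup.upperCentralSeries G (k + 1), P⁆, P⁆ = ⊥ := by
      rw [eq_bot_iff, ← ih]
      exact commutator_mono h1 le_rfl
    have h3 : ⁅⁅P, Subgroup.upperCentralSeries G (k + 1)⁆, P⁆ = ⊥ := by
      rw [commutator_comm P]
      exact h2
    have h4 := commutator_commutator_eq_bot_of_rotate h3 h2
    rw [hP, commutator_comm] at h4
    exact h4

/-- finite groups of exponent `5` have no perfect subgroups -/
theorem perf_fin (h5 : ∀ x : G, x ^ 5 = 1) {P C : Subgroup G} (hP : ⁅P, P⁆ = P) [C.Normal]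
    (h0 : C.relIndex P ≠ 0) : P ≤ C := by
  have h1 := der_le (G := P) (fun x => Subtype.ext (h5 x)) (C := C.subgroupOf P) h0 le_rfl
  have h2 : ∀ j, ds P j = P := by
    intro j
    induction j with
    | zero => rfl
    | succ j ih => rw [ds, ih, hP]
  have h3 := h2 (C.subgroupOf P).index
  rw [← ds_eq] at h3
  rw [← h3]
  refine (map_mono h1).trans ?_
  rw [subgroupOf_map_subtype]
  exact inf_le_left

/-- `[N, P^G]` is perfect for every finitely generated perfect subgroup `P`. -/
theorem perf_comm (h5 : ∀ x : G, x ^ 5 = 1) (N : Subgroup G) [hN : N.Normal] {S : Set G}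
    (hS : S.Finite) (hP : ⁅closure S, closure S⁆ = closure S) :
    ⁅⁅N, normalClosure S⁆, ⁅N, normalClosure S⁆⁆ = ⁅N, normalClosure S⁆ := by
  set Q := normalClosure S with hQ
  have hQn : Q.Normal := normalClosure_normal
  set K := ⁅N, Q⁆ with hK
  have hKn : K.Normal := commutator_normal _ _
  have hK'n : (⁅K, K⁆ : Subgroup G).Normal := commutator_normal _ _
  refine le_antisymm (comm_self_le K) ?_
  have hSQ : closure S ≤ Q := closure_le_normalClosure
  -- `Q` is perfect
  have hQp : ⁅Q, Q⁆ = Q := by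
    refine le_antisymm (comm_self_le Q) ?_
    have : (⁅Q, Q⁆ : Subgroup G).Normal := commutator_normal _ _
    refine normalClosure_le_normal ?_
    intro s hs
    have h1 : s ∈ ⁅closure S, closure S⁆ := by
      rw [hP]
      exact subset_closure hs
    exact commutator_mono hSQ hSQ h1
  have h1 := (sec_fg h5 hS ⁅K, K⁆ K le_rfl).2
  have hCn : (Cs ⁅K, K⁆ K).Normal := by
    have : (K.map (QuotientGroup.mk' ⁅K, K⁆)).Normal :=
      hKn.map _ (QuotientGroup.mk'_surjective _)
    rw [Cs]
    infer_instance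
  have h2 : closure S ≤ Cs ⁅K, K⁆ K := perf_fin h5 hP h1
  have h3 : Q ≤ Cs ⁅K, K⁆ K := by
    refine normalClosure_le_normal ?_
    intro s hs
    exact h2 (subset_closure hs)
  have h4 : ⁅K, Q⁆ ≤ ⁅K, K⁆ := by
    rw [commutator_le]
    intro x hx y hy
    exact (mem_Cs.1 (h3 hy)) x hx
  set π := QuotientGroup.mk' ⁅K, K⁆ with hπ
  have h5 : ⁅⁅N.map π, Q.map π⁆, Q.map π⁆ = ⊥ := by
    rw [← map_commutator, ← map_commutator, Subgroup.map_eq_bot_iff, hπ, QuotientGroup.ker_mk']
    exact h4
  have h6 : ⁅⁅Q.map π, N.map π⁆, Q.map π⁆ = ⊥ := by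
    rw [commutator_comm (Q.map π)]
    exact h5
  have h7 := commutator_commutator_eq_bot_of_rotate h6 h5
  rw [← map_commutator, hQp, ← map_commutator, Subgroup.map_eq_bot_iff, hπ,
    QuotientGroup.ker_mk'] at h7
  exact (commutator_comm N Q).le.trans h7

end

end Pool.Agent.Helper140_E5
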