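import Pool.Agent.Helper140_E5.Hyp2

/-!
# Groups of exponent five: the radical of locally hypercentral elements
-/

set_option autoImplicit false

namespace Pool.Agent.Helper140_E5

open Subgroup
open scoped commutatorElement

universe u v

section
variable {G : Type u} [Group G]

theorem lift_list {L : Subgroup G} : ∀ w : List G, (∀ g ∈ w, g ∈ L) →
    ∃ w' : List L, w'.map L.subtype = w := by
  intro w
  induction w with
  | nil => exact fun _ => ⟨[], rfl⟩
  | cons g w ih =>
    intro h
    obtain ⟨w', hw'⟩ := ih fun g hg => h g (List.mem_cons_of_mem _ hg)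
    exact ⟨⟨g, h g List.mem_cons_self⟩ :: w', by rw [List.map_cons, hw']; rfl⟩

theorem ucs_sub_iff {L : Subgroup G} {x : G} (hx : x ∈ L) (k : ℕ) :
    (⟨x, hx⟩ : L) ∈ Subgroup.upperCentralSeries L k ↔
      ∀ w : List G, (∀ g ∈ w, g ∈ L) → w.length = k → lnc x w = 1 := by
  rw [mem_ucs_iff]
  constructor
  · intro h w hw hk
    obtain ⟨w', rfl⟩ := lift_list w hw
    have h1 := h w' (by simpa using hk)
    have h2 := lnc_map L.subtype ⟨x, hx⟩ w'
    rw [h1, map_one] at h2
    exact h2
  · intro h w hk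
    have h1 := h (w.map L.subtype) (by
      intro g hg
      obtain ⟨g, -, rfl⟩ := List.mem_map.1 hg
      exact g.2) (by simpa using hk)
    have h2 := lnc_map L.subtype ⟨x, hx⟩ w
    change lnc x (w.map L.subtype) = _ at h2
    rw [h1] at h2
    exact Subtype.ext h2.symm

/-- locally hypercentral elements -/
def LHC (x : G) : Prop := ∀ S : Set G, S.Finite → ∃ k, ∀ w : List G,
  (∀ g ∈ w, g ∈ closure S) → w.length = k → lnc x w = 1

theorem LHC.ucs {x : G} (h : LHC x) {T : Set G} (hT : T.Finite) (hx : x ∈ closure T) :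
    ∃ k, (⟨x, hx⟩ : closure T) ∈ Subgroup.upperCentralSeries (closure T) k := by
  obtain ⟨k, hk⟩ := h T hT
  exact ⟨k, (ucs_sub_iff hx k).2 hk⟩

theorem LHC.one : LHC (1 : G) := fun _ _ => ⟨0, fun w _ _ => lnc_one w⟩

theorem LHC.mul {x y : G} (hx : LHC x) (hy : LHC y) : LHC (x * y) := by
  intro S hS
  set T := insert x (insert y S) with hT
  have hTf : T.Finite := (hS.insert y).insert x
  have hxT : x ∈ closure T := subset_closure (Or.inl rfl)
  have hyT : y ∈ closure T := subset_closure (Or.inr (Or.inl rfl))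
  obtain ⟨j, hj⟩ := hx.ucs hTf hxT
  obtain ⟨k, hk⟩ := hy.ucs hTf hyT
  have h1 := mul_mem (Subgroup.upperCentralSeries_mono _ (le_max_left j k) hj)
    (Subgroup.upperCentralSeries_mono _ (le_max_right j k) hk)
  refine ⟨max j k, fun w hw hwk => (ucs_sub_iff (mul_mem hxT hyT) (max j k)).1 h1 w ?_ hwk⟩
  intro g hg
  exact closure_mono ((Set.subset_insert _ _).trans (Set.subset_insert _ _)) (hw g hg)

theorem LHC.inv {x : G} (hx : LHC x) : LHC x⁻¹ := by
  intro S hS
  set T := insert x S with hT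
  have hTf : T.Finite := hS.insert x
  have hxT : x ∈ closure T := subset_closure (Or.inl rfl)
  obtain ⟨j, hj⟩ := hx.ucs hTf hxT
  refine ⟨j, fun w hw hwk => (ucs_sub_iff (inv_mem hxT) j).1 (inv_mem hj) w ?_ hwk⟩
  intro g hg
  exact closure_mono (Set.subset_insert _ _) (hw g hg)

/-- the locally hypercentral elements -/
def Rad (G : Type u) [Group G] : Subgroup G where
  carrier := {x | LHC x}
  one_mem' := LHC.one
  mul_mem' := LHC.mul
  inv_mem' := LHC.inv

theorem mem_Rad {x : G} : x ∈ Rad G ↔ LHC x := Iff.rfl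

instance Rad_normal : (Rad G).Normal := by
  constructor
  intro x hx g S hS
  obtain ⟨k, hk⟩ := hx ((MulAut.conj g⁻¹).toMonoidHom '' S) (hS.image _)
  refine ⟨k, fun w hw hwk => ?_⟩
  have h1 := hk (w.map (MulAut.conj g⁻¹).toMonoidHom) (by
    intro y hy
    obtain ⟨y, hy', rfl⟩ := List.mem_map.1 hy
    rw [← MonoidHom.map_closure]
    exact ⟨y, hw y hy', rfl⟩) (by simpa using hwk)
  have h2 := lnc_map (MulAut.conj g).toMonoidHom x (w.map (MulAut.conj g⁻¹).toMonoidHom)
  rw [h1, map_one, List.map_map] at h2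
  have h3 : (⇑(MulAut.conj g).toMonoidHom ∘ ⇑(MulAut.conj g⁻¹).toMonoidHom) = id := by
    funext y
    change g * (g⁻¹ * y * g⁻¹⁻¹) * g⁻¹ = y
    group
  rw [h3, List.map_id] at h2
  exact h2

theorem ds_ucs (k : ℕ) : ds (Subgroup.upperCentralSeries G k) k = ⊥ := by
  induction k with
  | zero => exact Subgroup.upperCentralSeries_zero G
  | succ k ih =>
    rw [← ds_shift, eq_bot_iff, ← ih]
    refine ds_mono ?_ k
    rw [commutator_le]
    intro x hx y _
    rw [Subgroup.mem_upperCentralSeries_succ_iff] at hx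
    exact hx y

end

/-- The upper central series of a `d`-generator group stops. -/
theorem zk (d : ℕ) : ∃ k : ℕ, ∀ (G : Type u) [Group G] (a : Fin d → G),
    (∀ x : G, x ^ 5 = 1) → closure (Set.range a) = ⊤ →
    ∀ j, Subgroup.upperCentralSeries G j ≤ Subgroup.upperCentralSeries G k := by
  obtain ⟨s, hs⟩ := dl_bound.{u} d
  obtain ⟨k, hk⟩ := sol_unif.{u} d s
  refine ⟨k, fun G _ a h5 ha j => ?_⟩
  have hn : (Subgroup.upperCentralSeries G j).Normal := inferInstance
  have h1 := hs G a _ h5 ha hn ⟨j, ds_ucs j⟩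
  intro x hx
  refine mem_ucs k x fun w hw => hk G a _ h5 hn h1 x hx w (fun g _ => ?_) hw
  rw [ha]
  trivial

/-- generators of subgroups -/
theorem gen_sub {G : Type u} [Group G] {d : ℕ} (a : Fin d → G) :
    closure (Set.range fun i => (⟨a i, subset_closure ⟨i, rfl⟩⟩ : closure (Set.range a))) = ⊤ := by
  have h1 : (closure (Set.range fun i => (⟨a i, subset_closure ⟨i, rfl⟩⟩ :
      closure (Set.range a)))).map (closure (Set.range a)).subtype = closure (Set.range a) := by
    rw [MonoidHom.map_closure, ← Set.range_comp]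
    rfl
  rw [eq_top_iff]
  rintro ⟨x, hx⟩ -
  have hx' := hx
  rw [← h1] at hx'
  obtain ⟨y, hy, hyx⟩ := hx'
  have : y = ⟨x, hx⟩ := Subtype.ext hyx
  rw [← this]
  exact hy

/-- uniform bounds for locally hypercentral elements -/
theorem rad_unif (d : ℕ) : ∃ k : ℕ, ∀ (G : Type u) [Group G] (a : Fin d → G),
    (∀ x : G, x ^ 5 = 1) → ∀ x ∈ Rad G, ∀ w : List G, (∀ g ∈ w, g ∈ closure (Set.range a)) →
      w.length = k → lnc x w = 1 := by
  obtain ⟨k, hk⟩ := zk.{u} (d + 1)
  refine ⟨k, fun G _ a h5 x hx w hw hwk => ?_⟩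
  set b : Fin (d + 1) → G := Fin.cons x a with hb
  have hxb : x ∈ closure (Set.range b) := subset_closure ⟨0, rfl⟩
  obtain ⟨j, hj⟩ := (mem_Rad.1 hx).ucs (Set.finite_range b) hxb
  have h1 := hk (closure (Set.range b)) _ (fun y => Subtype.ext (h5 y)) (gen_sub b) j hj
  refine (ucs_sub_iff hxb k).1 h1 w ?_ hwk
  intro g hg
  refine closure_mono ?_ (hw g hg)
  rintro _ ⟨i, rfl⟩
  exact ⟨i.succ, rfl⟩

/-- The radical of a `d`-generator group is a term of the upper central series. -/
theorem rad_gen (d : ℕ) : ∃ k : ℕ, ∀ (G : Type u) [Group G] (a : Fin d → G),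
    (∀ x : G, x ^ 5 = 1) → closure (Set.range a) = ⊤ →
    ∀ j, k ≤ j → Rad G = Subgroup.upperCentralSeries G j := by
  obtain ⟨k, hk⟩ := zk.{u} d
  refine ⟨k, fun G _ a h5 ha j hj => ?_⟩
  refine le_antisymm ?_ ?_
  · intro x hx
    obtain ⟨i, hi⟩ := mem_Rad.1 hx (Set.range a) (Set.finite_range a)
    refine Subgroup.upperCentralSeries_mono G hj (hk G a h5 ha i ?_)
    refine mem_ucs i x fun w hw => hi w (fun g _ => ?_) hw
    rw [ha]
    trivial
  · intro x hx S _
    exact ⟨j, fun w _ hw => (mem_ucs_iff j x).1 hx w hw⟩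

section
variable {G : Type u} [Group G]

/-- the radical is locally finite -/
theorem rad_lf (h5 : ∀ x : G, x ^ 5 = 1) : LFin (Rad G) := by
  intro S hS
  set T : Set G := (Rad G).subtype '' S with hT
  have hTf : T.Finite := hS.image _
  have h1 : ∀ x ∈ T, LHC x := by
    rintro _ ⟨x, -, rfl⟩
    exact x.2
  have h2 : ∃ k, ∀ x (hx : x ∈ T), (⟨x, subset_closure hx⟩ : closure T) ∈
      Subgroup.upperCentralSeries (closure T) k := by
    have h3 : ∀ x : G, ∃ k, ∀ hx : x ∈ T, (⟨x, subset_closure hx⟩ : closure T) ∈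
        Subgroup.upperCentralSeries (closure T) k := by
      intro x
      by_cases hx : x ∈ T
      · obtain ⟨k, hk⟩ := (h1 x hx).ucs hTf (subset_closure hx)
        exact ⟨k, fun _ => hk⟩
      · exact ⟨0, fun h => absurd h hx⟩
    choose f hf using h3
    obtain ⟨b, hb⟩ := (hTf.image f).bddAbove
    exact ⟨b, fun x hx => Subgroup.upperCentralSeries_mono _ (hb ⟨x, hx, rfl⟩) (hf x hx)⟩
  obtain ⟨k, hk⟩ := h2
  have h4 : Subgroup.upperCentralSeries (closure T) k = ⊤ := by
    have h5 : (closure T : Subgroup G) ≤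
        (Subgroup.upperCentralSeries (closure T) k).map (closure T).subtype := by
      rw [closure_le]
      intro x hx
      exact ⟨⟨x, subset_closure hx⟩, hk x hx, rfl⟩
    rw [eq_top_iff]
    rintro ⟨x, hx⟩ -
    obtain ⟨y, hy, hyx⟩ := h5 hx
    have : y = ⟨x, hx⟩ := Subtype.ext hyx
    rw [← this]
    exact hy
  have h6 : derivedSeries (closure T) k = ⊥ := by
    rw [← ds_top, ← h4]
    exact ds_ucs k
  have h7 : LFin (closure T) := lf_soluble (n := 5) (by norm_num) k _ h6
    fun x => Subtype.ext (h5 x)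
  have h8 : Group.FG (closure T) := by
    rw [Group.fg_iff_subgroup_fg]
    exact ⟨hTf.toFinset, by rw [Set.Finite.coe_toFinset]⟩
  obtain ⟨U, hU⟩ := h8.out
  have h9 := h7 U U.finite_toSet
  rw [hU] at h9
  have h10 : Finite (closure T) := Finite.of_injective
    (fun k => (⟨k, trivial⟩ : (⊤ : Subgroup (closure T)))) fun x y hxy => congrArg Subtype.val hxy
  have h11 : closure T = (closure S).map (Rad G).subtype := by
    rw [MonoidHom.map_closure]
  rw [h11] at h10
  exact Finite.of_injective (fun x : closure S => (⟨x, x, x.2, rfl⟩ :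
    (closure S).map (Rad G).subtype)) fun x y hxy =>
      Subtype.ext (Subtype.ext (congrArg (fun z : (closure S).map (Rad G).subtype => (z : G)) hxy))

/-- hypoabelian normal subgroups -/
theorem hyp_rad (h5 : ∀ x : G, x ^ 5 = 1) {N : Subgroup G} (hN : N.Normal)
    (hyp : ∀ Q : Subgroup G, Q ≤ N → ⁅Q, Q⁆ = Q → Q = ⊥) : N ≤ Rad G := by
  intro n hn S hS
  obtain ⟨d, a, -, ha⟩ := (hS.insert n).fin_param
  have hnL : n ∈ closure (Set.range a) := by
    rw [ha]
    exact subset_closure (Set.mem_insert _ _)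
  obtain ⟨s, hs⟩ := ds_stop.{u} d
  obtain ⟨k, hk⟩ := sol_unif.{u} d s
  set L := closure (Set.range a) with hL
  have h5' : ∀ x : L, x ^ 5 = 1 := fun x => Subtype.ext (h5 x)
  have hNL : (N.subgroupOf L).Normal := inferInstance
  have h1 := hs L _ (N.subgroupOf L) h5' (gen_sub a) hNL 1
  have h2 : ds (N.subgroupOf L) s = ⊥ := by
    have h3 := hyp ((ds (N.subgroupOf L) s).map L.subtype) (by
      refine (map_mono (ds_anti _ (Nat.zero_le s))).trans ?_
      change (N.subgroupOf L).map L.subtype ≤ N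
      rw [subgroupOf_map_subtype]
      exact inf_le_left) (by
      rw [← map_commutator]
      exact congrArg _ h1)
    exact (map_eq_bot_iff_of_injective _ (Subgroup.subtype_injective L)).1 h3
  have h3 := hk L (fun i => ⟨a i, subset_closure ⟨i, rfl⟩⟩) (N.subgroupOf L) h5' hNL h2 ⟨n, hnL⟩
    (mem_subgroupOf.2 hn)
  refine ⟨k, fun w hw hwk => ?_⟩
  refine (ucs_sub_iff hnL k).1 (mem_ucs k _ fun w hw => h3 w (fun g _ => ?_) hw) w ?_ hwk
  · rw [gen_sub a]
    trivial
  · intro g hg
    rw [hL, ha]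
    exact closure_mono (Set.subset_insert _ _) (hw g hg)

/-- the radical of the quotient is trivial -/
theorem rad_quot (h5 : ∀ x : G, x ^ 5 = 1) : Rad (G ⧸ Rad G) = ⊥ := by
  rw [eq_bot_iff]
  intro x hx
  obtain ⟨x, rfl⟩ := QuotientGroup.mk'_surjective _ x
  rw [mem_bot]
  refine (QuotientGroup.eq_one_iff x).2 ?_
  intro S hS
  obtain ⟨d, a, -, ha⟩ := (hS.insert x).fin_param
  obtain ⟨j, hj⟩ := rad_unif.{u} d
  obtain ⟨k, hk⟩ := hx (QuotientGroup.mk' (Rad G) '' Set.range a)
    ((Set.finite_range a).image _)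
  refine ⟨k + j, fun w hw hwk => ?_⟩
  have hw' : ∀ g ∈ w, g ∈ closure (Set.range a) := by
    intro g hg
    rw [ha]
    exact closure_mono (Set.subset_insert _ _) (hw g hg)
  have e : w = w.take k ++ w.drop k := (List.take_append_drop _ _).symm
  rw [e, lnc_append]
  refine hj G a h5 _ ?_ _ (fun g hg => hw' g (List.mem_of_mem_drop hg)) (by
    rw [List.length_drop, hwk]
    omega)
  have h1 := hk ((w.take k).map (QuotientGroup.mk' (Rad G))) (by
    intro g hg
    obtain ⟨g, hg', rfl⟩ := List.mem_map.1 hg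
    rw [← MonoidHom.map_closure]
    exact ⟨g, hw' g (List.mem_of_mem_take hg'), rfl⟩) (by
    rw [List.length_map, List.length_take]
    omega)
  rw [lnc_map] at h1
  exact (QuotientGroup.eq_one_iff _).1 h1

/-- finitely generated perfect subgroups centralise the radical -/
theorem perf_rad {S : Set G} (hS : S.Finite) (hP : ⁅closure S, closure S⁆ = closure S) :
    closure S ≤ centralizer (Rad G : Set G) := by
  intro y hy
  rw [mem_centralizer_iff]
  intro x hx
  set T := insert x S with hT
  have hxT : x ∈ closure T := subset_closure (Or.inl rfl)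
  have hST : closure S ≤ closure T := closure_mono (Set.subset_insert _ _)
  obtain ⟨k, hk⟩ := LHC.ucs (mem_Rad.1 hx) (hS.insert x) hxT
  have h1 : ⁅(closure S).subgroupOf (closure T), (closure S).subgroupOf (closure T)⁆ =
      (closure S).subgroupOf (closure T) := by
    refine map_injective (Subgroup.subtype_injective (closure T)) ?_
    rw [map_commutator, subgroupOf_map_subtype, inf_eq_left.2 hST, hP]
  have h2 := perf_ucs h1 k
  have h3 : ⁅(⟨x, hxT⟩ : closure T), ⟨y, hST hy⟩⁆ ∈ (⊥ : Subgroup (closure T)) := by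
    rw [← h2]
    exact commutator_mem_commutator hk (mem_subgroupOf.2 hy)
  rw [mem_bot, commutatorElement_eq_one_iff_mul_comm] at h3
  exact congrArg Subtype.val h3

end

/-- the centraliser of the radical -/
theorem rad_cent (d : ℕ) : ∃ m : ℕ, ∀ (G : Type u) [Group G] (a : Fin d → G),
    (∀ x : G, x ^ 5 = 1) →
    (centralizer (Rad G : Set G)).relIndex (closure (Set.range a)) ≠ 0 ∧
    (centralizer (Rad G : Set G)).relIndex (closure (Set.range a)) ≤ m := by
  obtain ⟨s, m, h⟩ := rbp.{u} d
  refine ⟨m, fun G _ a h5 => ?_⟩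
  set H := closure (Set.range a) with hH
  obtain ⟨h1, h2, h3, -⟩ := h H _ (fun x => Subtype.ext (h5 x)) (gen_sub a)
  have h4 : (derivedSeries H s).FiniteIndex := ⟨h2⟩
  have h5 : Group.FG H := by
    rw [Group.fg_iff_subgroup_fg]
    exact ⟨(Set.finite_range a).toFinset, by rw [Set.Finite.coe_toFinset]⟩
  have h6 : Group.FG (derivedSeries H s) := Subgroup.fg_of_index_ne_zero _
  rw [Group.fg_iff_subgroup_fg] at h6
  obtain ⟨T, hT⟩ := h6
  have h7 : closure (H.subtype '' T) = (derivedSeries H s).map H.subtype := by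
    rw [← MonoidHom.map_closure, hT]
  have h8 : (derivedSeries H s).map H.subtype ≤ centralizer (Rad G : Set G) := by
    rw [← h7]
    refine perf_rad (T.finite_toSet.image _) ?_
    rw [h7, ← map_commutator, h1]
  have h9 : derivedSeries H s ≤ (centralizer (Rad G : Set G)).subgroupOf H :=
    (le_comap_map _ _).trans (comap_mono h8)
  constructor
  · exact (finiteIndex_of_le h9).index_ne_zero
  · exact (index_antitone h9).trans h3

/-- local finiteness criterion -/
theorem lf_crit' {G : Type u} [Group G] {C : Subgroup G} (hq : LFq C) (hC : LFin C) :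
    LFin G := by
  intro S hS
  obtain ⟨T, hT, hTc⟩ := fg_inf hS (hq S hS)
  have h1 : Finite (closure T) := by
    have hTC : T ⊆ (C : Set G) := by
      intro t ht
      have : t ∈ closure T := subset_closure ht
      rw [hTc] at this
      exact this.1
    have h2 := hC (Subtype.val ⁻¹' T) (hT.preimage Subtype.val_injective.injOn)
    have h3 : closure T = (closure (Subtype.val ⁻¹' T : Set C)).map C.subtype := by
      rw [MonoidHom.map_closure]
      congr 1
      ext t
      constructor
      · intro ht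
        exact ⟨⟨t, hTC ht⟩, ht, rfl⟩
      · rintro ⟨t, ht, rfl⟩
        exact ht
    rw [h3]
    exact Finite.of_surjective (fun x : closure (Subtype.val ⁻¹' T : Set C) =>
      (⟨_, x, x.2, rfl⟩ : (closure (Subtype.val ⁻¹' T : Set C)).map C.subtype)) (by
        rintro ⟨_, x, hx, rfl⟩
        exact ⟨⟨x, hx⟩, rfl⟩)
  rw [hTc] at h1
  have h2 : (C ⊓ closure S).relIndex (closure S) ≠ 0 := by
    rw [inf_relIndex_right]
    exact hq S hS
  set A := C ⊓ closure S with hA
  have h3 : (A.subgroupOf (closure S)).FiniteIndex := ⟨h2⟩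
  have h4 : Finite (A.subgroupOf (closure S)) :=
    Finite.of_injective (fun x => (⟨(x : closure S), x.2⟩ : A)) (by
      intro x y hxy
      exact Subtype.ext (Subtype.ext (congrArg (fun z : A => (z : G)) hxy)))
  have h5 : Finite (closure S ⧸ A.subgroupOf (closure S)) :=
    Subgroup.finite_quotient_of_finiteIndex
  exact Finite.of_equiv _ (Subgroup.groupEquivQuotientProdSubgroup
    (s := A.subgroupOf (closure S))).symm

theorem rad_lfq {G : Type u} [Group G] (h5 : ∀ x : G, x ^ 5 = 1) :
    LFq (centralizer (Rad G : Set G)) := by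
  intro S hS
  obtain ⟨d, a, -, rfl⟩ := hS.fin_param
  obtain ⟨m, h⟩ := rad_cent.{u} d
  exact (h G a h5).1

end Pool.Agent.Helper140_E5
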