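import Pool.Agent.Helper140_E5.Hyp3

/-!
# Groups of exponent five: collected statements on the radical
-/

set_option autoImplicit false

namespace Pool.Agent.Helper140_E5

open Subgroup
open scoped commutatorElement

universe u v

/-- minimal normal subgroups inside the radical are central -/
theorem min_rad {G : Type u} [Group G] {N : Subgroup G} (hN : N.Normal) (hR : N ≤ Rad G)
    (hmin : ∀ L : Subgroup G, L.Normal → L ≤ N → L = ⊥ ∨ L = N) : N ≤ center G := by
  intro n hn
  rw [mem_center_iff]
  intro g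
  by_contra hcon
  have hne : ⁅n, g⁆ ≠ 1 := by
    intro h
    exact hcon (commutatorElement_eq_one_iff_mul_comm.1 h).symm
  have hcm : ⁅n, g⁆ ∈ N := by
    have : ⁅n, g⁆ = n * (g * n⁻¹ * g⁻¹) := by
      rw [commutatorElement_def]
      group
    rw [this]
    exact mul_mem hn (hN.conj_mem _ (inv_mem hn) g)
  have hnc : normalClosure {⁅n, g⁆} = N := by
    rcases hmin (normalClosure {⁅n, g⁆}) normalClosure_normal
      (normalClosure_le_normal (Set.singleton_subset_iff.2 hcm)) with h | h
    · refine absurd ?_ hne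
      have : ⁅n, g⁆ ∈ normalClosure {⁅n, g⁆} := subset_normalClosure rfl
      rwa [h, mem_bot] at this
    · exact h
  have hn' : n ∈ normalClosure {⁅n, g⁆} := by
    rw [hnc]
    exact hn
  obtain ⟨S, hS, hS'⟩ := nc_fin hn'
  set T := insert n (insert g S) with hT
  have hnT : n ∈ closure T := subset_closure (Or.inl rfl)
  have hgT : g ∈ closure T := subset_closure (Or.inr (Or.inl rfl))
  have h1 := hS' (closure T) (fun s hs => subset_closure (Or.inr (Or.inr hs)))
  classical
  have hex := LHC.ucs (mem_Rad.1 (hR hn)) ((hS.insert g).insert n) hnT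
  have h2 := Nat.find_spec hex
  have h3 : ∀ m < Nat.find hex, ¬ _ := fun m hm => Nat.find_min hex hm
  rcases hj : Nat.find hex with _ | j
  · rw [hj, Subgroup.upperCentralSeries_zero, mem_bot] at h2
    have h4 : n = 1 := congrArg Subtype.val h2
    exact hne (by rw [h4, commutatorElement_one_left])
  · rw [hj, Subgroup.mem_upperCentralSeries_succ_iff] at h2
    refine h3 j (by omega) ?_
    have h4 : closure {y | ∃ h ∈ closure T, y = h * ⁅n, g⁆ * h⁻¹} ≤
        (Subgroup.upperCentralSeries (closure T) j).map (closure T).subtype := by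
      rw [closure_le]
      rintro _ ⟨h, hh, rfl⟩
      refine ⟨⟨h, hh⟩ * ⁅(⟨n, hnT⟩ : closure T), ⟨g, hgT⟩⁆ * ⟨h, hh⟩⁻¹, ?_, rfl⟩
      exact (inferInstance : (Subgroup.upperCentralSeries (closure T) j).Normal).conj_mem _
        (h2 ⟨g, hgT⟩) _
    obtain ⟨y, hy, hyn⟩ := h4 h1
    have : y = ⟨n, hnT⟩ := Subtype.ext hyn
    rw [← this]
    exact hy

/-- both uniform statements -/
theorem rad_all (d : ℕ) : ∃ k m : ℕ, ∀ (G : Type u) [Group G] (a : Fin d → G),
    (∀ x : G, x ^ 5 = 1) →
    (∀ x ∈ Rad G, ∀ w : List G, (∀ g ∈ w, g ∈ closure (Set.range a)) → w.length = k →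
      lnc x w = 1) ∧
    (centralizer (Rad G : Set G)).relIndex (closure (Set.range a)) ≠ 0 ∧
    (centralizer (Rad G : Set G)).relIndex (closure (Set.range a)) ≤ m ∧
    (closure (Set.range a) = ⊤ → Rad G = Subgroup.upperCentralSeries G k) := by
  obtain ⟨i, hi⟩ := rad_unif.{u} d
  obtain ⟨j, hj⟩ := rad_gen.{u} d
  obtain ⟨m, hm⟩ := rad_cent.{u} d
  refine ⟨max i j, m, fun G _ a h5 => ⟨?_, (hm G a h5).1, (hm G a h5).2, ?_⟩⟩
  · intro x hx w hw hwk
    have e : w = w.take i ++ w.drop i := (List.take_append_drop _ _).symm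
    rw [e, lnc_append, hi G a h5 x hx (w.take i) (fun g hg => hw g (List.mem_of_mem_take hg)) (by
      rw [List.length_take, hwk]
      omega), lnc_one]
  · intro ha
    exact hj G a h5 ha _ (le_max_right i j)

/-- normal subgroups of `d`-generator groups, with the normal closures of finite sets -/
theorem nrm_fin (d : ℕ) : ∃ k m : ℕ, ∃ b : ℕ → ℕ, ∀ (G : Type u) [Group G] (a : Fin d → G),
    (∀ x : G, x ^ 5 = 1) → closure (Set.range a) = ⊤ →
    (∀ N : Subgroup G, N.Normal →
      derivedSeries N (k + 1) = derivedSeries N k ∧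
      (∀ n ∈ N, ∀ w : List G, w.length = k → lnc n w ∈ (derivedSeries N k).map N.subtype) ∧
      ∃ C : Subgroup G, (∀ g, g ∈ C ↔ ∀ n ∈ N, ⁅n, g⁆ ∈ (derivedSeries N k).map N.subtype) ∧
        C.index ≠ 0 ∧ C.index ≤ m) ∧
    ∀ (r : ℕ) (t : Fin r → G),
      Finite (normalClosure (Set.range t) ⧸ derivedSeries (normalClosure (Set.range t)) k) ∧
      Nat.card (normalClosure (Set.range t) ⧸ derivedSeries (normalClosure (Set.range t)) k)
        ≤ b r := by
  obtain ⟨k, m, h⟩ := nrm_all.{u} d
  have hb : ∀ r : ℕ, ∃ b : ℕ, ∀ (G : Type u) [Group G] (a : Fin d → G) (t : Fin r → G),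
      (∀ x : G, x ^ 5 = 1) → closure (Set.range a) = ⊤ →
      Finite (normalClosure (Set.range t) ⧸ derivedSeries (normalClosure (Set.range t)) k) ∧
      Nat.card (normalClosure (Set.range t) ⧸ derivedSeries (normalClosure (Set.range t)) k) ≤ b :=
    fun r => nc_all.{u} d r k
  choose b hb using hb
  refine ⟨k, m, b, fun G _ a h5 ha => ⟨fun N hN => ?_, fun r t => hb r G a t h5 ha⟩⟩
  obtain ⟨h1, h2, h3⟩ := h G a N h5 ha hN
  refine ⟨?_, ?_, ?_⟩
  · refine map_injective (Subgroup.subtype_injective N) ?_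
    rw [ds_eq, ds_eq]
    exact h1 1
  · rw [ds_eq]
    exact h2
  · rw [ds_eq]
    exact h3

/-- `4`-unipotent groups of units in characteristic `5` -/
theorem ring_unif (d : ℕ) : ∃ k m : ℕ, ∀ (R : Type u) [Ring R] (a : Fin d → Rˣ), (5 : R) = 0 →
    (∀ h ∈ closure (Set.range a), ((h : R) - 1) ^ 4 = 0) →
    (∀ w : List Rˣ, (∀ h ∈ w, h ∈ closure (Set.range a)) → w.length = k →
      (w.map fun h : Rˣ => (h : R) - 1).prod = 0) ∧
    Finite (closure (Set.range a)) ∧ Nat.card (closure (Set.range a)) ≤ m := by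
  obtain ⟨k, m, h⟩ := unif.{u} d
  refine ⟨k, m, fun R _ a h5 h4 => ?_⟩
  set f : FreeGroup (Fin d) →* Rˣ := FreeGroup.lift a with hf
  have hfr : f.range = closure (Set.range a) := FreeGroup.range_lift_eq_closure
  set L : R →* AddMonoid.End R :=
    { toFun := fun r => AddMonoidHom.mulLeft r
      map_one' := AddMonoidHom.ext fun v => one_mul v
      map_mul' := fun r s => AddMonoidHom.ext fun v => mul_assoc r s v } with hL
  set ρ : FreeGroup (Fin d) →* AddMonoid.End R := (L.comp (Units.coeHom R)).comp f with hρ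
  have hρ1 : ∀ p v, ρ p v = (f p : R) * v := fun p v => rfl
  have hact : Act5 ρ := by
    constructor
    · intro v
      rw [nsmul_eq_mul]
      have : ((5 : ℕ) : R) = 0 := by exact_mod_cast h5
      rw [this, zero_mul]
    · intro p v
      have h6 := h4 (f p) (by rw [← hfr]; exact ⟨p, rfl⟩)
      change v + (f p : R) * v + (f (p ^ 2) : R) * v + (f (p ^ 3) : R) * v + (f (p ^ 4) : R) * v = 0
      rw [map_pow, map_pow, map_pow]
      push_cast
      have e : v + (f p : R) * v + (f p : R) ^ 2 * v + (f p : R) ^ 3 * v + (f p : R) ^ 4 * v =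
          (((f p : R) - 1) ^ 4 + 5 * ((f p : R) ^ 3 - (f p : R) ^ 2 + (f p : R))) * v := by
        noncomm_ring
      rw [e, h6, h5]
      simp
  obtain ⟨h1, h2, h3⟩ := h R ρ hact
  have hset : ((closure (Set.range a) : Subgroup Rˣ) : Set Rˣ) = Set.range f := by
    rw [← hfr]
    rfl
  -- the map from units to endomorphisms is injective
  have hinj : Function.Injective (fun u : Rˣ => L (u : R)) := by
    intro u v huv
    have := congrArg (fun φ : AddMonoid.End R => φ 1) huv
    change (u : R) * 1 = (v : R) * 1 at this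
    rw [mul_one, mul_one] at this
    exact Units.ext this
  have him : (fun u : Rˣ => L (u : R)) '' (closure (Set.range a) : Subgroup Rˣ) = Set.range ρ := by
    rw [hset, ← Set.range_comp]
    rfl
  have hfin : ((closure (Set.range a) : Subgroup Rˣ) : Set Rˣ).Finite := by
    refine Set.Finite.of_finite_image ?_ hinj.injOn
    rw [him]
    exact h1
  refine ⟨?_, hfin.to_subtype, ?_⟩
  · intro w hw hwk
    have hch : ∀ g ∈ w, ∃ p, f p = g := by
      intro g hg
      have := hw g hg
      rw [← hfr] at this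
      exact this
    obtain ⟨w', rfl⟩ : ∃ w' : List (FreeGroup (Fin d)), w'.map f = w := by
      choose! c hc using hch
      refine ⟨w.map c, ?_⟩
      rw [List.map_map]
      have : ∀ g ∈ w, (f ∘ c) g = id g := fun g hg => hc g hg
      rw [List.map_congr_left this, List.map_id]
    have h6 := congrArg (fun φ : AddMonoid.End R => φ 1) (h3 w' (by simpa using hwk))
    have h7 : ∀ l : List (FreeGroup (Fin d)), ∀ v : R, (l.map fun x => ρ x - 1).prod v =
        ((l.map f).map fun h : Rˣ => (h : R) - 1).prod * v := by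
      intro l
      induction l with
      | nil =>
        intro v
        simp
      | cons x l ih =>
        intro v
        rw [List.map_cons, List.prod_cons, List.map_cons, List.map_cons, List.prod_cons, mul_assoc,
          ← ih]
        change (ρ x - 1) _ = _
        rw [sub_mul, one_mul]
        rfl
    change (w'.map fun x => ρ x - 1).prod (1 : R) = 0 at h6
    rw [h7, mul_one] at h6
    exact h6
  · have h8 := Set.ncard_image_of_injective ((closure (Set.range a) : Subgroup Rˣ) : Set Rˣ) hinj
    rw [him] at h8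
    change ((closure (Set.range a) : Subgroup Rˣ) : Set Rˣ).ncard ≤ m
    rw [← h8]
    exact h2

end Pool.Agent.Helper140_E5
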