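import Pool.Agent.Helper140_E5.Fin

/-!
# Local finiteness of the group induced on a soluble normal subgroup
-/

set_option autoImplicit false

namespace Pool.Agent.Helper140_E5

open Subgroup
open scoped commutatorElement

universe u v

theorem LFq.lf {G : Type u} [Group G] {C : Subgroup G} [C.Normal] (h : LFq C) :
    LFin (G ⧸ C) := by
  intro S hS
  set π := QuotientGroup.mk' C with hπ
  have hs : Function.Surjective π := QuotientGroup.mk'_surjective C
  choose g hg using hs
  have h2 : closure S = (closure (g '' S)).map π := by
    rw [MonoidHom.map_closure, ← Set.image_comp]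
    congr 1
    ext x
    constructor
    · intro hx
      exact ⟨x, hx, hg x⟩
    · rintro ⟨y, hy, rfl⟩
      change π (g y) ∈ S
      rw [hg]
      exact hy
  have h3 := h (g '' S) (hS.image _)
  have h4 := relIndex_ker (K := closure (g '' S)) π
  rw [QuotientGroup.ker_mk'] at h4
  rw [h4, ← h2] at h3
  exact Nat.finite_of_card_ne_zero h3

theorem lf_fg {G : Type u} [Group G] (hG : Group.FG G) : ∃ S : Set G, S.Finite ∧ closure S = ⊤ := by
  obtain ⟨S, hS⟩ := hG.out
  exact ⟨S, S.finite_toSet, hS⟩

end Pool.Agent.Helper140_E5
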