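import Pool.Agent.Helper140_E5.QuadA

/-!
# Sandwiches: products between two equal factors vanish
-/

set_option autoImplicit false
set_option linter.unusedSimpArgs false

namespace Pool.Agent.Helper140_E5

open List

universe u

variable {R : Type u} [Ring R]

section
variable {E : Subgroup Rˣ} {P : R}

theorem San.conj (h : San E P) {Q : R} (hQ : Q ∈ Cj E P) : San E Q := by
  refine ⟨h.toQe.conj hQ, fun S hS => ?_⟩
  obtain ⟨g, hg, rfl⟩ := hQ
  have hS' : S ∈ Cj E P := Cj_trans ⟨g, hg, rfl⟩ hS
  have h1 := h.san _ (Cj_conj hS' (inv_mem hg))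
  rw [inv_inv] at h1
  have : (g : R) * P * ((g⁻¹ : Rˣ) : R) * (S * (g * P * ((g⁻¹ : Rˣ) : R))) =
    g * (P * ((((g⁻¹ : Rˣ) : R) * S * g) * P)) * ((g⁻¹ : Rˣ) : R) := by
    simp only [mul_assoc]
  rw [this, h1, mul_zero, zero_mul]

theorem san_PP (h : San E P) {x : R} (hx : x ∈ PP E P) : P * (x * P) = 0 := by
  unfold PP at hx
  induction hx using AddSubgroup.closure_induction with
  | mem x hx => exact h.san x hx
  | zero => simp
  | add x y _ _ h1 h2 => rw [add_mul, mul_add, h1, h2, add_zero]
  | neg x _ h1 => rw [neg_mul, mul_neg, h1, neg_zero]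

theorem swap_eq (a b : List R) (x y : R)
    (h : P * ((a ++ (x * y - y * x) :: b).prod * P) = 0) :
    P * ((a ++ x :: y :: b).prod * P) = P * ((a ++ y :: x :: b).prod * P) := by
  rw [← sub_eq_zero, ← h]
  simp only [List.prod_append, List.prod_cons]
  noncomm_ring

theorem perm_eq (H : Uni E) (h : San E P) (n : ℕ)
    (ih : ∀ l : List R, l.length < n → (∀ x ∈ l, x ∈ PP E P) → P * (l.prod * P) = 0)
    {l1 l2 : List R} (hl : l1 ~ l2) : ∀ a : List R, (a ++ l1).length ≤ n →
      (∀ x ∈ a ++ l1, x ∈ PP E P) →
      P * ((a ++ l1).prod * P) = P * ((a ++ l2).prod * P) := by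
  induction hl with
  | nil => intro a _ _; rfl
  | cons x _ ih1 =>
    intro a hn ha
    have := ih1 (a ++ [x]) (by simpa using hn) (by simpa using ha)
    simpa using this
  | swap x y l =>
    intro a hn ha
    refine swap_eq a l y x (ih _ ?_ ?_)
    · simp only [List.length_append, List.length_cons] at hn ⊢
      omega
    · intro z hz
      simp only [List.mem_append, List.mem_cons] at hz ha
      rcases hz with hz | rfl | hz
      · exact ha z (Or.inl hz)
      · exact lie_mem H h.toQe (ha y (Or.inr (Or.inl rfl))) (ha x (Or.inr (Or.inr (Or.inl rfl))))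
      · exact ha z (Or.inr (Or.inr (Or.inr hz)))
  | trans h1 h2 ih1 ih2 =>
    intro a hn ha
    rw [ih1 a hn ha, ih2 a]
    · simp only [List.length_append] at hn ⊢
      rw [← h1.length_eq]
      exact hn
    · intro z hz
      refine ha z ?_
      simp only [List.mem_append] at hz ⊢
      rcases hz with hz | hz
      · exact Or.inl hz
      · exact Or.inr (h1.mem_iff.2 hz)

theorem perm_eq' (H : Uni E) (h : San E P) (n : ℕ)
    (ih : ∀ l : List R, l.length < n → (∀ x ∈ l, x ∈ PP E P) → P * (l.prod * P) = 0)
    {l1 l2 : List R} (hl : l1 ~ l2) (hn : l2.length ≤ n) (ha : ∀ x ∈ l2, x ∈ PP E P) :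
    P * (l1.prod * P) = P * (l2.prod * P) :=
  (perm_eq H h n ih hl.symm [] hn ha).symm

theorem san_list (H : Uni E) (h : San E P) : ∀ (n : ℕ) (l : List R), l.length = n →
    (∀ x ∈ l, x ∈ PP E P) → P * (l.prod * P) = 0 := by
  intro n
  induction n using Nat.strong_induction_on with
  | _ n ih0 =>
  have ih : ∀ l : List R, l.length < n → (∀ x ∈ l, x ∈ PP E P) → P * (l.prod * P) = 0 :=
    fun l hl => ih0 _ hl l rfl
  intro l hl hm
  have hp : P * P = 0 := h.sq
  have hp' : ∀ z : R, P * (P * z) = 0 := fun z => by rw [← mul_assoc, hp, zero_mul]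
  match l, hl, hm with
  | [], _, _ => simp [hp]
  | [x], _, hm => simpa using san_PP h (hm x (by simp))
  | [x, y], hn, hm =>
    have hx := hm x (by simp)
    have hy := hm y (by simp)
    have h1 := san_PP h (lie_mem H h.toQe hx hy)
    have kx := san_PP h hx
    have ky := san_PP h hy
    have kx' : ∀ z : R, P * (x * (P * z)) = 0 := fun z => by
      have : P * (x * (P * z)) = P * (x * P) * z := by simp only [mul_assoc]
      rw [this, kx, zero_mul]
    have ky' : ∀ z : R, P * (y * (P * z)) = 0 := fun z => by
      have : P * (y * (P * z)) = P * (y * P) * z := by simp only [mul_assoc]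
      rw [this, ky, zero_mul]
    have h0 := sym_PP H h.toQe P self_PP P self_PP x hx y hy
    have h2 : P * (x * (y * P)) + P * (y * (x * P)) = 0 := by
      apply two_mul_zero H
      have h1 : D3 P P x y = 2 * (P * (x * (y * P)) + P * (y * (x * P))) := by
        unfold D3
        simp only [mul_assoc, hp, hp', kx, ky, kx', ky', mul_zero, add_zero, zero_add]
        noncomm_ring
      rw [← h1, h0]
    have h3 : P * (x * (y * P)) - P * (y * (x * P)) = 0 := by
      rw [← h1]
      noncomm_ring
    have h4 : P * ([x, y].prod * P) = P * (x * (y * P)) := by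
      simp only [List.prod_cons, List.prod_nil, mul_one, mul_assoc]
    rw [h4]
    apply two_mul_zero H
    have h5 : 2 * (P * (x * (y * P))) = (P * (x * (y * P)) + P * (y * (x * P))) +
      (P * (x * (y * P)) - P * (y * (x * P))) := by noncomm_ring
    rw [h5, h2, h3, add_zero]
  | [x, y, z], hn, hm =>
    have hx := hm x (by simp)
    have hy := hm y (by simp)
    have hz := hm z (by simp)
    have i1 : ∀ a ∈ PP E P, ∀ w : R, P * (a * (P * w)) = 0 := fun a ha w => by
      have h1 := san_PP h ha
      have : P * (a * (P * w)) = P * (a * P) * w := by simp only [mul_assoc]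
      rw [this, h1, zero_mul]
    have i2 : ∀ a ∈ PP E P, ∀ b ∈ PP E P, ∀ w : R, P * (a * (b * (P * w))) = 0 :=
      fun a ha b hb w => by
        have h1 := ih [a, b] (by rw [← hn]; simp) (by
          intro c hc
          simp only [List.mem_cons, List.not_mem_nil, or_false] at hc
          rcases hc with rfl | rfl
          · exact ha
          · exact hb)
        have : P * (a * (b * (P * w))) = P * ([a, b].prod * P) * w := by
          simp only [List.prod_cons, List.prod_nil, mul_one, mul_assoc]
        rw [this, h1, zero_mul]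
    have h0 := sym_PP H h.toQe P self_PP x hx y hy z hz
    have h1 : P * D3 P x y z = P * ([x, y, z].prod * P) + P * ([x, z, y].prod * P) +
        P * ([y, x, z].prod * P) + P * ([y, z, x].prod * P) + P * ([z, x, y].prod * P) +
        P * ([z, y, x].prod * P) := by
      unfold D3
      simp only [List.prod_cons, List.prod_nil, mul_one, mul_add, mul_assoc, hp', i1 x hx, i1 y hy,
        i1 z hz, i2 x hx y hy, i2 x hx z hz, i2 y hy x hx, i2 y hy z hz, i2 z hz x hx, i2 z hz y hy,
        add_zero, zero_add]
      abel
    have q := fun (l1 : List R) (hl : l1 ~ [x, y, z]) =>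
      perm_eq' H h n ih hl (by rw [← hn]) hm
    rw [h0, mul_zero, q [x, z, y] (List.Perm.cons _ (List.Perm.swap _ _ _)),
      q [y, x, z] (List.Perm.swap _ _ _),
      q [y, z, x] (((List.Perm.swap _ _ _).cons _).trans (List.Perm.swap _ _ _)),
      q [z, x, y] ((List.Perm.swap _ _ _).trans ((List.Perm.swap _ _ _).cons _)),
      q [z, y, x] (((List.Perm.swap _ _ _).cons _).trans
        ((List.Perm.swap _ _ _).trans ((List.Perm.swap _ _ _).cons _)))] at h1
    set B := P * ([x, y, z].prod * P)
    have h2 : B = (B + B + B + B + B + B) - 5 * B := by noncomm_ring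
    rw [h2, ← h1, H.five]
    simp
  | x :: y :: z :: t :: r, hn, hm =>
    have hx := hm x (by simp)
    have hy := hm y (by simp)
    have hz := hm z (by simp)
    have ht := hm t (by simp)
    have h0 := sym_PP H h.toQe x hx y hy z hz t ht
    have q : ∀ s : List (Fin 4), s ~ [0, 1, 2, 3] →
        P * ((s.map ![x, y, z, t] ++ r).prod * P) = P * ((x :: y :: z :: t :: r).prod * P) := by
      intro s hs
      exact perm_eq' H h n ih ((hs.map ![x, y, z, t]).append_right r) (by rw [← hn]) hm
    set B := P * ((x :: y :: z :: t :: r).prod * P) with hB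
    have q' : ∀ i j k m : Fin 4, [i, j, k, m] ~ [0, 1, 2, 3] →
        P * (![x, y, z, t] i * ![x, y, z, t] j * ![x, y, z, t] k * ![x, y, z, t] m *
          (r.prod * P)) = B := by
      intro i j k m hs
      rw [← q _ hs]
      simp only [List.map_cons, List.map_nil, List.cons_append, List.nil_append, List.prod_cons,
        mul_assoc]
    have h1 : P * (D3 x y z t * (r.prod * P)) = 24 * B := by
      have e : D3 x y z t = D3 (![x, y, z, t] 0) (![x, y, z, t] 1) (![x, y, z, t] 2)
        (![x, y, z, t] 3) := rfl
      rw [e]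
      unfold D3
      simp only [add_mul, mul_add]
      rw [q' 0 1 2 3 (by decide),
        q' 0 1 3 2 (by decide),
        q' 0 2 1 3 (by decide),
        q' 0 2 3 1 (by decide),
        q' 0 3 1 2 (by decide),
        q' 0 3 2 1 (by decide),
        q' 1 0 2 3 (by decide),
        q' 1 0 3 2 (by decide),
        q' 1 2 0 3 (by decide),
        q' 1 2 3 0 (by decide),
        q' 1 3 0 2 (by decide),
        q' 1 3 2 0 (by decide),
        q' 2 0 1 3 (by decide),
        q' 2 0 3 1 (by decide),
        q' 2 1 0 3 (by decide),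
        q' 2 1 3 0 (by decide),
        q' 2 3 0 1 (by decide),
        q' 2 3 1 0 (by decide),
        q' 3 0 1 2 (by decide),
        q' 3 0 2 1 (by decide),
        q' 3 1 0 2 (by decide),
        q' 3 1 2 0 (by decide),
        q' 3 2 0 1 (by decide),
        q' 3 2 1 0 (by decide)]
      noncomm_ring
    rw [h0, zero_mul, mul_zero] at h1
    have h2 : B = 5 * (5 * B) - 24 * B := by noncomm_ring
    rw [h2, ← h1, H.five]
    simp

end

end Pool.Agent.Helper140_E5
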