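import Pool.Agent.Helper140_E5.Hyp4

/-!
# The derived series of the normal subgroups of a `d`-generator group of exponent five

No local finiteness is assumed.  The proof uses the theorem of the file `UnipotentFive` on groups
acting with `(h - 1) ^ 4 = 0`, which bounds `[N, G, …, G]` and `|G : C_G(N)|` for soluble normal
subgroups `N` of a `d`-generator group `G` of exponent `5` in terms of `d` and the derived length
`l` of `N` (`Cns`, `Bd`).  The derived length is bounded (`Hyp`): let `M = N^(l-2)`, which is
metabelian; then `G / C_G(M)` is a finite `5`-group of order at most `m = m(d, 2)`, hence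
`G^(m) ≤ C_G(M)`, and if `l ≥ m + 2` then `M ≤ G^(m) ≤ C_G(M)` is abelian, a contradiction.
Applying this in `G / N^(s+1)` shows that the derived series of every normal subgroup `N` stops.
-/

set_option autoImplicit false

namespace Pool.Agent.Helper140_E5.NormalSubgroupsFive

open Pool.Agent.Helper140_E5
open scoped commutatorElement

universe u

/-- The left-normed commutator `[x, g₁, …, g_k]` for the list `w = (g₁, …, g_k)`. -/
def comm {G : Type u} [Group G] (x : G) (w : List G) : G := w.foldl (fun a g => ⁅a, g⁆) x

/-- The `k`-th term of the derived series of the subgroup `N`, as a subgroup of `G`. -/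
def derived {G : Type u} [Group G] (N : Subgroup G) (k : ℕ) : Subgroup G :=
  (derivedSeries N k).map N.subtype

/-- For each `d` there are numbers `k`, `m`, `b(0), b(1), …` such that for every group
`G = ⟨a₁, …, a_d⟩` of exponent `5`:
(1) for every normal subgroup `N` of `G` the derived series stops at the step `k`,
`N^(k+1) = N^(k)`; moreover `[n, g₁, …, g_k] ∈ N^(k)` for all `n ∈ N` and `g_i ∈ G`, and the
centraliser of `N / N^(k)` has index at most `m` in `G`;
(2) if `N` is the normal closure of `r` elements then `|N : N^(k)| ≤ b(r)`. -/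
theorem result : ∀ d : ℕ, ∃ k m : ℕ, ∃ b : ℕ → ℕ, ∀ (G : Type u) [Group G] (a : Fin d → G),
    (∀ x : G, x ^ 5 = 1) → Subgroup.closure (Set.range a) = ⊤ →
    (∀ N : Subgroup G, N.Normal →
      derived N (k + 1) = derived N k ∧
      (∀ n ∈ N, ∀ w : List G, w.length = k → comm n w ∈ derived N k) ∧
      ∃ C : Subgroup G, (∀ g, g ∈ C ↔ ∀ n ∈ N, ⁅n, g⁆ ∈ derived N k) ∧
        C.index ≠ 0 ∧ C.index ≤ m) ∧
    ∀ (r : ℕ) (t : Fin r → G),
      (derived (Subgroup.normalClosure (Set.range t)) k).relIndex
        (Subgroup.normalClosure (Set.range t)) ≠ 0 ∧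
      (derived (Subgroup.normalClosure (Set.range t)) k).relIndex
        (Subgroup.normalClosure (Set.range t)) ≤ b r := by
  intro d
  obtain ⟨k, m, b, h⟩ := nrm_fin.{u} d
  refine ⟨k, m, b, fun G _ a h5 ha => ⟨fun N hN => ?_, fun r t => ?_⟩⟩
  · obtain ⟨h1, h2, h3⟩ := (h G a h5 ha).1 N hN
    exact ⟨congrArg (Subgroup.map N.subtype) h1, h2, h3⟩
  · obtain ⟨h1, h2⟩ := (h G a h5 ha).2 r t
    rw [card_ds] at h2
    have h3 : Nat.card (Subgroup.normalClosure (Set.range t) ⧸
        derivedSeries (Subgroup.normalClosure (Set.range t)) k) ≠ 0 := Nat.card_pos.ne'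
    rw [card_ds] at h3
    rw [derived, ds_eq]
    exact ⟨h3, h2⟩

end Pool.Agent.Helper140_E5.NormalSubgroupsFive
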