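import Pool.Agent.Helper140_E5.Sym2

/-!
# Quadratic elements: the Lie algebra spanned by a conjugacy class
-/

set_option autoImplicit false

namespace Pool.Agent.Helper140_E5

open scoped commutatorElement

universe u

variable {R : Type u} [Ring R]

theorem D3_rot (a b c d : R) : D3 a b c d = D3 b c d a := by
  unfold D3
  abel

theorem D3_add (a a' b c d : R) : D3 (a + a') b c d = D3 a b c d + D3 a' b c d := by
  unfold D3
  noncomm_ring

theorem D3_neg (a b c d : R) : D3 (-a) b c d = - D3 a b c d := by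
  unfold D3
  noncomm_ring

theorem D3_ind {S T1 T2 T3 : Set R}
    (h : ∀ a ∈ S, ∀ b ∈ T1, ∀ c ∈ T2, ∀ d ∈ T3, D3 a b c d = 0) :
    ∀ a ∈ (AddSubgroup.closure S : Set R), ∀ b ∈ T1, ∀ c ∈ T2, ∀ d ∈ T3, D3 a b c d = 0 := by
  intro a ha b hb c hc d hd
  have ha' : a ∈ AddSubgroup.closure S := ha
  induction ha' using AddSubgroup.closure_induction with
  | mem x hx => exact h x hx b hb c hc d hd
  | zero => unfold D3; simp
  | add x y hx hy h1 h2 => rw [D3_add, h1 hx, h2 hy, add_zero]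
  | neg x hx h1 => rw [D3_neg, h1 hx, neg_zero]

theorem D3_ext {S : Set R} (h : ∀ a ∈ S, ∀ b ∈ S, ∀ c ∈ S, ∀ d ∈ S, D3 a b c d = 0) :
    ∀ a ∈ AddSubgroup.closure S, ∀ b ∈ AddSubgroup.closure S, ∀ c ∈ AddSubgroup.closure S,
      ∀ d ∈ AddSubgroup.closure S, D3 a b c d = 0 := by
  have h1 := D3_ind h
  have h2 := D3_ind (S := S) (T1 := S) (T2 := S) (T3 := (AddSubgroup.closure S : Set R))
    (fun a ha b hb c hc d hd => by rw [← D3_rot]; exact h1 d hd a ha b hb c hc)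
  have h3 := D3_ind (S := S) (T1 := S) (T2 := (AddSubgroup.closure S : Set R))
    (T3 := (AddSubgroup.closure S : Set R))
    (fun a ha b hb c hc d hd => by rw [← D3_rot]; exact h2 d hd a ha b hb c hc)
  have h4 := D3_ind (S := S) (T1 := (AddSubgroup.closure S : Set R))
    (T2 := (AddSubgroup.closure S : Set R)) (T3 := (AddSubgroup.closure S : Set R))
    (fun a ha b hb c hc d hd => by rw [← D3_rot]; exact h3 d hd a ha b hb c hc)
  exact fun a ha b hb c hc d hd => h4 a ha b hb c hc d hd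

/-- the conjugacy class -/
def Cj (E : Subgroup Rˣ) (P : R) : Set R := {x | ∃ h ∈ E, x = h * P * ((h⁻¹ : Rˣ) : R)}

/-- its additive span -/
def PP (E : Subgroup Rˣ) (P : R) : AddSubgroup R := AddSubgroup.closure (Cj E P)

section
variable {E : Subgroup Rˣ} {P : R}

theorem self_Cj : P ∈ Cj E P := ⟨1, one_mem _, by simp⟩

theorem Cj_conj {Q : R} (hQ : Q ∈ Cj E P) {h : Rˣ} (hh : h ∈ E) :
    h * Q * ((h⁻¹ : Rˣ) : R) ∈ Cj E P := by
  obtain ⟨g, hg, rfl⟩ := hQ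
  refine ⟨h * g, mul_mem hh hg, ?_⟩
  rw [mul_inv_rev, Units.val_mul, Units.val_mul]
  simp only [mul_assoc]

theorem Cj_sub_PP {Q : R} (hQ : Q ∈ Cj E P) : Q ∈ PP E P := AddSubgroup.subset_closure hQ

theorem self_PP : P ∈ PP E P := Cj_sub_PP self_Cj

theorem PP_conj {x : R} (hx : x ∈ PP E P) {h : Rˣ} (hh : h ∈ E) :
    h * x * ((h⁻¹ : Rˣ) : R) ∈ PP E P := by
  unfold PP at *
  induction hx using AddSubgroup.closure_induction with
  | mem x hx => exact AddSubgroup.subset_closure (Cj_conj hx hh)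
  | zero => simp
  | add x y _ _ h1 h2 => rw [mul_add, add_mul]; exact add_mem h1 h2
  | neg x _ h1 =>
    rw [mul_neg, neg_mul]
    exact neg_mem h1

theorem PP_conj' {x : R} (hx : x ∈ PP E P) {h : Rˣ} (hh : h ∈ E) :
    ((h⁻¹ : Rˣ) : R) * x * h ∈ PP E P := by
  have := PP_conj hx (inv_mem hh)
  rwa [inv_inv] at this

theorem unit_Cj {c : Rˣ} (hc : c ∈ E) (hcP : (c : R) = 1 + P) {Q : R} (hQ : Q ∈ Cj E P) :
    ∃ q ∈ E, (q : R) = 1 + Q := by
  obtain ⟨h, hh, rfl⟩ := hQ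
  refine ⟨h * c * h⁻¹, mul_mem (mul_mem hh hc) (inv_mem hh), ?_⟩
  rw [Units.val_mul, Units.val_mul, hcP, mul_add, add_mul, mul_one, Units.mul_inv]

/-- a quadratic element -/
structure Qe (E : Subgroup Rˣ) (P : R) : Prop where
  sq : P * P = 0
  un : ∃ c ∈ E, (c : R) = 1 + P

theorem Qe.conj (h : Qe E P) {Q : R} (hQ : Q ∈ Cj E P) : Qe E Q := by
  obtain ⟨c, hc, hcP⟩ := h.un
  refine ⟨?_, unit_Cj hc hcP hQ⟩
  obtain ⟨g, hg, rfl⟩ := hQ
  have : (g : R) * P * ((g⁻¹ : Rˣ) : R) * (g * P * ((g⁻¹ : Rˣ) : R)) =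
    g * (P * ((((g⁻¹ : Rˣ) : R) * g) * P)) * ((g⁻¹ : Rˣ) : R) := by simp only [mul_assoc]
  rw [this, Units.inv_mul, one_mul, h.sq, mul_zero, zero_mul]

theorem Qe.qd (h : Qe E P) : Qd E P := by
  obtain ⟨c, hc, hcP⟩ := h.un
  have : P = (c : R) - 1 := by rw [hcP]; abel
  rw [this]
  refine qd_of hc ?_
  rw [← this]
  exact h.sq

theorem inv_val (h : Qe E P) {c : Rˣ} (hcP : (c : R) = 1 + P) : ((c⁻¹ : Rˣ) : R) = 1 - P := by
  rw [← Units.mul_right_inj c, Units.mul_inv, hcP]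
  have : (1 + P) * (1 - P) = 1 - P * P := by noncomm_ring
  rw [this, h.sq, sub_zero]

theorem Cj_trans {Q S : R} (hQ : Q ∈ Cj E P) (hS : S ∈ Cj E Q) : S ∈ Cj E P := by
  obtain ⟨g, hg, rfl⟩ := hS
  exact Cj_conj hQ hg

theorem Cj_symm {Q : R} (hQ : Q ∈ Cj E P) : P ∈ Cj E Q := by
  obtain ⟨g, hg, rfl⟩ := hQ
  refine ⟨g⁻¹, inv_mem hg, ?_⟩
  rw [inv_inv]
  have : ((g⁻¹ : Rˣ) : R) * (g * P * ((g⁻¹ : Rˣ) : R)) * g =
    (((g⁻¹ : Rˣ) : R) * g) * P * (((g⁻¹ : Rˣ) : R) * g) := by simp only [mul_assoc]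
  rw [this, Units.inv_mul, one_mul, mul_one]

theorem Cj_eq {Q : R} (hQ : Q ∈ Cj E P) : Cj E Q = Cj E P :=
  Set.Subset.antisymm (fun _ h => Cj_trans hQ h) (fun _ h => Cj_trans (Cj_symm hQ) h)

theorem PP_eq {Q : R} (hQ : Q ∈ Cj E P) : PP E Q = PP E P := by
  unfold PP
  rw [Cj_eq hQ]

variable (H : Uni E)
include H

theorem two_mul_zero {x : R} (h : 2 * x = 0) : x = 0 := by
  have : x = 3 * (2 * x) - 5 * x := by noncomm_ring
  rw [this, h, H.five]
  simp

theorem two_mem {S : AddSubgroup R} {x : R} (h : 2 * x ∈ S) : x ∈ S := by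
  have : x = 2 * x + 2 * x + 2 * x - 5 * x := by noncomm_ring
  rw [this, H.five, zero_mul, sub_zero]
  exact add_mem (add_mem h h) h

/-- the symmetrised product vanishes on the span of a class of quadratic elements -/
theorem sym_PP (h : Qe E P) : ∀ a ∈ PP E P, ∀ b ∈ PP E P, ∀ c ∈ PP E P, ∀ d ∈ PP E P,
    D3 a b c d = 0 :=
  D3_ext fun _ ha _ hb _ hc _ hd =>
    sym4_qd H (h.conj hd).qd (h.conj hc).qd (h.conj hb).qd (h.conj ha).qd

theorem inner (h : Qe E P) {Q x : R} (hQ : Q ∈ Cj E P) (hx : x ∈ PP E P) :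
    Q * x * Q ∈ PP E P ∧ Q * x - x * Q ∈ PP E P := by
  obtain ⟨q, hq, hqQ⟩ := (h.conj hQ).un
  have hi := inv_val (h.conj hQ) hqQ
  have h1 := PP_conj hx hq
  have h2 := PP_conj' hx hq
  rw [hqQ, hi] at h1 h2
  have e1 : (1 + Q) * x * (1 - Q) - (1 - Q) * x * (1 + Q) = 2 * (Q * x - x * Q) := by
    noncomm_ring
  have e2 : 2 * x - (1 + Q) * x * (1 - Q) + (x - (1 - Q) * x * (1 + Q)) =
      x + 2 * (Q * x * Q) := by noncomm_ring
  have hx2 : 2 * x ∈ PP E P := by rw [two_mul]; exact add_mem hx hx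
  constructor
  · apply two_mem H
    have : 2 * (Q * x * Q) = (2 * x - (1 + Q) * x * (1 - Q) + (x - (1 - Q) * x * (1 + Q))) - x := by
      rw [e2]; abel
    rw [this]
    exact sub_mem (add_mem (sub_mem hx2 h1) (sub_mem hx h2)) hx
  · apply two_mem H
    rw [← e1]
    exact sub_mem h1 h2

theorem lie_mem (h : Qe E P) {x y : R} (hx : x ∈ PP E P) (hy : y ∈ PP E P) :
    x * y - y * x ∈ PP E P := by
  have hx' := hx
  unfold PP at hx'
  induction hx' using AddSubgroup.closure_induction with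
  | mem x hx0 => exact (inner H h hx0 hy).2
  | zero => simp
  | add a b ha hb h1 h2 =>
    have : (a + b) * y - y * (a + b) = (a * y - y * a) + (b * y - y * b) := by noncomm_ring
    rw [this]
    exact add_mem (h1 ha) (h2 hb)
  | neg a ha h1 =>
    have : -a * y - y * -a = -(a * y - y * a) := by noncomm_ring
    rw [this]
    exact neg_mem (h1 ha)

end

end Pool.Agent.Helper140_E5
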