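import Pool.Agent.Helper140_E5.Quad

/-!
# Quadratic elements: reduction to sandwiches
-/

set_option autoImplicit false
set_option linter.unusedSimpArgs false

namespace Pool.Agent.Helper140_E5

open scoped commutatorElement

universe u

variable {R : Type u} [Ring R]

/-- the formula for the commutator of two quadratic elements -/
theorem comm_formula {t p : Rˣ} {T P : R} (ht : (t : R) = 1 + T) (hp : (p : R) = 1 + P)
    (ht' : ((t⁻¹ : Rˣ) : R) = 1 - T) (hp' : ((p⁻¹ : Rˣ) : R) = 1 - P) (hT : T * T = 0)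
    (hP : P * P = 0) :
    ((⁅t, p⁆ : Rˣ) : R) - 1 = T * P - P * T + P * T * P - T * P * T + T * P * T * P := by
  rw [commutatorElement_def, Units.val_mul, Units.val_mul, Units.val_mul, ht, hp, ht', hp']
  have hT' : ∀ z : R, T * (T * z) = 0 := fun z => by rw [← mul_assoc, hT, zero_mul]
  have hP' : ∀ z : R, P * (P * z) = 0 := fun z => by rw [← mul_assoc, hP, zero_mul]
  simp only [mul_add, add_mul, mul_sub, sub_mul, mul_one, one_mul, mul_assoc, hT, hT', hP, hP',
    mul_zero, zero_mul]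
  abel

/-- the repeated commutator -/
theorem comm_comm {G : Type u} [Group G] (q p : G) : ⁅⁅q, p⁆, p⁆ = ⁅q * p * q⁻¹, p⁆ := by
  simp only [commutatorElement_def]
  group

section
variable {E : Subgroup Rˣ} {P : R} (H : Uni E) (h : Qe E P)
include H h

theorem anti {Q x y : R} (hQ : Q ∈ Cj E P) (hx : x ∈ PP E P) (hy : y ∈ PP E P) :
    Q * (x * (Q * (y * Q))) + Q * (y * (Q * (x * Q))) = 0 := by
  have h0 := sym_PP H h Q (Cj_sub_PP hQ) Q (Cj_sub_PP hQ) x hx y hy
  have hq : Q * Q = 0 := (h.conj hQ).sq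
  have hq' : ∀ z : R, Q * (Q * z) = 0 := fun z => by rw [← mul_assoc, hq, zero_mul]
  apply two_mul_zero H
  have h1 : D3 Q Q x y * Q = 2 * (Q * (x * (Q * (y * Q))) + Q * (y * (Q * (x * Q)))) := by
    unfold D3
    simp only [add_mul, mul_assoc, hq, hq', mul_zero, add_zero, zero_add]
    noncomm_ring
  rw [← h1, h0, zero_mul]

theorem F1 {Q : R} (hQ : Q ∈ Cj E P) : P * (Q * (P * (Q * P))) = 0 := by
  have h0 := anti H h self_Cj (Cj_sub_PP hQ) (Cj_sub_PP hQ)
  apply two_mul_zero H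
  rw [two_mul]
  exact h0

theorem F2 {Q : R} (hQ : Q ∈ Cj E P) : Q * (P * (Q * P)) = -(P * (Q * (P * Q))) := by
  have h0 := sym_PP H h P self_PP P self_PP Q (Cj_sub_PP hQ) Q (Cj_sub_PP hQ)
  have hq : Q * Q = 0 := (h.conj hQ).sq
  have hq' : ∀ z : R, Q * (Q * z) = 0 := fun z => by rw [← mul_assoc, hq, zero_mul]
  have hp : P * P = 0 := h.sq
  have hp' : ∀ z : R, P * (P * z) = 0 := fun z => by rw [← mul_assoc, hp, zero_mul]
  rw [eq_neg_iff_add_eq_zero]
  apply two_mul_zero H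
  apply two_mul_zero H
  have h1 : D3 P P Q Q = 2 * (2 * (Q * (P * (Q * P)) + P * (Q * (P * Q)))) := by
    unfold D3
    simp only [mul_assoc, hq, hq', hp, hp', mul_zero, add_zero, zero_add]
    noncomm_ring
  rw [← h1, h0]

theorem s_mem {Q : R} (hQ : Q ∈ Cj E P) : P * (Q * P) ∈ PP E P := by
  rw [← mul_assoc]
  exact (inner H h self_Cj (Cj_sub_PP hQ)).1

theorem s_x_s {Q x : R} (hQ : Q ∈ Cj E P) (hx : x ∈ PP E P) :
    P * (Q * (P * (x * (P * (Q * P))))) = 0 := by
  have h0 := anti H h self_Cj (Cj_sub_PP hQ) hx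
  have h1 : P * (Q * (P * (x * (P * (Q * P))))) =
      (P * (Q * (P * (x * P))) + P * (x * (P * (Q * P)))) * (Q * P) -
      P * (x * (P * (Q * (P * (Q * P))))) := by noncomm_ring
  rw [h1, h0, F1 H h hQ]
  simp

theorem s_x_y_s {Q x y : R} (hQ : Q ∈ Cj E P) (hx : x ∈ PP E P) (hy : y ∈ PP E P) :
    P * (Q * (P * (x * (y * (P * (Q * P)))))) = 0 := by
  have hs := s_mem H h hQ
  have h0 := sym_PP H h _ hs _ hs x hx y hy
  have k1 : ∀ x ∈ PP E P, (P * (Q * P)) * (x * (P * (Q * P))) = 0 := by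
    intro x hx
    have := s_x_s H h hQ hx
    simpa only [mul_assoc] using this
  have k2 := k1 _ (lie_mem H h hx hy)
  set s := P * (Q * P) with hs'
  have hss : s * s = 0 := by
    rw [hs']
    have hp : P * P = 0 := h.sq
    have hp' : ∀ z : R, P * (P * z) = 0 := fun z => by rw [← mul_assoc, hp, zero_mul]
    simp only [mul_assoc, hp', mul_zero]
  have hss' : ∀ z : R, s * (s * z) = 0 := fun z => by rw [← mul_assoc, hss, zero_mul]
  have kx : s * (x * s) = 0 := k1 x hx
  have ky : s * (y * s) = 0 := k1 y hy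
  have kx' : ∀ z : R, s * (x * (s * z)) = 0 := fun z => by
    have : s * (x * (s * z)) = s * (x * s) * z := by simp only [mul_assoc]
    rw [this, kx, zero_mul]
  have ky' : ∀ z : R, s * (y * (s * z)) = 0 := fun z => by
    have : s * (y * (s * z)) = s * (y * s) * z := by simp only [mul_assoc]
    rw [this, ky, zero_mul]
  have e : P * (Q * (P * (x * (y * s)))) = s * (x * (y * s)) := by
    rw [hs']; simp only [mul_assoc]
  rw [e]
  apply two_mul_zero H
  have h2 : s * (x * (y * s)) + s * (y * (x * s)) = 0 := by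
    apply two_mul_zero H
    have h1 : D3 s s x y = 2 * (s * (x * (y * s)) + s * (y * (x * s))) := by
      unfold D3
      simp only [mul_assoc, hss, hss', kx, ky, kx', ky', mul_zero, add_zero, zero_add]
      noncomm_ring
    rw [← h1, h0]
  have h3 : s * (x * (y * s)) - s * (y * (x * s)) = 0 := by
    rw [← k2]
    noncomm_ring
  have h4 : 2 * (s * (x * (y * s))) = (s * (x * (y * s)) + s * (y * (x * s))) +
    (s * (x * (y * s)) - s * (y * (x * s))) := by noncomm_ring
  rw [h4, h2, h3, add_zero]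

end

/-- a sandwich: the conjugates `Q` satisfy `P Q P = 0` -/
structure San (E : Subgroup Rˣ) (P : R) : Prop extends Qe E P where
  san : ∀ Q ∈ Cj E P, P * (Q * P) = 0

/-- the commutator of a quadratic element `c` with a conjugate of it by a conjugate -/
theorem z_san {E : Subgroup Rˣ} {P : R} (H : Uni E) (h : Qe E P) {Q : R} (hQ : Q ∈ Cj E P) :
    San E (-(2 * (P * (Q * (P * (1 - Q)))))) := by
  have hq : Q * Q = 0 := (h.conj hQ).sq
  have hq' : ∀ z : R, Q * (Q * z) = 0 := fun z => by rw [← mul_assoc, hq, zero_mul]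
  have hp : P * P = 0 := h.sq
  have hp' : ∀ z : R, P * (P * z) = 0 := fun z => by rw [← mul_assoc, hp, zero_mul]
  have f1 := F1 H h hQ
  have f1' : ∀ z : R, P * (Q * (P * (Q * (P * z)))) = 0 := fun z => by
    have : P * (Q * (P * (Q * (P * z)))) = P * (Q * (P * (Q * P))) * z := by
      simp only [mul_assoc]
    rw [this, f1, zero_mul]
  have f2 := F2 H h hQ
  have f2' : ∀ z : R, Q * (P * (Q * (P * z))) = -(P * (Q * (P * (Q * z)))) := fun z => by
    have : Q * (P * (Q * (P * z))) = Q * (P * (Q * P)) * z := by simp only [mul_assoc]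
    rw [this, f2]
    noncomm_ring
  obtain ⟨c, hc, hcP⟩ := h.un
  obtain ⟨q, hqE, hqQ⟩ := (h.conj hQ).un
  have hc' := inv_val h hcP
  have hqi := inv_val (h.conj hQ) hqQ
  -- the conjugate `t = q c q⁻¹`
  set T : R := P + Q * P - P * Q - Q * (P * Q) with hT
  have hTe : T = q * P * ((q⁻¹ : Rˣ) : R) := by
    rw [hqQ, hqi, hT]
    noncomm_ring
  have hTC : T ∈ Cj E P := by
    rw [hTe]
    exact ⟨q, hqE, rfl⟩
  have hTT : T * T = 0 := (h.conj hTC).sq
  have ht : ((q * c * q⁻¹ : Rˣ) : R) = 1 + T := by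
    rw [Units.val_mul, Units.val_mul, hcP, mul_add, add_mul, mul_one, Units.mul_inv, hTe]
  have ht' : (((q * c * q⁻¹)⁻¹ : Rˣ) : R) = 1 - T := inv_val (h.conj hTC) ht
  have hTP : T * P = -(P * (Q * P)) + P * (Q * (P * Q)) := by
    rw [hT]
    simp only [add_mul, sub_mul, mul_assoc, hp, mul_zero, zero_add, add_zero, f2, zero_sub]
    abel
  have hPT : P * T = P * (Q * P) - P * (Q * (P * Q)) := by
    rw [hT]
    simp only [mul_add, mul_sub, hp, hp', zero_add, sub_zero]
  have hPTP : P * T * P = 0 := by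
    rw [hPT]
    simp only [sub_mul, mul_assoc, hp, mul_zero, f1, sub_zero]
  have hTPT : T * P * T = 0 := by
    rw [hTP, hT]
    simp only [add_mul, mul_add, mul_sub, neg_mul, mul_assoc, hp, hp', hq, hq', f1, f1', mul_zero,
      neg_zero, add_zero, sub_zero]
  have hz : ((⁅q * c * q⁻¹, c⁆ : Rˣ) : R) - 1 = - (2 * (P * (Q * (P * (1 - Q))))) := by
    rw [comm_formula ht hcP ht' hc' hTT hp, hPTP, hTPT, hTP, hPT]
    noncomm_ring
  have hxs := fun x hx => s_x_s H h hQ (x := x) hx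
  have hxys := fun x hx y hy => s_x_y_s H h hQ (x := x) (y := y) hx hy
  have hsm := s_mem H h hQ
  set Z : R := -(2 * (P * (Q * (P * (1 - Q))))) with hZ
  have Z1 : Z = -(2 * ((1 + Q) * (P * (Q * P)))) := by
    rw [hZ]
    have : (1 + Q) * (P * (Q * P)) = P * (Q * P) + Q * (P * (Q * P)) := by noncomm_ring
    rw [this, f2]
    noncomm_ring
  have Z2 : Z = -(2 * (P * (Q * P) * (1 - Q))) := by
    rw [hZ]
    simp only [mul_assoc]
  have key : ∀ x ∈ PP E P, ∀ y ∈ PP E P, Z * (-(2 * ((1 + x) * y)) * Z) = 0 := by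
    intro x hx y hy
    have e : Z * (-(2 * ((1 + x) * y)) * Z) = -(8 * ((1 + Q) *
        ((P * (Q * (P * (y * (P * (Q * P))))) + P * (Q * (P * (x * (y * (P * (Q * P))))))) *
          (1 - Q)))) := by
      nth_rewrite 1 [Z1]
      rw [Z2]
      noncomm_ring
    rw [e, hxs y hy, hxys x hx y hy]
    simp
  refine ⟨⟨?_, ⟨⁅q * c * q⁻¹, c⁆, ?_, ?_⟩⟩, ?_⟩
  · nth_rewrite 2 [Z1]
    rw [Z2]
    have : -(2 * (P * (Q * P) * (1 - Q))) * -(2 * ((1 + Q) * (P * (Q * P)))) =
      4 * (P * (Q * (P * ((1 - Q * Q) * (P * (Q * P)))))) := by noncomm_ring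
    rw [this, hq, sub_zero, one_mul, hp', mul_zero, mul_zero, mul_zero]
  · rw [commutatorElement_def]
    have h1 : q * c * q⁻¹ ∈ E := mul_mem (mul_mem hqE hc) (inv_mem hqE)
    exact mul_mem (mul_mem (mul_mem h1 hc) (inv_mem h1)) (inv_mem hc)
  · rw [← hz]
    abel
  · rintro Y ⟨g, hg, rfl⟩
    have e : (g : R) * Z * ((g⁻¹ : Rˣ) : R) = -(2 * ((1 + g * Q * ((g⁻¹ : Rˣ) : R)) *
        (g * (P * (Q * P)) * ((g⁻¹ : Rˣ) : R)))) := by
      rw [Z1]
      have e1 : (g : R) * Q * ((g⁻¹ : Rˣ) : R) * (g * (P * (Q * P)) * ((g⁻¹ : Rˣ) : R)) =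
        g * (Q * ((((g⁻¹ : Rˣ) : R) * g) * (P * (Q * P)))) * ((g⁻¹ : Rˣ) : R) := by
        simp only [mul_assoc]
      have e2 : (1 + g * Q * ((g⁻¹ : Rˣ) : R)) * (g * (P * (Q * P)) * ((g⁻¹ : Rˣ) : R)) =
          g * (P * (Q * P)) * ((g⁻¹ : Rˣ) : R) + g * (Q * (P * (Q * P))) * ((g⁻¹ : Rˣ) : R) := by
        rw [add_mul, one_mul, e1, Units.inv_mul, one_mul]
      rw [e2]
      noncomm_ring
    rw [e]
    exact key _ (PP_conj (Cj_sub_PP hQ) hg) _ (PP_conj hsm hg)

/-- If there are no nontrivial sandwiches, there are no nontrivial quadratic elements. -/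
theorem quad_of_san {E : Subgroup Rˣ} (H : Uni E) (hs : ∀ P : R, San E P → P = 0) (P : R)
    (h : Qe E P) : P = 0 := by
  refine hs P ⟨h, fun Q hQ => ?_⟩
  have h1 := hs _ (z_san H h hQ)
  obtain ⟨q, hqE, hqQ⟩ := (h.conj hQ).un
  have hqi := inv_val (h.conj hQ) hqQ
  have h2 : P * (Q * (P * (1 - Q))) = 0 := by
    apply two_mul_zero H
    rw [← neg_eq_zero]
    exact h1
  have h3 : P * (Q * P) * ((q⁻¹ : Rˣ) : R) = 0 := by
    rw [hqi]
    simpa only [mul_assoc] using h2
  exact (Units.mul_left_eq_zero _).1 h3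

end Pool.Agent.Helper140_E5
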