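import Pool.Agent.Helper140_E5.Cube
import Pool.Agent.Helper140_E5.Cen

/-!
# Groups of units with `(h - 1) ^ 4 = 0` are trivial in semiprime spanned rings
-/

set_option autoImplicit false

namespace Pool.Agent.Helper140_E5

open Subgroup
open scoped commutatorElement

universe u

variable {R : Type u} [Ring R] {E : Subgroup Rˣ}

theorem two_engel (H : Uni E) (sp : Sp E) {x y : Rˣ} (hx : x ∈ E) (hy : y ∈ E) :
    ⁅⁅y, x⁆, x⁆ = 1 := by
  have hK : closure ({x, y} : Set Rˣ) ≤ E := by
    rw [closure_le]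
    rintro z (rfl | hz)
    · exact hx
    · rw [Set.mem_singleton_iff] at hz
      subst hz
      exact hy
  have mx : x ∈ closure ({x, y} : Set Rˣ) := subset_closure (by simp)
  have my : y ∈ closure ({x, y} : Set Rˣ) := subset_closure (by simp)
  have hfin := two_fin_units H hx hy
  set K := closure ({x, y} : Set Rˣ) with hKd
  have h5 : ∀ z : K, z ^ 5 = 1 := fun z => Subtype.ext (pow5 H (hK z.2))
  have : Fact (Nat.Prime 5) := ⟨by norm_num⟩
  have hp : IsPGroup 5 K := fun z => ⟨1, by rw [pow_one]; exact h5 z⟩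
  obtain ⟨n, hn⟩ := (hp.isNilpotent : Group.IsNilpotent K)
  have key : ∀ n : ℕ, ∀ v ∈ Subgroup.upperCentralSeries K n, ∀ g : K, ⁅⁅v, g⁆, g⁆ = 1 := by
    intro n
    induction n with
    | zero =>
      intro v hv g
      rw [Subgroup.upperCentralSeries_zero, mem_bot] at hv
      subst hv
      simp
    | succ n ih =>
      intro v hv g
      have hv' := Subgroup.mem_upperCentralSeries_succ_iff.1 hv g
      obtain ⟨c1, c2⟩ := cen h5 _ (inferInstance : (Subgroup.upperCentralSeries K n).Normal) ih v g hv'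
      have h3 := cub3 H (hK v.2) (hK g.2) (s := ((⁅⁅v, g⁆, g⁆ : K) : Rˣ)) rfl
        (congrArg Subtype.val c1.eq) (congrArg Subtype.val c2.eq)
      exact Subtype.ext (cubic_trivial H sp (hK (⁅⁅v, g⁆, g⁆ : K).2) h3)
  have := key n ⟨y, my⟩ (by rw [hn]; trivial) ⟨x, mx⟩
  exact congrArg Subtype.val this

theorem sp_trivial (H : Uni E) (sp : Sp E) {x : Rˣ} (hx : x ∈ E) : x = 1 :=
  comm_trivial H sp hx fun _ hy => two_engel H sp hx hy

end Pool.Agent.Helper140_E5
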