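import Pool.Agent.Helper140_E5.Act
import Pool.Agent.Helper140_E5.Quad

/-!
# Two-generator groups of units with `(h - 1) ^ 4 = 0` are finite
-/

set_option autoImplicit false

namespace Pool.Agent.Helper140_E5

open Subgroup
open scoped commutatorElement

universe u

variable {R : Type u} [Ring R]

/-- left multiplication -/
def lmul (K : Subgroup Rˣ) : K →* AddMonoid.End R where
  toFun g := AddMonoidHom.mulLeft ((g : Rˣ) : R)
  map_one' := by
    refine AddMonoidHom.ext fun v => ?_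
    change ((1 : Rˣ) : R) * v = v
    rw [Units.val_one, one_mul]
  map_mul' g h := by
    refine AddMonoidHom.ext fun v => ?_
    change (((g : Rˣ) * (h : Rˣ) : Rˣ) : R) * v = (g : Rˣ) * ((h : Rˣ) * v)
    rw [Units.val_mul, mul_assoc]

theorem lmul_app (K : Subgroup Rˣ) (g : K) (v : R) : lmul K g v = ((g : Rˣ) : R) * v := rfl

theorem lmul_act {E : Subgroup Rˣ} (H : Uni E) {K : Subgroup Rˣ} (hK : K ≤ E) :
    Act5 (lmul K) := by
  constructor
  · intro v
    rw [nsmul_eq_mul]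
    have : ((5 : ℕ) : R) = 5 := by norm_num
    rw [this, H.five, zero_mul]
  · intro g v
    simp only [lmul_app, Subgroup.coe_pow, Units.val_pow_eq_pow_val]
    have h1 := H.law g (hK g.2)
    set x : R := ((g : Rˣ) : R)
    have : v + x * v + x ^ 2 * v + x ^ 3 * v + x ^ 4 * v =
        (x - 1) ^ 4 * v + 5 * ((x ^ 3 - x ^ 2 + x) * v) := by noncomm_ring
    rw [this, h1, H.five]
    simp

theorem pow5 {E : Subgroup Rˣ} (H : Uni E) {u : Rˣ} (hu : u ∈ E) : u ^ 5 = 1 := by
  rw [Units.ext_iff, Units.val_pow_eq_pow_val, Units.val_one]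
  have h1 := H.law u hu
  have : (u : R) ^ 5 = 1 + ((u : R) - 1) ^ 4 * ((u : R) - 1) +
      5 * ((u : R) ^ 4 - 2 * (u : R) ^ 3 + 2 * (u : R) ^ 2 - (u : R)) := by noncomm_ring
  rw [this, h1, H.five]
  simp

theorem fin_sub_closure {E : Subgroup Rˣ} (H : Uni E) {s : Set R} (hs : s.Finite) :
    (AddSubgroup.closure s : Set R).Finite := by
  have := fin_closure (V := R) (fun v => by
    rw [nsmul_eq_mul]
    have : ((5 : ℕ) : R) = 5 := by norm_num
    rw [this, H.five, zero_mul]) s hs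
  exact Set.toFinite _

theorem fin_units {K : Subgroup Rˣ} {S : Set R} (hS : S.Finite) (h : ∀ g ∈ K, (g : R) ∈ S) :
    Finite K := by
  have := hS.to_subtype
  refine Finite.of_injective (fun g : K => (⟨((g : Rˣ) : R), h g g.2⟩ : S)) ?_
  intro a b hab
  exact Subtype.ext (Units.ext (congrArg Subtype.val hab))

theorem two_fin_units {E : Subgroup Rˣ} (H : Uni E) {x y : Rˣ} (hx : x ∈ E) (hy : y ∈ E) :
    Finite (closure ({x, y} : Set Rˣ)) := by
  have hK : closure ({x, y} : Set Rˣ) ≤ E := by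
    rw [closure_le]
    rintro z (rfl | hz)
    · exact hx
    · rw [Set.mem_singleton_iff] at hz
      subst hz
      exact hy
  have mx : x ∈ closure ({x, y} : Set Rˣ) := subset_closure (by simp)
  have my : y ∈ closure ({x, y} : Set Rˣ) := subset_closure (by simp)
  have hc : closure ({⟨x, mx⟩, ⟨y, my⟩} : Set (closure ({x, y} : Set Rˣ))) = ⊤ := by
    rw [← closure_closure_coe_preimage]
    congr 1
    ext z
    obtain ⟨z, hz⟩ := z
    simp [Subtype.ext_iff]
  obtain ⟨s, h1, h2⟩ := two_fin (lmul_act H hK) _ _ hc (1 : R)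
  refine fin_units (fin_sub_closure H s.finite_toSet) fun g hg => ?_
  have := h2 ⟨g, hg⟩ 1 h1
  rw [lmul_app, mul_one] at this
  exact this

/-- For cubic `x` the element `[y, x, x]` is quadratic. -/
theorem cubic_comm {E : Subgroup Rˣ} (H : Uni E) {x y : Rˣ} (hx : x ∈ E) (hy : y ∈ E)
    (h3 : ((x : R) - 1) ^ 3 = 0) :
    (((⁅⁅y, x⁆, x⁆ : Rˣ) : R) - 1) * (((⁅⁅y, x⁆, x⁆ : Rˣ) : R) - 1) = 0 := by
  have HA := lmul_act H (le_refl E)
  have hc : Cub (le (lmul E) ⟨x, hx⟩ ⟨y, hy⟩) := by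
    intro v
    change 4 • v + 3 • ((x : R) * v) + (2 • ((x : R) * ((x : R) * v)) +
      (x : R) * ((x : R) * ((x : R) * v))) = 0
    have : 4 • v + 3 • ((x : R) * v) + (2 • ((x : R) * ((x : R) * v)) +
      (x : R) * ((x : R) * ((x : R) * v))) = ((x : R) - 1) ^ 3 * v +
        5 * (v + (x : R) * ((x : R) * v)) := by noncomm_ring
    rw [this, h3, H.five]
    simp
  have h := chkW_snd (law_le HA _ _) hc a2_ok (1 : R)
  rw [act_le, act_le, lmul_app, lmul_app, mul_one] at h
  have hw : ((wg (⟨x, hx⟩ : E) ⟨y, hy⟩ a2_w : E) : Rˣ) = ⁅⁅y, x⁆, x⁆ := by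
    simp only [a2_w, wg, lg, commutatorElement_def, Subgroup.coe_mul, Subgroup.coe_one,
      InvMemClass.coe_inv]
    group
  rw [hw] at h
  set w : R := ((⁅⁅y, x⁆, x⁆ : Rˣ) : R)
  have : (w - 1) * (w - 1) = 1 + (3 • w + w * w) - 5 * w := by noncomm_ring
  rw [this, h, H.five]
  simp

end Pool.Agent.Helper140_E5
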