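import Pool.Agent.Helper140_E5.Lst
import Pool.Agent.Helper140_E5.UFin
import Pool.Agent.Y50.FE.GL

/-!
# Sandwiches in semiprime rings are trivial
-/

set_option autoImplicit false

namespace Pool.Agent.Helper140_E5

open Subgroup
open scoped commutatorElement

universe u

variable {R : Type u} [Ring R]

/-- the semiprimeness condition -/
def Sp (E : Subgroup Rˣ) : Prop := ∀ r : R, (∀ h ∈ E, r * ((h : Rˣ) : R) * r = 0) → r = 0

section
variable {E : Subgroup Rˣ} {P : R}

/-- products with repetitions vanish -/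
theorem dup_zero (H : Uni E) (h : San E P) : ∀ l : List R, (∀ x ∈ l, x ∈ Cj E P) → ¬ l.Nodup →
    l.prod = 0
  | [], _, hn => absurd List.nodup_nil hn
  | x :: l, hl, hn => by
    by_cases hx : x ∈ l
    · obtain ⟨a, b, rfl⟩ := List.append_of_mem hx
      have h1 : x * (a.prod * x) = 0 := by
        have hxC : x ∈ Cj E P := hl x (by simp)
        refine san_list H (h.conj hxC) _ a rfl fun y hy => ?_
        rw [PP_eq hxC]
        exact Cj_sub_PP (hl y (by simp [hy]))
      have : (x :: (a ++ x :: b)).prod = x * (a.prod * x) * b.prod := by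
        simp only [List.prod_cons, List.prod_append, mul_assoc]
      rw [this, h1, zero_mul]
    · rw [List.nodup_cons, not_and] at hn
      rw [List.prod_cons, dup_zero H h l (fun y hy => hl y (by simp [hy])) (hn hx), mul_zero]

theorem long_zero (H : Uni E) (h : San E P) {S : Set R} (hS : S.Finite) (hSC : S ⊆ Cj E P)
    (l : List R) (hl : ∀ x ∈ l, x ∈ S) (hn : hS.toFinset.card < l.length) : l.prod = 0 := by
  classical
  refine dup_zero H h l (fun x hx => hSC (hl x hx)) fun hnd => ?_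
  rw [← List.toFinset_card_of_nodup hnd] at hn
  refine absurd (Finset.card_le_card ?_) (not_le.2 hn)
  intro x hx
  rw [Set.Finite.mem_toFinset]
  exact hl x (List.mem_toFinset.1 hx)

theorem fin_lists {S : Set R} (hS : S.Finite) (n : ℕ) :
    {l : List R | (∀ x ∈ l, x ∈ S) ∧ l.length ≤ n}.Finite := by
  have := hS.to_subtype
  refine ((List.finite_length_le S n).image (List.map Subtype.val)).subset ?_
  rintro l ⟨h1, h2⟩
  refine ⟨l.attach.map fun x => ⟨x.1, h1 x.1 x.2⟩, ?_, ?_⟩
  · change (l.attach.map _).length ≤ n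
    simpa using h2
  · rw [List.map_map]
    change l.attach.map (fun x => x.1) = l
    exact List.attach_map_subtype_val l

/-- A sandwich and a finite group generate a finite group. -/
theorem san_fin (H : Uni E) (h : San E P) {c : Rˣ} (hcP : (c : R) = 1 + P)
    {F : Subgroup Rˣ} (hF : F ≤ E) [Finite F] {K : Subgroup Rˣ}
    (hK : K = closure (insert c (F : Set Rˣ))) (hKE : K ≤ E) : Finite K := by
  classical
  set S : Set R := (fun f : Rˣ => (f : R) * P * ((f⁻¹ : Rˣ) : R)) '' (F : Set Rˣ) with hS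
  have hFf : (F : Set Rˣ).Finite := Set.toFinite _
  have hSf : S.Finite := hFf.image _
  have hSC : S ⊆ Cj E P := by
    rintro _ ⟨f, hf, rfl⟩
    exact ⟨f, hF hf, rfl⟩
  have hPS : P ∈ S := ⟨1, one_mem _, by simp⟩
  set n := hSf.toFinset.card with hn
  set G : Set R := (fun p : List R × Rˣ => p.1.prod * ((p.2 : Rˣ) : R)) ''
    ({l : List R | (∀ x ∈ l, x ∈ S) ∧ l.length ≤ n} ×ˢ (F : Set Rˣ)) with hG
  have hGf : G.Finite := ((fin_lists hSf n).prod hFf).image _
  set M := AddSubgroup.closure G with hM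
  have hMf : (M : Set R).Finite := fin_sub_closure H hGf
  have hin : ∀ l : List R, (∀ x ∈ l, x ∈ S) → ∀ f ∈ F, l.prod * ((f : Rˣ) : R) ∈ M := by
    intro l hl f hf
    by_cases hc : l.length ≤ n
    · exact AddSubgroup.subset_closure ⟨(l, f), ⟨⟨hl, hc⟩, hf⟩, rfl⟩
    · rw [long_zero H h hSf hSC l hl (by omega), zero_mul]
      exact zero_mem _
  have h1 : (1 : R) ∈ M := by
    have := hin [] (by simp) 1 (one_mem _)
    simpa using this
  have hgen : ∀ g ∈ insert c (F : Set Rˣ), ∀ m ∈ M, (g : R) * m ∈ M := by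
    intro g hg m hm
    induction hm using AddSubgroup.closure_induction with
    | mem m hm =>
      obtain ⟨⟨l, f⟩, ⟨⟨hl, -⟩, hf⟩, rfl⟩ := hm
      rcases hg with rfl | hg
      · have e1 := hin l hl f hf
        have e2 := hin (P :: l) (by
          intro x hx
          rcases List.mem_cons.1 hx with rfl | hx
          · exact hPS
          · exact hl x hx) f hf
        rw [hcP, add_mul, one_mul]
        refine add_mem e1 ?_
        rwa [List.prod_cons, mul_assoc] at e2
      · have e1 := hin (l.map fun x => (g : R) * x * ((g⁻¹ : Rˣ) : R)) (by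
          intro x hx
          obtain ⟨y, hy, rfl⟩ := List.mem_map.1 hx
          obtain ⟨f', hf', rfl⟩ := hl y hy
          refine ⟨g * f', mul_mem hg hf', ?_⟩
          simp only [mul_inv_rev, Units.val_mul, mul_assoc]) (g * f) (mul_mem hg hf)
        have e2 : ∀ l : List R, (l.map fun x => (g : R) * x * ((g⁻¹ : Rˣ) : R)).prod =
            g * l.prod * ((g⁻¹ : Rˣ) : R) := by
          intro l
          induction l with
          | nil => simp
          | cons x l ih =>
            rw [List.map_cons, List.prod_cons, ih, List.prod_cons]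
            have : (g : R) * x * ((g⁻¹ : Rˣ) : R) * (g * l.prod * ((g⁻¹ : Rˣ) : R)) =
              g * (x * ((((g⁻¹ : Rˣ) : R) * g) * l.prod)) * ((g⁻¹ : Rˣ) : R) := by
              simp only [mul_assoc]
            rw [this, Units.inv_mul, one_mul]
        rw [e2] at e1
        have e3 : (g : R) * l.prod * ((g⁻¹ : Rˣ) : R) * ((g * f : Rˣ) : R) =
            g * (l.prod * ((f : Rˣ) : R)) := by
          rw [Units.val_mul]
          have : (g : R) * l.prod * ((g⁻¹ : Rˣ) : R) * (g * ((f : Rˣ) : R)) =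
            g * l.prod * (((g⁻¹ : Rˣ) : R) * g) * ((f : Rˣ) : R) := by simp only [mul_assoc]
          rw [this, Units.inv_mul, mul_one, mul_assoc]
        rw [e3] at e1
        exact e1
    | zero => rw [mul_zero]; exact zero_mem _
    | add a b _ _ ha hb => rw [mul_add]; exact add_mem ha hb
    | neg a _ ha => rw [mul_neg]; exact neg_mem ha
  have hst : ∀ g ∈ K, ∀ m ∈ M, (g : R) * m ∈ M := by
    intro g hg
    have hgE := hKE hg
    rw [hK] at hg
    induction hg using closure_induction with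
    | mem g hg => exact hgen g hg
    | one => intro m hm; rw [Units.val_one, one_mul]; exact hm
    | mul a b ha hb h1 h2 =>
      intro m hm
      rw [Units.val_mul, mul_assoc]
      rw [← hK] at ha hb
      exact h1 (hKE ha) _ (h2 (hKE hb) m hm)
    | inv a ha h1 =>
      intro m hm
      rw [← hK] at ha
      have e : a⁻¹ = a * (a * (a * a)) := by
        have := pow5 H (hKE ha)
        rw [inv_eq_iff_mul_eq_one]
        rw [← this, pow_succ', pow_succ', pow_succ', pow_two]
      rw [e, Units.val_mul, Units.val_mul, Units.val_mul, mul_assoc, mul_assoc, mul_assoc]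
      exact h1 (hKE ha) _ (h1 (hKE ha) _ (h1 (hKE ha) _ (h1 (hKE ha) m hm)))
  refine fin_units hMf fun g hg => ?_
  have := hst g hg 1 h1
  rwa [mul_one] at this

/-- Quadratic elements commuting with their conjugates are trivial. -/
theorem comm_quad (H : Uni E) (sp : Sp E) (h : Qe E P) (hc : ∀ Q ∈ Cj E P, Q * P = P * Q) :
    P = 0 := by
  have hc2 : ∀ Q ∈ Cj E P, ∀ S ∈ Cj E P, Q * S = S * Q := by
    intro Q hQ S hS
    obtain ⟨g, hg, rfl⟩ := hS
    have h1 := hc _ (Cj_conj hQ (inv_mem hg))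
    rw [inv_inv] at h1
    have e1 : Q * (g * P * ((g⁻¹ : Rˣ) : R)) =
        g * ((((g⁻¹ : Rˣ) : R) * Q * g) * P) * ((g⁻¹ : Rˣ) : R) := by
      have : (g : R) * ((((g⁻¹ : Rˣ) : R) * Q * g) * P) * ((g⁻¹ : Rˣ) : R) =
        (g * ((g⁻¹ : Rˣ) : R)) * (Q * (g * P * ((g⁻¹ : Rˣ) : R))) := by simp only [mul_assoc]
      rw [this, Units.mul_inv, one_mul]
    have e2 : (g * P * ((g⁻¹ : Rˣ) : R)) * Q =
        g * (P * (((g⁻¹ : Rˣ) : R) * Q * g)) * ((g⁻¹ : Rˣ) : R) := by
      have : (g : R) * (P * (((g⁻¹ : Rˣ) : R) * Q * g)) * ((g⁻¹ : Rˣ) : R) =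
        (g * P * ((g⁻¹ : Rˣ) : R)) * Q * (g * ((g⁻¹ : Rˣ) : R)) := by simp only [mul_assoc]
      rw [this, Units.mul_inv, mul_one]
    rw [e1, e2, h1]
  have key : ∀ A ∈ Cj E P, ∀ B ∈ Cj E P, ∀ C ∈ Cj E P, ∀ D ∈ Cj E P, A * (B * (C * D)) = 0 := by
    intro A hA B hB C hC D hD
    have h0 := sym_PP H h A (Cj_sub_PP hA) B (Cj_sub_PP hB) C (Cj_sub_PP hC) D (Cj_sub_PP hD)
    have ab := hc2 A hA B hB
    have ac := hc2 A hA C hC
    have ad := hc2 A hA D hD
    have bc := hc2 B hB C hC
    have bd := hc2 B hB D hD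
    have cd := hc2 C hC D hD
    have l : ∀ {x y : R}, x * y = y * x → ∀ z, y * (x * z) = x * (y * z) := fun {x y} hxy z => by
      rw [← mul_assoc, ← hxy, mul_assoc]
    have h1 : D3 A B C D = 24 * (A * (B * (C * D))) := by
      unfold D3
      simp only [mul_assoc, ← ab, ← ac, ← ad, ← bc, ← bd, ← cd, l ab, l ac, l ad, l bc, l bd, l cd]
      noncomm_ring
    have h2 : A * (B * (C * D)) = 5 * (5 * (A * (B * (C * D)))) - 24 * (A * (B * (C * D))) := by
      noncomm_ring
    rw [h2, ← h1, h0, H.five]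
    simp
  have cv : ∀ g : Rˣ, ∀ x : R, (g : R) * x = (g * P * ((g⁻¹ : Rˣ) : R)) * 0 + g * x := by
    intro g x
    simp
  have pg : ∀ g : Rˣ, (g : R) * P = (g * P * ((g⁻¹ : Rˣ) : R)) * g := by
    intro g
    rw [mul_assoc, Units.inv_mul, mul_one]
  refine sp P fun h1 hh1 => ?_
  refine sp _ fun h2 hh2 => ?_
  have e : P * ((h1 : Rˣ) : R) * P * ((h2 : Rˣ) : R) * (P * ((h1 : Rˣ) : R) * P) =
      (P * ((h1 * P * ((h1⁻¹ : Rˣ) : R)) * (((h1 * h2 : Rˣ) : R) * P * (((h1 * h2)⁻¹ : Rˣ) : R) *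
        (((h1 * h2 * h1 : Rˣ) : R) * P * (((h1 * h2 * h1)⁻¹ : Rˣ) : R))))) *
          ((h1 * h2 * h1 : Rˣ) : R) := by
    have e1 : ∀ x : R, (((h1 * h2 * h1)⁻¹ : Rˣ) : R) * (((h1 * h2 * h1 : Rˣ) : R) * x) = x := by
      intro x
      rw [← mul_assoc, Units.inv_mul, one_mul]
    simp only [mul_assoc, Units.inv_mul, mul_one]
    simp only [Units.val_mul, mul_inv_rev, mul_assoc, Units.inv_mul_cancel_left]
  rw [e, key P self_Cj _ ⟨h1, hh1, rfl⟩ _ ⟨h1 * h2, mul_mem hh1 hh2, rfl⟩ _
    ⟨h1 * h2 * h1, mul_mem (mul_mem hh1 hh2) hh1, rfl⟩, zero_mul]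

end

end Pool.Agent.Helper140_E5
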