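import Pool.Agent.Helper140_E5.SanF
import Pool.Agent.Y50.FE.GL

/-!
# Quadratic elements in semiprime rings are trivial
-/

set_option autoImplicit false
set_option linter.unusedSimpArgs false

namespace Pool.Agent.Helper140_E5

open Subgroup
open scoped commutatorElement

universe u

variable {R : Type u} [Ring R] {E : Subgroup Rˣ} {P : R}

theorem conj_val {c : Rˣ} (hcP : (c : R) = 1 + P) (g : Rˣ) :
    ((g * c * g⁻¹ : Rˣ) : R) = 1 + g * P * ((g⁻¹ : Rˣ) : R) := by
  rw [Units.val_mul, Units.val_mul, hcP, mul_add, add_mul, mul_one, Units.mul_inv]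

theorem triple_one (h : San E P) {c : Rˣ} (hc : c ∈ E) (hcP : (c : R) = 1 + P) {v : Rˣ}
    (hv : v ∈ E) : ⁅⁅⁅v, c⁆, c⁆, c⁆ = 1 := by
  rw [comm_comm v c, comm_comm (v * c * v⁻¹) c]
  set q := v * c * v⁻¹ with hq
  have hqE : q ∈ E := mul_mem (mul_mem hv hc) (inv_mem hv)
  set Q : R := v * P * ((v⁻¹ : Rˣ) : R) with hQ
  have hQC : Q ∈ Cj E P := ⟨v, hv, rfl⟩
  have hqQ : (q : R) = 1 + Q := conj_val hcP v
  have hqi : ((q⁻¹ : Rˣ) : R) = 1 - Q := inv_val (h.toQe.conj hQC) hqQ
  set T : R := q * P * ((q⁻¹ : Rˣ) : R) with hT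
  have hTC : T ∈ Cj E P := ⟨q, hqE, rfl⟩
  have ht : ((q * c * q⁻¹ : Rˣ) : R) = 1 + T := conj_val hcP q
  have ht' := inv_val (h.toQe.conj hTC) ht
  have hc' := inv_val h.toQe hcP
  have hp : P * P = 0 := h.sq
  have hp' : ∀ z : R, P * (P * z) = 0 := fun z => by rw [← mul_assoc, hp, zero_mul]
  have h1 : P * (Q * P) = 0 := h.san Q hQC
  have h2 : Q * (P * Q) = 0 := (h.conj hQC).san P (Cj_symm hQC)
  have hT2 : T = P + Q * P - P * Q := by
    rw [hT, hqQ, hqi]
    have : (1 + Q) * P * (1 - Q) = P + Q * P - P * Q - Q * (P * Q) := by noncomm_ring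
    rw [this, h2, sub_zero]
  have hTP : T * P = 0 := by
    rw [hT2]
    simp only [add_mul, sub_mul, mul_assoc, hp, h1, mul_zero, add_zero, sub_zero]
  have hPT : P * T = 0 := by
    rw [hT2]
    simp only [mul_add, mul_sub, hp, hp', h1, add_zero, sub_zero]
  have h3 := comm_formula ht hcP ht' hc' (h.toQe.conj hTC).sq hp
  rw [hTP, hPT] at h3
  simp only [zero_mul, sub_zero, add_zero] at h3
  rw [Units.ext_iff, Units.val_one, ← sub_eq_zero]
  exact h3

/-- Sandwiches in semiprime rings are trivial. -/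
theorem san_trivial (H : Uni E) (sp : Sp E) (h : San E P) : P = 0 := by
  obtain ⟨c, hc, hcP⟩ := h.un
  have hp : P * P = 0 := h.sq
  have hp' : ∀ z : R, P * (P * z) = 0 := fun z => by rw [← mul_assoc, hp, zero_mul]
  refine comm_quad H sp h.toQe ?_
  rintro Q ⟨g, hg, rfl⟩
  set Q : R := g * P * ((g⁻¹ : Rˣ) : R) with hQ
  have hQC : Q ∈ Cj E P := ⟨g, hg, rfl⟩
  have hqQ : ((g * c * g⁻¹ : Rˣ) : R) = 1 + Q := conj_val hcP g
  have hqi := inv_val (h.toQe.conj hQC) hqQ
  have hci := inv_val h.toQe hcP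
  have hq : Q * Q = 0 := (h.toQe.conj hQC).sq
  have hq' : ∀ z : R, Q * (Q * z) = 0 := fun z => by rw [← mul_assoc, hq, zero_mul]
  have h1 : P * (Q * P) = 0 := h.san Q hQC
  have h2 : Q * (P * Q) = 0 := (h.conj hQC).san P (Cj_symm hQC)
  -- the commutator
  have hW : ((⁅g * c * g⁻¹, c⁆ : Rˣ) : R) - 1 = Q * P - P * Q := by
    rw [comm_formula hqQ hcP hqi hci hq hp, mul_assoc P Q P, mul_assoc Q P Q, h1, h2]
    simp
  set w : Rˣ := ⁅g * c * g⁻¹, c⁆ with hw
  have hwE : w ∈ E := by
    rw [hw, commutatorElement_def]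
    have : g * c * g⁻¹ ∈ E := mul_mem (mul_mem hg hc) (inv_mem hg)
    exact mul_mem (mul_mem (mul_mem this hc) (inv_mem this)) (inv_mem hc)
  have hwW : (w : R) = 1 + (Q * P - P * Q) := by rw [← hW]; abel
  have qe : Qe E (Q * P - P * Q) := by
    refine ⟨?_, w, hwE, hwW⟩
    simp only [mul_sub, sub_mul, mul_assoc, hp', hq', h1, h2, mul_zero, sub_zero]
  have hcom : ∀ k ∈ E, ⁅⁅k, w⁆, w⁆ = 1 := by
    intro k hk
    have hgk : closure ({g, k} : Set Rˣ) ≤ E := by
      rw [closure_le]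
      rintro z (rfl | hz)
      · exact hg
      · rw [Set.mem_singleton_iff] at hz
        subst hz
        exact hk
    have f1 := two_fin_units H hg hk
    have hcE : closure (insert c (closure ({g, k} : Set Rˣ) : Set Rˣ)) ≤ E := by
      rw [closure_le]
      rintro z (rfl | hz)
      · exact hc
      · exact hgk hz
    have f2 := san_fin H h hcP hgk rfl hcE
    have hle : closure ({c, g, k} : Set Rˣ) ≤
        closure (insert c (closure ({g, k} : Set Rˣ) : Set Rˣ)) := by
      refine closure_mono ?_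
      rintro z (rfl | rfl | hz)
      · exact Set.mem_insert _ _
      · exact Set.mem_insert_of_mem _ (subset_closure (by simp))
      · rw [Set.mem_singleton_iff] at hz
        subst hz
        exact Set.mem_insert_of_mem _ (subset_closure (by simp))
    have f3 : Finite (closure ({c, g, k} : Set Rˣ)) :=
      Finite.of_injective _ (Subgroup.inclusion_injective hle)
    have m0 : c ∈ closure ({c, g, k} : Set Rˣ) := subset_closure (by simp)
    have m1 : g ∈ closure ({c, g, k} : Set Rˣ) := subset_closure (by simp)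
    have m2 : k ∈ closure ({c, g, k} : Set Rˣ) := subset_closure (by simp)
    let s : ℕ → closure ({c, g, k} : Set Rˣ) :=
      fun e => if e = 0 then ⟨c, m0⟩ else if e = 1 then ⟨g, m1⟩ else ⟨k, m2⟩
    have hs : closure ({s 0, s 1, s 2} : Set (closure ({c, g, k} : Set Rˣ))) = ⊤ := by
      rw [← closure_closure_coe_preimage]
      congr 1
      ext x
      obtain ⟨x, hx⟩ := x
      simp [s, Subtype.ext_iff]
    have h5 : ∀ x : closure ({c, g, k} : Set Rˣ), x ^ 5 = 1 := fun x =>
      Subtype.ext (pow5 H (hcE (hle x.2)))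
    have h4 := Pool.Agent.Y50.FE.lemC h5 s hs (fun v =>
      Subtype.ext (triple_one h hc hcP (hcE (hle v.2))))
    have h6 : ⁅⁅k, ⁅⁅g, c⁆, c⁆⁆, ⁅⁅g, c⁆, c⁆⁆ = 1 := congrArg Subtype.val h4
    rwa [comm_comm g c] at h6
  have h0 : Q * P - P * Q = 0 := by
    refine comm_quad H sp qe ?_
    rintro Y ⟨k, hk, rfl⟩
    have h7 := hcom k hk
    rw [comm_comm k w, commutatorElement_eq_one_iff_mul_comm, Units.ext_iff,
      Units.val_mul (k * w * k⁻¹) w, Units.val_mul w, conj_val hwW k, hwW] at h7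
    have h8 : ∀ a b : R, (1 + a) * (1 + b) = (1 + b) * (1 + a) → a * b = b * a := by
      intro a b hab
      have : a * b - b * a = (1 + a) * (1 + b) - (1 + b) * (1 + a) := by noncomm_ring
      rw [hab, sub_self, sub_eq_zero] at this
      exact this
    exact h8 _ _ h7
  exact sub_eq_zero.1 h0

/-- Quadratic elements in semiprime rings are trivial. -/
theorem quad_trivial (H : Uni E) (sp : Sp E) {c : Rˣ} (hc : c ∈ E)
    (h : ((c : R) - 1) * ((c : R) - 1) = 0) : c = 1 := by
  have := quad_of_san H (fun P hP => san_trivial H sp hP) ((c : R) - 1)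
    ⟨h, c, hc, by abel⟩
  rw [Units.ext_iff, Units.val_one]
  exact sub_eq_zero.1 this

end Pool.Agent.Helper140_E5
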