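import Pool.Agent.Helper140_E5.Chk

/-!
# A checker for vector enumerations over the field with five elements: packed vectors
-/

set_option autoImplicit false

namespace Pool.Agent.Helper140_E5

/-- digits bounded by `M`, at most `D` digits -/
def bd (M : ℕ) : ℕ → ℕ → Prop
  | 0, u => u = 0
  | D + 1, u => u % Bs ≤ M ∧ bd M D (u / Bs)

theorem bd_mono {M M' : ℕ} (h : M ≤ M') : ∀ {D u : ℕ}, bd M D u → bd M' D u
  | 0, _, hu => hu
  | _ + 1, _, hu => ⟨hu.1.trans h, bd_mono h hu.2⟩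

theorem bd_zero (M : ℕ) : ∀ D : ℕ, bd M D 0
  | 0 => rfl
  | D + 1 => ⟨by simp, by rw [Nat.zero_div]; exact bd_zero M D⟩

theorem bd_ext {M : ℕ} : ∀ {N D u : ℕ}, N ≤ D → bd M N u → bd M D u
  | 0, D, u, _, hu => by
    have : u = 0 := hu
    subst this
    exact bd_zero M D
  | N + 1, 0, _, h, _ => by omega
  | N + 1, D + 1, _, h, hu => ⟨hu.1, bd_ext (by omega) hu.2⟩

theorem bd_cut {M : ℕ} : ∀ {N D u : ℕ}, bd M D u → u < Bs ^ N → bd M N u
  | 0, D, u, _, h => by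
    have : u = 0 := by simpa using h
    exact this
  | N + 1, 0, u, hu, _ => by
    have : u = 0 := hu
    subst this
    exact bd_zero M _
  | N + 1, D + 1, u, hu, h => by
    refine ⟨hu.1, bd_cut hu.2 ?_⟩
    rw [Nat.div_lt_iff_lt_mul (by norm_num)]
    rwa [pow_succ] at h

universe u

variable {V : Type u} [AddCommGroup V]

/-- evaluation of a packed vector -/
def ev (s : ℕ → V) : ℕ → ℕ → V
  | 0, _ => 0
  | D + 1, u => (u % Bs) • s 0 + ev (fun i => s (i + 1)) D (u / Bs)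

theorem ev_zero : ∀ (D : ℕ) (s : ℕ → V), ev s D 0 = 0
  | 0, _ => rfl
  | D + 1, s => by
    unfold ev
    rw [Nat.zero_mod, Nat.zero_div, zero_smul, zero_add]
    exact ev_zero D _

theorem ev_congr : ∀ {D : ℕ} {s s' : ℕ → V} (_ : ∀ i < D, s i = s' i) (u : ℕ),
    ev s D u = ev s' D u
  | 0, _, _, _, _ => rfl
  | D + 1, s, s', h, u => by
    unfold ev
    rw [h 0 (by omega), ev_congr (fun i hi => h (i + 1) (by omega))]

theorem ev_map (f : V →+ V) : ∀ (D : ℕ) (s : ℕ → V) (u : ℕ),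
    f (ev s D u) = ev (fun i => f (s i)) D u
  | 0, _, _ => map_zero f
  | D + 1, s, u => by
    unfold ev
    rw [map_add, map_nsmul, ev_map f D]

theorem ev_ext {M : ℕ} : ∀ {N D : ℕ} {u : ℕ} (s : ℕ → V), N ≤ D → bd M N u →
    ev s D u = ev s N u
  | 0, D, u, s, _, hu => by
    have : u = 0 := hu
    subst this
    rw [ev_zero, ev_zero]
  | N + 1, 0, _, _, h, _ => by omega
  | N + 1, D + 1, u, s, h, hu => by
    unfold ev
    rw [ev_ext _ (by omega) hu.2]

theorem add_div_mod {u v : ℕ} (h : u % Bs + v % Bs < Bs) :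
    (u + v) % Bs = u % Bs + v % Bs ∧ (u + v) / Bs = u / Bs + v / Bs := by
  unfold Bs at *
  omega

theorem ev_add {M M' : ℕ} (h : M + M' < Bs) : ∀ (D : ℕ) (s : ℕ → V) (u v : ℕ), bd M D u →
    bd M' D v → bd (M + M') D (u + v) ∧ ev s D (u + v) = ev s D u + ev s D v
  | 0, _, u, v, hu, hv => by
    have h1 : u = 0 := hu
    have h2 : v = 0 := hv
    subst h1 h2
    exact ⟨rfl, by simp [ev]⟩
  | D + 1, s, u, v, hu, hv => by
    have h1 := hu.1
    have h2 := hv.1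
    obtain ⟨h3, h4⟩ := add_div_mod (u := u) (v := v) (by omega)
    obtain ⟨h5, h6⟩ := ev_add h D (fun i => s (i + 1)) (u / Bs) (v / Bs) hu.2 hv.2
    refine ⟨⟨by rw [h3]; omega, by rw [h4]; exact h5⟩, ?_⟩
    unfold ev
    rw [h3, h4, h6, add_smul]
    abel

theorem ev_mul {M D : ℕ} (s : ℕ → V) {u : ℕ} (hu : bd M D u) : ∀ c : ℕ, c * M < Bs →
    bd (c * M) D (c * u) ∧ ev s D (c * u) = c • ev s D u
  | 0, _ => by
    rw [Nat.zero_mul, zero_smul, Nat.zero_mul]
    exact ⟨bd_zero _ _, ev_zero _ _⟩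
  | c + 1, h => by
    obtain ⟨h1, h2⟩ := ev_mul s hu c (by
      have : c * M ≤ (c + 1) * M := Nat.mul_le_mul_right _ (by omega)
      omega)
    have h3 : c * M + M < Bs := by rwa [← Nat.succ_mul]
    obtain ⟨h4, h5⟩ := ev_add h3 D s (c * u) u h1 hu
    rw [← Nat.succ_mul, ← Nat.succ_mul] at h4
    refine ⟨h4, ?_⟩
    rw [show (c + 1) * u = c * u + u from Nat.succ_mul c u, h5, h2, succ_nsmul]

theorem ev_shift {M : ℕ} : ∀ (k : ℕ) {N D : ℕ} (s : ℕ → V) {u : ℕ}, bd M N u → k + N ≤ D →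
    bd M D (u * Bs ^ k) ∧ ev s D (u * Bs ^ k) = ev (fun i => s (i + k)) N u
  | 0, N, D, s, u, hu, h => by
    rw [pow_zero, mul_one]
    exact ⟨bd_ext (by omega) hu, ev_ext _ (by omega) hu⟩
  | k + 1, N, 0, s, u, hu, h => by omega
  | k + 1, N, D + 1, s, u, hu, h => by
    obtain ⟨h1, h2⟩ := ev_shift k (fun i => s (i + 1)) hu (D := D) (by omega)
    have e : u * Bs ^ (k + 1) = Bs * (u * Bs ^ k) := by ring
    have e1 : (u * Bs ^ (k + 1)) % Bs = 0 := by rw [e, Nat.mul_mod_right]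
    have e2 : (u * Bs ^ (k + 1)) / Bs = u * Bs ^ k := by
      rw [e, Nat.mul_div_cancel_left _ (by norm_num)]
    refine ⟨⟨by rw [e1]; omega, by rw [e2]; exact h1⟩, ?_⟩
    change ((u * Bs ^ (k + 1)) % Bs) • s 0 + ev (fun i => s (i + 1)) D
      ((u * Bs ^ (k + 1)) / Bs) = _
    rw [e1, e2, zero_smul, zero_add, h2]
    exact ev_congr (fun i _ => by rw [add_assoc]) _

theorem ev_one {D i : ℕ} (s : ℕ → V) (h : i < D) :
    bd 1 D (Bs ^ i) ∧ ev s D (Bs ^ i) = s i := by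
  have h1 : bd 1 1 1 := ⟨by norm_num, by norm_num [bd]⟩
  obtain ⟨h2, h3⟩ := ev_shift i s h1 (D := D) (by omega)
  rw [one_mul] at h2 h3
  refine ⟨h2, h3.trans ?_⟩
  simp [ev]

theorem rep_mul (D : ℕ) : rep D * 65535 = Bs ^ D - 1 := by
  have h : 65535 ∣ Bs ^ D - 1 := by
    have := Nat.sub_dvd_pow_sub_pow Bs 1 D
    simpa using this
  exact Nat.div_mul_cancel h

theorem rep_zero : rep 0 = 0 := rfl

theorem rep_succ (D : ℕ) : rep (D + 1) = 1 + Bs * rep D := by
  have h1 := rep_mul D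
  have h2 := rep_mul (D + 1)
  have h3 : 1 ≤ Bs ^ D := Nat.one_le_pow _ _ (by norm_num)
  have h4 : Bs ^ (D + 1) = Bs * Bs ^ D := by ring
  rw [h4] at h2
  unfold Bs at *
  omega

theorem land_digit {X c m : ℕ} (hc : c < Bs) (h : X &&& (c + Bs * m) = X) :
    (X % Bs) &&& c = X % Bs ∧ (X / Bs) &&& m = X / Bs := by
  have e1 : (c + Bs * m) % Bs = c := by
    rw [Nat.add_mul_mod_self_left, Nat.mod_eq_of_lt hc]
  have e2 : (c + Bs * m) / Bs = m := by
    rw [Nat.add_mul_div_left _ _ (by norm_num), Nat.div_eq_of_lt hc, zero_add]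
  have hB : Bs = 2 ^ 16 := by norm_num
  constructor
  · conv_rhs => rw [← h]
    rw [hB, Nat.and_mod_two_pow, ← hB, e1]
  · conv_rhs => rw [← h]
    rw [hB, Nat.and_div_two_pow, ← hB, e2]

theorem land_rep {c : ℕ} (hc : c < Bs) : ∀ (D : ℕ) (X : ℕ), X &&& (c * rep D) = X → bd c D X
  | 0, X, h => by
    rw [rep_zero, mul_zero, Nat.and_zero] at h
    exact h.symm
  | D + 1, X, h => by
    rw [rep_succ, mul_add, mul_one, show c * (Bs * rep D) = Bs * (c * rep D) by ring] at h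
    obtain ⟨h1, h2⟩ := land_digit hc h
    exact ⟨by rw [← h1]; exact Nat.and_le_right, land_rep hc D _ h2⟩

theorem frc_eq (n : ℕ) (f : ℕ → Bool) : frc n f = f n := by
  cases n <;> rfl

theorem and_eq {a b : Bool} : a.and b = true ↔ a = true ∧ b = true := by
  cases a <;> cases b <;> simp

theorem beq_eq {a b : ℕ} : Nat.beq a b = true ↔ a = b := by rw [Nat.beq_eq]

theorem blt_eq {a b : ℕ} : Nat.blt a b = true ↔ a < b := by
  unfold Nat.blt
  rw [Nat.ble_eq]
  exact Iff.rfl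

theorem ble_eq {a b : ℕ} : Nat.ble a b = true ↔ a ≤ b := by rw [Nat.ble_eq]

theorem rd_snd (h5 : ∀ v : V, (5 : ℕ) • v = 0) {D Y : ℕ} {k : ℕ → Bool} (s : ℕ → V)
    (h : rd D Y k = true) : ∃ X, bd 7 D X ∧ ev s D X = ev s D Y ∧ k X = true := by
  unfold rd at h
  simp only [frc_eq, and_eq, beq_eq] at h
  obtain ⟨h1, h2, h3, h4⟩ := h
  have b1 := land_rep (c := 7) (by norm_num) D _ h1
  have b2 := land_rep (c := 8191) (by norm_num) D _ h2
  refine ⟨_, b1, ?_, h4⟩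
  obtain ⟨b3, e3⟩ := ev_mul s b2 5 (by norm_num)
  obtain ⟨b4, e4⟩ := ev_add (by norm_num) D s _ _ b1 b3
  rw [e3, h5, add_zero] at e4
  exact e4.symm.trans (congrArg (ev s D) h3)

/-- a property of all stored numbers -/
def Al (P : ℕ → Prop) : T → Prop
  | .L => True
  | .N v l r => P v ∧ Al P l ∧ Al P r

theorem get_al {P : ℕ → Prop} (h0 : P 0) : ∀ (t : T), Al P t → ∀ n, P (t.get n)
  | .L, _, _ => h0
  | .N v l r, h, n => by
    cases n with
    | zero => exact h.1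
    | succ m =>
      change P (Bool.casesOn (motive := fun _ => ℕ) (Nat.beq (Nat.mod m 2) 0)
        (r.get (Nat.div m 2)) (l.get (Nat.div m 2)))
      cases Nat.beq (Nat.mod m 2) 0
      · exact get_al h0 r h.2.2 _
      · exact get_al h0 l h.2.1 _

theorem ins_al {P : ℕ → Prop} {x : ℕ} (hx : P x) : ∀ (t : T), Al P t → ∀ n, Al P (t.ins x n)
  | .L, _, _ => ⟨hx, trivial, trivial⟩
  | .N v l r, h, n => by
    cases n with
    | zero => exact ⟨hx, h.2.1, h.2.2⟩
    | succ m =>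
      change Al P (Bool.casesOn (motive := fun _ => T) (Nat.beq (Nat.mod m 2) 0)
        (.N v l (r.ins x (Nat.div m 2))) (.N v (l.ins x (Nat.div m 2)) r))
      cases Nat.beq (Nat.mod m 2) 0
      · exact ⟨h.1, h.2.1, ins_al hx r h.2.2 _⟩
      · exact ⟨h.1, ins_al hx l h.2.1 _, h.2.2⟩

/-- a valid fact -/
def Fa (s : ℕ → V) (D : ℕ) (u : ℕ) : Prop := bd 7 D u ∧ ev s D u = 0

theorem fa_zero (s : ℕ → V) (D : ℕ) : Fa s D 0 := ⟨bd_zero _ _, ev_zero _ _⟩

theorem sm_snd {s : ℕ → V} {D : ℕ} {t : T} (ht : Al (Fa s D) t) : ∀ (fuel code acc M : ℕ),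
    bd M D acc → M + 28 * fuel < Bs →
      bd (M + 28 * fuel) D (sm t fuel code acc) ∧ ev s D (sm t fuel code acc) = ev s D acc
  | 0, _, _, _, h, _ => ⟨h, rfl⟩
  | fuel + 1, code, acc, M, h, hM => by
    cases code with
    | zero => exact ⟨bd_mono (by omega) h, rfl⟩
    | succ m =>
      change bd _ D (sm t fuel (Nat.div (Nat.succ m) 16384) (Nat.add acc
        (Nat.mul (Nat.mod (Nat.mod (Nat.succ m) 16384) 5)
          (t.get (Nat.div (Nat.mod (Nat.succ m) 16384) 5))))) ∧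
        ev s D (sm t fuel (Nat.div (Nat.succ m) 16384) (Nat.add acc
        (Nat.mul (Nat.mod (Nat.mod (Nat.succ m) 16384) 5)
          (t.get (Nat.div (Nat.mod (Nat.succ m) 16384) 5))))) = _
      have hf : Fa s D (t.get (Nat.div (Nat.mod (Nat.succ m) 16384) 5)) :=
        get_al (fa_zero s D) t ht _
      set c := Nat.mod (Nat.mod (Nat.succ m) 16384) 5 with hc
      have hc4 : c ≤ 4 := Nat.le_of_lt_succ (Nat.mod_lt _ (by norm_num))
      obtain ⟨b1, e1⟩ := ev_mul s hf.1 c (by unfold Bs; omega)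
      obtain ⟨b2, e2⟩ := ev_add (M := M) (M' := c * 7) (by unfold Bs at *; omega) D s acc _ h b1
      obtain ⟨b3, e3⟩ := sm_snd ht fuel (Nat.div (Nat.succ m) 16384) _ (M + 28)
        (bd_mono (by omega) b2) (by omega)
      refine ⟨bd_mono (by omega) b3, e3.trans (e2.trans ?_)⟩
      rw [e1, hf.2, smul_zero, add_zero]

end Pool.Agent.Helper140_E5
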