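import Pool.Agent.Helper140_E5.Snd

/-!
# A checker for vector enumerations over the field with five elements: soundness
-/

set_option autoImplicit false

namespace Pool.Agent.Helper140_E5

universe u

variable {V : Type u} [AddCommGroup V]

/-- the action of a word, first letter first -/
def act (lt : ℕ → V →+ V) (w : List ℕ) (v : V) : V := w.foldl (fun v l => lt l v) v

theorem act_cons (lt : ℕ → V →+ V) (l : ℕ) (w : List ℕ) (v : V) :
    act lt (l :: w) v = act lt w (lt l v) := rfl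

/-- the assumptions on the letters -/
structure Law (lt : ℕ → V →+ V) : Prop where
  five : ∀ v : V, (5 : ℕ) • v = 0
  inv : ∀ l v, lt (iv l) (lt l v) = v
  law : ∀ (w : List ℕ) (v : V), v + ((act lt w v + act lt w (act lt w v)) +
    (act lt (ivw w) v + act lt (ivw w) (act lt (ivw w) v))) = 0

/-- the meaning of the digits -/
def sem (lt : ℕ → V →+ V) (val : ℕ → V) (N : ℕ) (d : ℕ) : V :=
  if d < N then val d else lt (d / N - 1) (val (d % N))

section
variable {lt : ℕ → V →+ V} {val : ℕ → V} {N : ℕ}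

theorem sem_lt {i : ℕ} (h : i < N) : sem lt val N i = val i := if_pos h

theorem sem_slot {i l : ℕ} (h : i < N) : sem lt val N (i + N * (l + 1)) = lt l (val i) := by
  have h1 : ¬ (i + N * (l + 1) < N) := by
    have : N ≤ N * (l + 1) := Nat.le_mul_of_pos_right _ (by omega)
    omega
  have h2 : (i + N * (l + 1)) / N = l + 1 := by
    rw [Nat.add_mul_div_left _ _ (by omega), Nat.div_eq_of_lt h, zero_add]
  have h3 : (i + N * (l + 1)) % N = i := by
    rw [Nat.add_mul_mod_self_left, Nat.mod_eq_of_lt h]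
  unfold sem
  rw [if_neg h1, h2, h3, Nat.add_sub_cancel]

theorem slot_le {l : ℕ} (hl : l < 4) : N * (l + 1) + N ≤ 5 * N := by
  have : N * (l + 1) ≤ N * 4 := Nat.mul_le_mul_left _ (by omega)
  omega

theorem ev_nodes {P : ℕ} {M : ℕ} (h : bd M (5 * N) P) (hP : P < Bs ^ N) :
    ev (sem lt val N) (5 * N) P = ev val N P := by
  rw [ev_ext _ (by omega) (bd_cut h hP)]
  exact ev_congr (fun i hi => sem_lt hi) _

theorem ev_letter {P M l : ℕ} (h : bd M (5 * N) P) (hP : P < Bs ^ N) (hl : l < 4) :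
    bd M (5 * N) (P * Bs ^ (N * (l + 1))) ∧
      ev (sem lt val N) (5 * N) (P * Bs ^ (N * (l + 1))) =
        lt l (ev (sem lt val N) (5 * N) P) := by
  have hc := bd_cut h hP
  obtain ⟨h1, h2⟩ := ev_shift (N * (l + 1)) (sem lt val N) hc (D := 5 * N) (slot_le hl)
  refine ⟨h1, h2.trans ?_⟩
  rw [ev_nodes h hP, ev_map]
  exact ev_congr (fun i hi => sem_slot hi) _

theorem ev_node {i : ℕ} (h : i < N) :
    bd 1 (5 * N) (Bs ^ i) ∧ ev (sem lt val N) (5 * N) (Bs ^ i) = val i := by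
  obtain ⟨h1, h2⟩ := ev_one (sem lt val N) (D := 5 * N) (i := i) (by omega)
  exact ⟨h1, h2.trans (sem_lt h)⟩

theorem pow_lt {i : ℕ} (h : i < N) : Bs ^ i < Bs ^ N := Nat.pow_lt_pow_right (by norm_num) h

theorem stp_snd (H : Law lt) {t : T} (ht : Al (Fa (sem lt val N) (5 * N)) t) {l code P : ℕ}
    {k : ℕ → Bool} (hb : bd 7 (5 * N) P) (hP : P < Bs ^ N) (h : stp N t l code P k = true) :
    ∃ X, bd 7 (5 * N) X ∧ X < Bs ^ N ∧
      ev (sem lt val N) (5 * N) X = lt l (ev (sem lt val N) (5 * N) P) ∧ k X = true := by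
  unfold stp at h
  rw [and_eq, blt_eq] at h
  obtain ⟨hl, h⟩ := h
  obtain ⟨X, b, e, h⟩ := rd_snd H.five (sem lt val N) h
  rw [and_eq, blt_eq] at h
  obtain ⟨h1, h2⟩ := h
  obtain ⟨b1, e1⟩ := ev_letter (lt := lt) (val := val) hb hP hl
  obtain ⟨b2, e2⟩ := sm_snd ht 300 code _ 7 b1 (by norm_num)
  exact ⟨X, b, h1, (e.trans e2).trans e1, h2⟩

theorem wlk_snd (H : Law lt) {t : T} (ht : Al (Fa (sem lt val N) (5 * N)) t) :
    ∀ (w : List ℕ) (P : ℕ) (cs : List ℕ) (k : ℕ → List ℕ → Bool), bd 7 (5 * N) P →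
      P < Bs ^ N → wlk N t w P cs k = true → ∃ X cs', bd 7 (5 * N) X ∧ X < Bs ^ N ∧
      ev (sem lt val N) (5 * N) X = act lt w (ev (sem lt val N) (5 * N) P) ∧ k X cs' = true
  | [], P, cs, _, hb, hP, h => ⟨P, cs, hb, hP, rfl, h⟩
  | l :: w, P, cs, k, hb, hP, h => by
    cases cs with
    | nil => exact absurd h (by simp [wlk])
    | cons c cs =>
      have h' : stp N t l c P (fun X => wlk N t w X cs k) = true := h
      obtain ⟨X, b, hX, e, h1⟩ := stp_snd H ht hb hP h'
      obtain ⟨Y, cs', b1, hY, e1, h2⟩ := wlk_snd H ht w X cs k b hX h1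
      exact ⟨Y, cs', b1, hY, by rw [e1, e, act_cons], h2⟩

theorem fin_snd (H : Law lt) {t : T} (ht : Al (Fa (sem lt val N) (5 * N)) t) {Y M : ℕ}
    {cs : List ℕ} {k : ℕ → Bool} (hb : bd M (5 * N) Y) (hM : M ≤ 1000)
    (h : fin' N t Y cs k = true) :
    ∃ X, bd 7 (5 * N) X ∧ ev (sem lt val N) (5 * N) X = ev (sem lt val N) (5 * N) Y ∧
      k X = true := by
  cases cs with
  | nil => exact absurd h (by simp [fin'])
  | cons c cs =>
    have h' : rd (Nat.mul 5 N) (sm t 300 c Y) k = true := h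
    obtain ⟨X, b, e, h⟩ := rd_snd H.five (sem lt val N) h'
    obtain ⟨b2, e2⟩ := sm_snd ht 300 c Y M hb (by unfold Bs; omega)
    exact ⟨X, b, e.trans e2, h⟩

/-- the vector space is a module with `x` cubic -/
def Cub (lt : ℕ → V →+ V) : Prop := ∀ v : V, 4 • v + 3 • lt 0 v + (2 • lt 0 (lt 0 v) +
  lt 0 (lt 0 (lt 0 v))) = 0

theorem run_snd (H : Law lt) {z : Bool} (hz : z = true → Cub lt) {t : T}
    (ht : Al (Fa (sem lt val N) (5 * N)) t) (ln : Ln) {k : ℕ → Bool}
    (h : ln.run N z t k = true) : ∃ X, Fa (sem lt val N) (5 * N) X ∧ k X = true := by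
  cases ln with
  | inst i w cs =>
    have h' := h
    simp only [Ln.run, and_eq, blt_eq, frc_eq] at h'
    obtain ⟨hi, h'⟩ := h'
    obtain ⟨b0, e0⟩ := ev_node (lt := lt) (val := val) hi
    have c0 := pow_lt hi
    have b0' := bd_mono (M' := 7) (by omega) b0
    obtain ⟨P1, cs, b1, c1, e1, h'⟩ := wlk_snd H ht w _ _ _ b0' c0 h'
    obtain ⟨P2, cs, b2, c2, e2, h'⟩ := wlk_snd H ht w _ _ _ b1 c1 h'
    obtain ⟨P3, cs, b3, c3, e3, h'⟩ := wlk_snd H ht (ivw w) _ _ _ b0' c0 h'
    obtain ⟨P4, cs, b4, c4, e4, h'⟩ := wlk_snd H ht (ivw w) _ _ _ b3 c3 h'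
    obtain ⟨b5, e5⟩ := ev_add (M := 7) (M' := 7) (by norm_num) (5 * N) (sem lt val N) _ _ b1 b2
    obtain ⟨b6, e6⟩ := ev_add (M := 7) (M' := 7) (by norm_num) (5 * N) (sem lt val N) _ _ b3 b4
    obtain ⟨b7, e7⟩ := ev_add (M := 14) (M' := 14) (by norm_num) (5 * N) (sem lt val N) _ _ b5 b6
    obtain ⟨b8, e8⟩ := ev_add (M := 1) (M' := 28) (by norm_num) (5 * N) (sem lt val N) _ _ b0 b7
    obtain ⟨X, b, e, h'⟩ := fin_snd H ht b8 (by norm_num) h'
    refine ⟨X, ⟨b, ?_⟩, h'⟩
    rw [e, e8, e7, e6, e5, e4, e3, e2, e1, e0]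
    exact H.law w (val i)
  | shf f l c code =>
    have h' := h
    simp only [Ln.run, and_eq, blt_eq, frc_eq] at h'
    obtain ⟨hl, hc, hP, h'⟩ := h'
    have hf := get_al (fa_zero _ _) t ht f
    obtain ⟨b1, e1⟩ := ev_letter (lt := lt) (val := val) hf.1 hP hl
    obtain ⟨b2, e2⟩ := ev_mul (sem lt val N) b1 c (by unfold Bs; omega)
    obtain ⟨X, b, e, h'⟩ := rd_snd H.five (sem lt val N) h'
    obtain ⟨b3, e3⟩ := sm_snd ht 300 code _ (c * 7) b2 (by unfold Bs; omega)
    refine ⟨X, ⟨b, ?_⟩, h'⟩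
    refine (e.trans e3).trans (e2.trans ?_)
    rw [e1, hf.2, map_zero, smul_zero]
  | lin code =>
    obtain ⟨X, b, e, h'⟩ := rd_snd H.five (sem lt val N) h
    obtain ⟨b3, e3⟩ := sm_snd ht 300 code 0 0 (bd_zero _ _) (by unfold Bs; omega)
    exact ⟨X, ⟨b, (e.trans e3).trans (ev_zero _ _)⟩, h'⟩
  | inv i l c c1 c2 =>
    have h' := h
    simp only [Ln.run, and_eq, blt_eq, frc_eq] at h'
    obtain ⟨hi, hl, hc, h'⟩ := h'
    obtain ⟨b0, e0⟩ := ev_node (lt := lt) (val := val) hi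
    obtain ⟨P, b1, hP, e1, h'⟩ := stp_snd H ht (bd_mono (by omega) b0) (pow_lt hi) h'
    have hl' : iv l < 4 := by unfold iv; split <;> omega
    obtain ⟨b2, e2⟩ := ev_letter (lt := lt) (val := val) b1 hP hl'
    obtain ⟨b3, e3⟩ := ev_mul (sem lt val N) b0 4 (by norm_num)
    obtain ⟨b4, e4⟩ := ev_add (M := 7) (M' := 4 * 1) (by norm_num) (5 * N) (sem lt val N) _ _
      b2 b3
    obtain ⟨b5, e5⟩ := ev_mul (sem lt val N) b4 c (by unfold Bs; omega)
    obtain ⟨X, b, e, h'⟩ := rd_snd H.five (sem lt val N) h'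
    obtain ⟨b6, e6⟩ := sm_snd ht 300 c2 _ (c * (7 + 4 * 1)) b5 (by unfold Bs; omega)
    refine ⟨X, ⟨b, ?_⟩, h'⟩
    refine (e.trans e6).trans (e5.trans ?_)
    rw [e4, e3, e2, e1, e0, H.inv]
    have : val i + 4 • val i = (5 : ℕ) • val i := by
      rw [show (5 : ℕ) = 1 + 4 from rfl, add_smul, one_smul]
    rw [this, H.five, smul_zero]
  | cub i cs =>
    have h' := h
    simp only [Ln.run, and_eq, blt_eq, frc_eq] at h'
    obtain ⟨hzt, hi, h'⟩ := h'
    obtain ⟨b0, e0⟩ := ev_node (lt := lt) (val := val) hi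
    have c0 := pow_lt hi
    have b0' := bd_mono (M' := 7) (by omega) b0
    obtain ⟨P1, cs, b1, c1, e1, h'⟩ := wlk_snd H ht [0] _ _ _ b0' c0 h'
    obtain ⟨P2, cs, b2, c2, e2, h'⟩ := wlk_snd H ht [0] _ _ _ b1 c1 h'
    obtain ⟨P3, cs, b3, c3, e3, h'⟩ := wlk_snd H ht [0] _ _ _ b2 c2 h'
    obtain ⟨b4, e4⟩ := ev_mul (sem lt val N) b0 4 (by norm_num)
    obtain ⟨b5, e5⟩ := ev_mul (sem lt val N) b1 3 (by norm_num)
    obtain ⟨b6, e6⟩ := ev_mul (sem lt val N) b2 2 (by norm_num)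
    obtain ⟨b7, e7⟩ := ev_add (by norm_num) (5 * N) (sem lt val N) _ _ b4 b5
    obtain ⟨b8, e8⟩ := ev_add (by norm_num) (5 * N) (sem lt val N) _ _ b6 b3
    obtain ⟨b9, e9⟩ := ev_add (by norm_num) (5 * N) (sem lt val N) _ _ b7 b8
    obtain ⟨X, b, e, h'⟩ := fin_snd H ht b9 (by norm_num) h'
    refine ⟨X, ⟨b, ?_⟩, h'⟩
    rw [e, e9, e8, e7, e6, e5, e4, e3, e2, e1, e0]
    exact hz hzt (val i)

theorem loop_snd (H : Law lt) {z : Bool} (hz : z = true → Cub lt) :
    ∀ (ls : List Ln) (t : T) (n : ℕ) (k : T → Bool), Al (Fa (sem lt val N) (5 * N)) t →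
      loop N z ls t n k = true → ∃ t', Al (Fa (sem lt val N) (5 * N)) t' ∧ k t' = true
  | [], t, _, _, ht, h => ⟨t, ht, h⟩
  | ln :: ls, t, n, k, ht, h => by
    have h' : ln.run N z t (fun X => frc n fun n => loop N z ls (t.ins X n) (Nat.succ n) k) =
      true := h
    obtain ⟨X, hX, h1⟩ := run_snd H hz ht ln h'
    rw [frc_eq] at h1
    exact loop_snd H hz ls _ _ k (ins_al hX t ht n) h1

end

/-- the values of the nodes -/
def nv (lt : ℕ → V →+ V) (a : V) (ds : List ℕ) : ℕ → V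
  | 0 => a
  | k + 1 => if h : ds.getD k 0 / 4 < k + 1 then
      lt (ds.getD k 0 % 4) (nv lt a ds (ds.getD k 0 / 4)) else 0
  termination_by n => n
  decreasing_by exact h

theorem nv_succ (lt : ℕ → V →+ V) (a : V) (ds : List ℕ) {k : ℕ} (h : ds.getD k 0 / 4 ≤ k) :
    nv lt a ds (k + 1) = lt (ds.getD k 0 % 4) (nv lt a ds (ds.getD k 0 / 4)) := by
  rw [nv, dif_pos (by omega)]

theorem five_eq {lt : ℕ → V →+ V} (H : Law lt) (v : V) : v + 4 • v = 0 := by
  have : v + 4 • v = (5 : ℕ) • v := by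
    rw [show (5 : ℕ) = 1 + 4 from rfl, add_smul, one_smul]
  rw [this, H.five]

theorem ini_snd {lt : ℕ → V →+ V} (H : Law lt) (a : V) (ds : List ℕ) (N : ℕ) :
    ∀ (ds' : List ℕ) (m : ℕ) (t : T) (k : T → ℕ → Bool),
      (∀ j < ds'.length, ds.getD (m + j) 0 = ds'.getD j 0) →
      Al (Fa (sem lt (nv lt a ds) N) (5 * N)) t → ini N ds' t (2 * m) k = true →
      ∃ t' n', Al (Fa (sem lt (nv lt a ds) N) (5 * N)) t' ∧ k t' n' = true
  | [], _, t, _, _, ht, h => ⟨t, _, ht, h⟩
  | d :: ds', m, t, k, hd, ht, h => by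
    have h' : (Nat.ble (Nat.div d 4) (Nat.div (2 * m) 2)).and
      ((Nat.blt (Nat.succ (Nat.div (2 * m) 2)) N).and <|
      frc (Nat.add (Nat.pow Bs (Nat.add (Nat.mul N (Nat.succ (Nat.mod d 4))) (Nat.div d 4)))
        (Nat.mul 4 (Nat.pow Bs (Nat.succ (Nat.div (2 * m) 2))))) fun F1 =>
      frc (Nat.add (Nat.pow Bs (Nat.add (Nat.mul N (Nat.succ (iv (Nat.mod d 4))))
        (Nat.succ (Nat.div (2 * m) 2)))) (Nat.mul 4 (Nat.pow Bs (Nat.div d 4)))) fun F2 =>
      frc (2 * m) fun n => ini N ds' ((t.ins F1 n).ins F2 (Nat.succ n))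
        (Nat.succ (Nat.succ n)) k) = true := h
    rw [and_eq, and_eq, blt_eq, ble_eq, frc_eq, frc_eq, frc_eq] at h'
    obtain ⟨h1, h2, h3⟩ := h'
    have e : Nat.div (2 * m) 2 = m := Nat.mul_div_cancel_left _ (by norm_num)
    rw [e] at h1 h2 h3
    have hd0 : ds.getD m 0 = d := by
      have := hd 0 (by simp)
      simpa using this
    have hval : nv lt a ds (m + 1) = lt (d % 4) (nv lt a ds (d / 4)) := by
      rw [nv_succ lt a ds (by rw [hd0]; exact h1), hd0]
    have hb : d / 4 < N := by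
      have : d / 4 ≤ m := h1
      have : m + 1 < N := h2
      omega
    have hj : m + 1 < N := h2
    have hl : d % 4 < 4 := Nat.mod_lt _ (by norm_num)
    have hl' : iv (d % 4) < 4 := by unfold iv; split <;> omega
    have F1 : Fa (sem lt (nv lt a ds) N) (5 * N)
        (Bs ^ (N * (d % 4 + 1) + d / 4) + 4 * Bs ^ (m + 1)) := by
      obtain ⟨b1, e1⟩ := ev_node (lt := lt) (val := nv lt a ds) hb
      obtain ⟨b2, e2⟩ := ev_letter (lt := lt) (val := nv lt a ds) b1 (pow_lt hb) hl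
      rw [← pow_add, add_comm (d / 4)] at b2 e2
      obtain ⟨b3, e3⟩ := ev_node (lt := lt) (val := nv lt a ds) hj
      obtain ⟨b4, e4⟩ := ev_mul (sem lt (nv lt a ds) N) b3 4 (by norm_num)
      obtain ⟨b5, e5⟩ := ev_add (by norm_num) (5 * N) (sem lt (nv lt a ds) N) _ _ b2 b4
      refine ⟨bd_mono (by norm_num) b5, ?_⟩
      rw [e5, e4, e3, e2, e1, ← hval]
      exact five_eq H _
    have F2 : Fa (sem lt (nv lt a ds) N) (5 * N)
        (Bs ^ (N * (iv (d % 4) + 1) + (m + 1)) + 4 * Bs ^ (d / 4)) := by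
      obtain ⟨b1, e1⟩ := ev_node (lt := lt) (val := nv lt a ds) hj
      obtain ⟨b2, e2⟩ := ev_letter (lt := lt) (val := nv lt a ds) b1 (pow_lt hj) hl'
      rw [← pow_add, add_comm (m + 1)] at b2 e2
      obtain ⟨b3, e3⟩ := ev_node (lt := lt) (val := nv lt a ds) hb
      obtain ⟨b4, e4⟩ := ev_mul (sem lt (nv lt a ds) N) b3 4 (by norm_num)
      obtain ⟨b5, e5⟩ := ev_add (by norm_num) (5 * N) (sem lt (nv lt a ds) N) _ _ b2 b4
      refine ⟨bd_mono (by norm_num) b5, ?_⟩
      rw [e5, e4, e3, e2, e1, hval, H.inv]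
      exact five_eq H _
    refine ini_snd H a ds N ds' (m + 1) _ k ?_ (ins_al F2 _ (ins_al F1 t ht _) _) h3
    intro j hj'
    have := hd (j + 1) (by simpa using hj')
    rw [show m + 1 + j = m + (j + 1) by ring, this]
    simp

theorem sta_snd {lt : ℕ → V →+ V} (H : Law lt) {val : ℕ → V} {N : ℕ} (hN : 0 < N)
    (hx : lt 0 (val 0) = val 0) {t : T} {n : ℕ} {k : T → ℕ → Bool}
    (ht : Al (Fa (sem lt val N) (5 * N)) t) (h : sta N true t n k = true) :
    ∃ t' n', Al (Fa (sem lt val N) (5 * N)) t' ∧ k t' n' = true := by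
  have h' := h
  simp only [sta, frc_eq] at h'
  have hx1 : lt 1 (val 0) = val 0 := by
    have := H.inv 0 (val 0)
    rw [hx] at this
    exact this
  obtain ⟨b1, e1⟩ := ev_node (lt := lt) (val := val) hN
  obtain ⟨b2, e2⟩ := ev_mul (sem lt val N) b1 4 (by norm_num)
  have F : ∀ l < 4, lt l (val 0) = val 0 → Fa (sem lt val N) (5 * N) (Bs ^ (N * (l + 1)) + 4) := by
    intro l hl hv
    obtain ⟨b3, e3⟩ := ev_letter (lt := lt) (val := val) b1 (pow_lt hN) hl
    rw [pow_zero, one_mul] at b3 e3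
    rw [pow_zero] at b2 e1 e2
    obtain ⟨b5, e5⟩ := ev_add (by norm_num) (5 * N) (sem lt val N) _ _ b3 b2
    refine ⟨bd_mono (by norm_num) b5, ?_⟩
    rw [mul_one] at e5 e2
    rw [e5, e2, e3, e1, hv]
    exact five_eq H _
  have F1 := F 0 (by omega) hx
  have F2 := F 1 (by omega) hx1
  rw [zero_add, mul_one] at F1
  exact ⟨_, _, ins_al F2 _ (ins_al F1 t ht n) (Nat.succ n), h'⟩

theorem msk_snd (S : AddSubgroup V) : ∀ (fl : List Bool) (s : ℕ → V) (R : ℕ),
    R &&& msk fl = R → bd 7 fl.length R ∧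
      ((∀ i, fl.getD i false = true → s i ∈ S) → ev s fl.length R ∈ S)
  | [], _, R, h => by
    have h1 : R &&& 0 = R := h
    rw [Nat.and_zero] at h1
    subst h1
    exact ⟨rfl, fun _ => zero_mem _⟩
  | b :: fl, s, R, h => by
    have h' : R &&& ((Bool.casesOn (motive := fun _ => ℕ) b 0 7) + Bs * msk fl) = R := h
    obtain ⟨h1, h2⟩ := land_digit (by cases b <;> norm_num) h'
    obtain ⟨h3, h4⟩ := msk_snd S fl (fun i => s (i + 1)) (R / Bs) h2
    refine ⟨⟨?_, h3⟩, fun hs => ?_⟩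
    · rw [← h1]
      refine Nat.and_le_right.trans ?_
      cases b <;> norm_num
    · have h5 := h4 fun i hi => hs (i + 1) (by simpa using hi)
      change (R % Bs) • s 0 + _ ∈ S
      refine add_mem ?_ h5
      cases b with
      | false =>
        have : R % Bs = 0 := by rw [← h1]; exact Nat.and_zero _
        rw [this, zero_smul]
        exact zero_mem _
      | true => exact nsmul_mem (hs 0 (by simp)) _

section
variable {lt : ℕ → V →+ V} {val : ℕ → V} {N : ℕ}

theorem chF_snd (S : AddSubgroup V) (fl : List Bool) (hfl : fl.length = N)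
    (hS : ∀ i, fl.getD i false = true → val i ∈ S) {i l X : ℕ} (hi : i < N) (hl : l < 4)
    (hX : Fa (sem lt val N) (5 * N) X) (h : chF N (msk fl) i l X = true) :
    lt l (val i) ∈ S := by
  unfold chF at h
  simp only [frc_eq, and_eq, beq_eq] at h
  obtain ⟨h1, h2⟩ := h
  set s := Nat.pow Bs (Nat.add (Nat.mul N (Nat.succ l)) i) with hs
  set R := Nat.sub X s with hR
  obtain ⟨b1, m1⟩ := msk_snd S fl val R h2
  have m2 := m1 hS
  rw [hfl] at b1 m2
  obtain ⟨b2, e2⟩ := ev_node (lt := lt) (val := val) hi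
  obtain ⟨b3, e3⟩ := ev_letter (lt := lt) (val := val) b2 (pow_lt hi) hl
  rw [← pow_add, add_comm i] at b3 e3
  have b4 : bd 7 (5 * N) R := bd_ext (by omega) b1
  obtain ⟨b5, e5⟩ := ev_add (M := 7) (M' := 1) (by norm_num) (5 * N) (sem lt val N) R
    (Bs ^ (N * (l + 1) + i)) b4 b3
  have e6 : R + Bs ^ (N * (l + 1) + i) = X := h1
  rw [e6, hX.2, e3, e2] at e5
  have e7 : ev (sem lt val N) (5 * N) R = ev val N R := by
    rw [ev_ext _ (by omega) b1]
    exact ev_congr (fun i hi => sem_lt hi) _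
  rw [e7] at e5
  have e8 : lt l (val i) = - ev val N R := by
    rw [eq_neg_iff_add_eq_zero, add_comm]
    exact e5.symm
  rw [e8]
  exact neg_mem m2

theorem clo_snd (S : AddSubgroup V) (fl : List Bool) (hfl : fl.length = N)
    (hS : ∀ i, fl.getD i false = true → val i ∈ S) {t : T}
    (ht : Al (Fa (sem lt val N) (5 * N)) t) :
    ∀ (fl' : List Bool) (i : ℕ) (fs : List ℕ), i + fl'.length ≤ N →
      clo N (msk fl) t fl' i fs = true →
      ∀ j, fl'.getD j false = true → ∀ l < 4, lt l (val (i + j)) ∈ S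
  | [], _, _, _, _, j, hj, _, _ => by simp at hj
  | b :: fl', i, fs, hi, h, j, hj, l, hl => by
    rw [List.length_cons] at hi
    cases b with
    | false =>
      have h' : clo N (msk fl) t fl' (Nat.succ i) fs = true := h
      cases j with
      | zero => simp at hj
      | succ j =>
        rw [show i + (j + 1) = i + 1 + j by ring]
        exact clo_snd S fl hfl hS ht fl' (i + 1) fs (by omega) h' j (by simpa using hj) l hl
    | true =>
      match fs, h with
      | f0 :: f1 :: f2 :: f3 :: fs, h =>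
        have h' : ((chF N (msk fl) i 0 (t.get f0)).and <| (chF N (msk fl) i 1 (t.get f1)).and <|
          (chF N (msk fl) i 2 (t.get f2)).and <| (chF N (msk fl) i 3 (t.get f3)).and <|
          clo N (msk fl) t fl' (Nat.succ i) fs) = true := h
        simp only [and_eq] at h'
        obtain ⟨g0, g1, g2, g3, h'⟩ := h'
        cases j with
        | zero =>
          have G := fun f => get_al (P := Fa (sem lt val N) (5 * N)) (fa_zero _ _) t ht f
          rw [add_zero]
          interval_cases l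
          · exact chF_snd S fl hfl hS (by omega) (by omega) (G f0) g0
          · exact chF_snd S fl hfl hS (by omega) (by omega) (G f1) g1
          · exact chF_snd S fl hfl hS (by omega) (by omega) (G f2) g2
          · exact chF_snd S fl hfl hS (by omega) (by omega) (G f3) g3
        | succ j =>
          rw [show i + (j + 1) = i + 1 + j by ring]
          exact clo_snd S fl hfl hS ht fl' (i + 1) fs (by omega) h' j (by simpa using hj) l hl

end

/-- **Soundness of the table check.** -/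
theorem chkT_snd {lt : ℕ → V →+ V} (H : Law lt) {N : ℕ} {ds : List ℕ} {ls : List Ln}
    {fl : List Bool} {fs : List ℕ} (h : chkT N ds ls fl fs = true) (a : V) (ha : lt 0 a = a) :
    ∃ s : Finset V, a ∈ AddSubgroup.closure (s : Set V) ∧
      ∀ l < 4, ∀ v ∈ AddSubgroup.closure (s : Set V),
        lt l v ∈ AddSubgroup.closure (s : Set V) := by
  classical
  unfold chkT at h
  rw [and_eq, blt_eq] at h
  obtain ⟨hN, h⟩ := h
  obtain ⟨t, n, ht, h⟩ := ini_snd H a ds N ds 0 .L _ (fun j _ => by rw [zero_add]) trivial h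
  obtain ⟨t, n, ht, h⟩ := sta_snd H hN (show lt 0 (nv lt a ds 0) = nv lt a ds 0 by
    rw [nv]; exact ha) ht h
  obtain ⟨t, ht, h⟩ := loop_snd H (by simp) ls t n _ ht h
  simp only [and_eq, beq_eq, frc_eq] at h
  obtain ⟨h1, h2, h3⟩ := h
  set S := AddSubgroup.closure (((Finset.range N).filter fun i => fl.getD i false = true).image
    (nv lt a ds) : Set V) with hS
  have hm : ∀ i, fl.getD i false = true → nv lt a ds i ∈ S := by
    intro i hi
    refine AddSubgroup.subset_closure ?_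
    simp only [Finset.coe_image, Finset.coe_filter, Finset.mem_range, Set.mem_image,
      Set.mem_ofPred_eq]
    refine ⟨i, ⟨?_, hi⟩, rfl⟩
    by_contra hc
    rw [List.getD_eq_default _ _ (by omega)] at hi
    exact absurd hi (by simp)
  have hc := clo_snd S fl h1 hm ht fl 0 fs (by omega) h3
  refine ⟨((Finset.range N).filter fun i => fl.getD i false = true).image (nv lt a ds), ?_, ?_⟩
  · have := hm 0 (by
      cases fl with
      | nil => exact absurd h2 (by simp [hd])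
      | cons b fl => simpa [hd] using h2)
    rwa [nv] at this
  · intro l hl v hv
    induction hv using AddSubgroup.closure_induction with
    | mem x hx =>
      simp only [Finset.coe_image, Finset.coe_filter, Finset.mem_range, Set.mem_image,
        Set.mem_ofPred_eq] at hx
      obtain ⟨i, ⟨-, hi⟩, rfl⟩ := hx
      have := hc i hi l hl
      rwa [zero_add] at this
    | zero => rw [map_zero]; exact zero_mem _
    | add x y _ _ hx hy => rw [map_add]; exact add_mem hx hy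
    | neg x _ hx => rw [map_neg]; exact neg_mem hx

/-- **Soundness of the identity check.** -/
theorem chkW_snd {lt : ℕ → V →+ V} (H : Law lt) (hc : Cub lt) {N : ℕ} {ds : List ℕ}
    {ls : List Ln} {w cs : List ℕ} (h : chkW N ds ls w cs = true) (a : V) :
    a + (3 • act lt w a + act lt w (act lt w a)) = 0 := by
  unfold chkW at h
  rw [and_eq, blt_eq] at h
  obtain ⟨hN, h⟩ := h
  obtain ⟨t, n, ht, h⟩ := ini_snd H a ds N ds 0 .L _ (fun j _ => by rw [zero_add]) trivial h
  obtain ⟨t, ht, h⟩ := loop_snd H (fun _ => hc) ls t n _ ht h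
  obtain ⟨b0, e0⟩ := ev_node (lt := lt) (val := nv lt a ds) hN
  have c0 := pow_lt hN
  rw [pow_zero] at b0 e0 c0
  obtain ⟨P1, cs, b1, c1, e1, h⟩ := wlk_snd H ht w _ _ _ (bd_mono (by omega) b0) c0 h
  obtain ⟨P2, cs, b2, c2, e2, h⟩ := wlk_snd H ht w _ _ _ b1 c1 h
  obtain ⟨b3, e3⟩ := ev_mul (sem lt (nv lt a ds) N) b1 3 (by norm_num)
  obtain ⟨b4, e4⟩ := ev_add (by norm_num) (5 * N) (sem lt (nv lt a ds) N) _ _ b3 b2
  obtain ⟨b5, e5⟩ := ev_add (by norm_num) (5 * N) (sem lt (nv lt a ds) N) _ _ b0 b4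
  obtain ⟨X, b, e, h⟩ := fin_snd H ht b5 (by norm_num) h
  rw [beq_eq] at h
  subst h
  rw [ev_zero, e5, e4, e3, e2, e1, e0, nv] at e
  exact e.symm

end Pool.Agent.Helper140_E5
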