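import Pool.Agent.Helper140_E5.Lfq

/-!
# Groups of exponent five act locally finitely on their soluble normal subgroups

No local finiteness is assumed.  If `N` is an abelian normal subgroup of a group of exponent `5`,
then `(h - 1) ^ 4` annihilates `N` for all elements `h` of the group, since `(n h) ^ 5 = h ^ 5`.
The main point is that a finitely generated group `E` of units with `(h - 1) ^ 4 = 0` for all
`h ∈ E`, in a ring of characteristic `5` which is spanned by `E`, is finite, and that the elements
`h - 1` generate a nilpotent ideal.  (With `(h - 1) ^ 5 = 0` instead of `(h - 1) ^ 4 = 0` this would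
be equivalent to `5 ∈ 𝓛`.)

Outline.  1. Two generators.  Let `x, y` act on `V`.  If some `v ≠ 0` is fixed by `x`, the module
generated by `v` is finite; this is a linear coset enumeration with 344 nodes, recorded as a table
and checked by the kernel (`Chk`, `DatA`, `OkA`, soundness in `Snd`, `Snd2`).  Since `x - 1` is
nilpotent there is always such a `v`, so two-generator groups are finite (`Act`, `UFin`).  A second
table gives `([y, x, x] - 1) ^ 2 = 0` if `(x - 1) ^ 3 = 0`.
2. Let the ring `R` spanned by `E` be semiprime.  Let `(c - 1) ^ 2 = 0` and `P = c - 1`.  The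
linearised identity for four elements shows that one may assume `P Q P = 0` for all conjugates `Q`
of `P`; then products of conjugates of `P` with a repeated factor vanish, so `c` and any finite
subgroup of `E` generate a finite group, and a lemma on the finite groups `⟨c, g, h⟩` of the earlier
result `ThreeGeneratorsFive` leads to `c = 1` (`Quad`, `QuadA`, `Lst`, `SanF`, `SanT`).  With the
second table `c = 1` follows from `(c - 1) ^ 3 = 0`, and then also if `c` commutes with its
conjugates (`Cube`).  In a finite two-generator subgroup of `E` the terms of the upper central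
series are shown by induction to consist of elements `u` with `[u, h, h] = 1`: the element
`s = [u, h, h]` commutes with `u` and `h` by a calculation in groups (`Cen`), so `(s - 1) ^ 3 = 0`
and `s = 1`.  So `[y, x, x] = 1` for all `x, y ∈ E`, elements commute with their conjugates, and
`E = 1` (`SP`).
3. In general, if the products of `n` elements `s - 1`, `s` a generator, do not vanish for any `n`,
there is by Zorn's lemma an ideal which is maximal among the ideals not containing all such
products for any `n`; the quotient is semiprime, a contradiction (`Zrn`).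
4. The universal ring with these properties is finite for each number of generators (`Uf`); it acts
on abelian normal sections (`Grp`).  The rest is group theory (`Cns`, `Cns2`, `Bd`).
-/

set_option autoImplicit false

namespace Pool.Agent.Helper140_E5.SolubleNormalFive

open Pool.Agent.Helper140_E5
open scoped commutatorElement

universe u

/-- `G` is locally finite: its finitely generated subgroups are finite. -/
def LocallyFinite (G : Type u) [Group G] : Prop :=
  ∀ S : Set G, S.Finite → Finite (Subgroup.closure S)

/-- The left-normed commutator `[x, g₁, …, g_k]` for the list `w = (g₁, …, g_k)`. -/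
def comm {G : Type u} [Group G] (x : G) (w : List G) : G := w.foldl (fun a g => ⁅a, g⁆) x

/-- The union of the finite terms of the upper central series. -/
def Hypercentre (G : Type u) [Group G] : Subgroup G := ⨆ k, Subgroup.upperCentralSeries G k

/-- (1) For all `d` there are `k`, `m` such that for every group `G`, subgroup `H = ⟨a₁, …, a_d⟩` of
`G` and normal subgroups `M`, `N` of `G` with `[N, N] ≤ M` and `(n g) ^ 5 ≡ g ^ 5` modulo `M` for all
`n ∈ N`, `g ∈ H` (in particular if `G` has exponent `5`): `[n, g₁, …, g_k] ∈ M` for all `n ∈ N`,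
`g_i ∈ H`, and the elements `g` of `H` with `[N, g] ⊆ M` form a subgroup of index at most `m` in `H`.
(2) For all `d`, `l` there are `k`, `m` such that for every group `G` of exponent `5`, every subgroup
`H = ⟨a₁, …, a_d⟩` and every normal subgroup `N` of `G` which is soluble of derived length at most
`l`: `[n, g₁, …, g_k] = 1` for all `n ∈ N`, `g_i ∈ H`, and `C_H(N)` has index at most `m` in `H`; in
particular `N` is contained in the `k`-th centre of `G` if `H = G`.
(3) Let `G` have exponent `5`. (a) If `N` is a soluble normal subgroup, `G / C_G(N)` is locally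
finite, and `G` is locally finite if (and only if) `C_G(N)` is. (b) Abelian chief factors of `G` are
central. (c) If `G` is finitely generated, its hypercentre contains every normal subgroup which is
abelian modulo the hypercentre. -/
theorem result :
    (∀ d : ℕ, ∃ k m : ℕ, ∀ (G : Type u) [Group G] (a : Fin d → G) (M N : Subgroup G) [M.Normal]
      [N.Normal], ⁅N, N⁆ ≤ M →
      (∀ n ∈ N, ∀ g ∈ Subgroup.closure (Set.range a), (n * g) ^ 5 * (g ^ 5)⁻¹ ∈ M) →
      (∀ n ∈ N, ∀ w : List G, (∀ g ∈ w, g ∈ Subgroup.closure (Set.range a)) → w.length = k →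
        comm n w ∈ M) ∧
      ∃ C : Subgroup G, (∀ g, g ∈ C ↔ ∀ n ∈ N, ⁅n, g⁆ ∈ M) ∧
        C.relIndex (Subgroup.closure (Set.range a)) ≠ 0 ∧
        C.relIndex (Subgroup.closure (Set.range a)) ≤ m) ∧
    (∀ d l : ℕ, ∃ k m : ℕ, ∀ (G : Type u) [Group G] (a : Fin d → G) (N : Subgroup G),
      (∀ x : G, x ^ 5 = 1) → N.Normal → derivedSeries N l = ⊥ →
      (∀ n ∈ N, ∀ w : List G, (∀ g ∈ w, g ∈ Subgroup.closure (Set.range a)) → w.length = k →
        comm n w = 1) ∧
      (Subgroup.centralizer (N : Set G)).relIndex (Subgroup.closure (Set.range a)) ≠ 0 ∧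
      (Subgroup.centralizer (N : Set G)).relIndex (Subgroup.closure (Set.range a)) ≤ m ∧
      (Subgroup.closure (Set.range a) = ⊤ → N ≤ Subgroup.upperCentralSeries G k)) ∧
    ∀ (G : Type u) [Group G], (∀ x : G, x ^ 5 = 1) →
      (∀ N : Subgroup G, ∀ _ : N.Normal, Group.IsSolvable N →
        LocallyFinite (G ⧸ Subgroup.centralizer (N : Set G)) ∧
        (LocallyFinite (Subgroup.centralizer (N : Set G)) → LocallyFinite G)) ∧
      (∀ M N : Subgroup G, M.Normal → N.Normal → M ≤ N → ⁅N, N⁆ ≤ M →
        (∀ L : Subgroup G, L.Normal → M ≤ L → L ≤ N → L = M ∨ L = N) → ⁅N, ⊤⁆ ≤ M) ∧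
      (Group.FG G → ∀ N : Subgroup G, N.Normal → ⁅N, N⁆ ≤ Hypercentre G →
        N ≤ Hypercentre G) := by
  refine ⟨fun d => ?_, fun d l => ?_, fun G _ h5 => ⟨fun N hN hs => ?_, ?_, ?_⟩⟩
  · obtain ⟨k, m, h⟩ := grp_sec.{u} d
    refine ⟨k, m, fun G _ a M N _ _ hab law => ?_⟩
    obtain ⟨h1, h2, h3⟩ := h G a M N hab law
    exact ⟨h1, Cs M N, fun g => mem_Cs, h2, h3⟩
  · exact sol_all.{u} d l
  · obtain ⟨l, hl⟩ := ds_bot hs
    exact ⟨(sol_lfq h5 l N hN hl).lf, lf_crit h5 hN hl⟩
  · intro M N _ _ hMN hab hmin
    exact chief h5 M N hMN hab hmin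
  · intro hG N hN hab
    obtain ⟨S, hS, hc⟩ := lf_fg hG
    exact Zw_abs h5 hS hc N hN hab

end Pool.Agent.Helper140_E5.SolubleNormalFive
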