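import Mathlib

/-!
# Groups of units with `(h - 1) ^ 4 = 0` in rings of characteristic five: the symmetrised product of
four quadratic elements vanishes
-/

set_option autoImplicit false

namespace Pool.Agent.Helper140_E5

universe u

section
variable {R : Type u} [Ring R]

/-- words with three `a` and one `b` -/
def D1 (a b : R) : R := a * a * a * b + a * a * b * a + a * b * a * a + b * a * a * a

/-- words with two `a`, one `x`, one `y` -/
def D2 (a x y : R) : R := a * a * x * y + a * a * y * x + a * x * a * y + a * y * a * x +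
  a * x * y * a + a * y * x * a + x * a * a * y + y * a * a * x + x * a * y * a + y * a * x * a +
  x * y * a * a + y * x * a * a

/-- words with `a`, `b`, `c`, `d` -/
def D3 (a b c d : R) : R :=
  (a * b * c * d + a * b * d * c + a * c * b * d + a * c * d * b + a * d * b * c + a * d * c * b) +
  (b * a * c * d + b * a * d * c + b * c * a * d + b * c * d * a + b * d * a * c + b * d * c * a) +
  (c * a * b * d + c * a * d * b + c * b * a * d + c * b * d * a + c * d * a * b + c * d * b * a) +
  (d * a * b * c + d * a * c * b + d * b * a * c + d * b * c * a + d * c * a * b + d * c * b * a)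

theorem twelve (h5 : (5 : R) = 0) {r : R} (h : 12 * r = 0) : r = 0 := by
  have e : r = 5 * (5 * r) - 2 * (12 * r) := by noncomm_ring
  rw [e, h, h5]
  simp

theorem e1 (a b : R) : 12 * D1 a b = 8 * ((a + b) ^ 4 - (a - b) ^ 4) -
    ((a + 2 * b) ^ 4 - (a - 2 * b) ^ 4) := by
  unfold D1
  noncomm_ring

theorem e2 (a x b c : R) : 12 * (D2 a x b + D1 a c) =
    8 * (D1 (a + x) (b + c) - D1 (a - x) (b - c)) -
    (D1 (a + 2 * x) (b + 2 * c) - D1 (a - 2 * x) (b - 2 * c)) := by
  unfold D1 D2
  noncomm_ring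

theorem e3 (a x b b' c c' d d' : R) :
    12 * (D3 a x b c + D2 a b' c + D2 a b c' + D2 a x d + D1 a d') =
    8 * ((D2 (a + x) (b + b') (c + c') + D1 (a + x) (d + d')) -
      (D2 (a - x) (b - b') (c - c') + D1 (a - x) (d - d'))) -
    ((D2 (a + 2 * x) (b + 2 * b') (c + 2 * c') + D1 (a + 2 * x) (d + 2 * d')) -
      (D2 (a - 2 * x) (b - 2 * b') (c - 2 * c') + D1 (a - 2 * x) (d - 2 * d'))) := by
  unfold D1 D2 D3
  noncomm_ring

theorem e4 (x b b' c c' d d' : R) : 12 * D3 x b c d =
    8 * (D3 x (b + b') (c + c') (d + d') - D3 (-x) (b - b') (c - c') (d - d')) -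
    (D3 (2 * x) (b + 2 * b') (c + 2 * c') (d + 2 * d') -
      D3 (-(2 * x)) (b - 2 * b') (c - 2 * c') (d - 2 * d')) := by
  unfold D3
  noncomm_ring

theorem e5 (x b b' c c' : R) : 0 =
    8 * (D2 x (b + b') (c + c') - D2 (-x) (b - b') (c - c')) -
    (D2 (2 * x) (b + 2 * b') (c + 2 * c') -
      D2 (-(2 * x)) (b - 2 * b') (c - 2 * c')) := by
  unfold D2
  noncomm_ring

theorem e6 (x b b' : R) : 0 =
    8 * (D1 x (b + b') - D1 (-x) (b - b')) -
    (D1 (2 * x) (b + 2 * b') - D1 (-(2 * x)) (b - 2 * b')) := by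
  unfold D1
  noncomm_ring

end

end Pool.Agent.Helper140_E5
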