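import Pool.Agent.Helper140_E5.Sym

/-!
# Groups of units with `(h - 1) ^ 4 = 0` in rings of characteristic five: the symmetrised product of
four quadratic elements vanishes
-/

set_option autoImplicit false

namespace Pool.Agent.Helper140_E5

universe u

variable {R : Type u} [Ring R]

/-- a group of units satisfying `(h - 1) ^ 4 = 0` in characteristic five -/
structure Uni (E : Subgroup Rˣ) : Prop where
  five : (5 : R) = 0
  law : ∀ h ∈ E, ((h : R) - 1) ^ 4 = 0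

/-- quadratic elements -/
structure Qd (E : Subgroup Rˣ) (P : R) : Prop where
  sq : P * P = 0
  p1 : ∃ q ∈ E, (q : R) = 1 + P
  m1 : ∃ q ∈ E, (q : R) = 1 - P
  p2 : ∃ q ∈ E, (q : R) = 1 + 2 * P
  m2 : ∃ q ∈ E, (q : R) = 1 - 2 * P

theorem qd_of {E : Subgroup Rˣ} {p : Rˣ} (hp : p ∈ E) (h : ((p : R) - 1) * ((p : R) - 1) = 0) :
    Qd E ((p : R) - 1) := by
  have e1 : (p : R) = 1 + ((p : R) - 1) := by abel
  have e2 : ((p⁻¹ : Rˣ) : R) = 1 - ((p : R) - 1) := by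
    rw [← Units.mul_right_inj p, Units.mul_inv]
    have : (p : R) * (1 - ((p : R) - 1)) = 1 - ((p : R) - 1) * ((p : R) - 1) := by noncomm_ring
    rw [this, h, sub_zero]
  refine ⟨h, ⟨p, hp, e1⟩, ⟨p⁻¹, inv_mem hp, e2⟩, ⟨p * p, mul_mem hp hp, ?_⟩,
    ⟨p⁻¹ * p⁻¹, mul_mem (inv_mem hp) (inv_mem hp), ?_⟩⟩
  · rw [Units.val_mul]
    have : (p : R) * p = 1 + 2 * ((p : R) - 1) + ((p : R) - 1) * ((p : R) - 1) := by noncomm_ring
    rw [this, h, add_zero]
  · rw [Units.val_mul, e2]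
    have : (1 - ((p : R) - 1)) * (1 - ((p : R) - 1)) =
      1 - 2 * ((p : R) - 1) + ((p : R) - 1) * ((p : R) - 1) := by noncomm_ring
    rw [this, h, add_zero]

section
variable {E : Subgroup Rˣ} (H : Uni E)
include H

theorem law' {k : R} (hk : ∃ q ∈ E, (q : R) = k) : (k - 1) ^ 4 = 0 := by
  obtain ⟨q, hq, rfl⟩ := hk
  exact H.law q hq

omit H in
theorem mulE {a b : R} (ha : ∃ q ∈ E, (q : R) = a) (hb : ∃ q ∈ E, (q : R) = b) :
    ∃ q ∈ E, (q : R) = a * b := by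
  obtain ⟨q, hq, rfl⟩ := ha
  obtain ⟨r, hr, rfl⟩ := hb
  exact ⟨q * r, mul_mem hq hr, Units.val_mul q r⟩

omit H in
theorem oneE : ∃ q ∈ E, (q : R) = 1 := ⟨1, one_mem _, Units.val_one⟩

theorem st1 {P : R} (hP : Qd E P) {k : R} (hk : ∃ q ∈ E, (q : R) = k) :
    D1 (k - 1) (P * k) = 0 := by
  apply twelve H.five
  have f1 := law' H (mulE hP.p1 hk)
  have f2 := law' H (mulE hP.m1 hk)
  have f3 := law' H (mulE hP.p2 hk)
  have f4 := law' H (mulE hP.m2 hk)
  rw [show (1 + P) * k - 1 = k - 1 + P * k by noncomm_ring] at f1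
  rw [show (1 - P) * k - 1 = k - 1 - P * k by noncomm_ring] at f2
  rw [show (1 + 2 * P) * k - 1 = k - 1 + 2 * (P * k) by noncomm_ring] at f3
  rw [show (1 - 2 * P) * k - 1 = k - 1 - 2 * (P * k) by noncomm_ring] at f4
  rw [e1, f1, f2, f3, f4]
  simp

theorem st2 {P Q : R} (hP : Qd E P) (hQ : Qd E Q) {k : R} (hk : ∃ q ∈ E, (q : R) = k) :
    D2 (k - 1) (Q * k) (P * k) + D1 (k - 1) (P * (Q * k)) = 0 := by
  apply twelve H.five
  have f1 := st1 H hP (mulE hQ.p1 hk)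
  have f2 := st1 H hP (mulE hQ.m1 hk)
  have f3 := st1 H hP (mulE hQ.p2 hk)
  have f4 := st1 H hP (mulE hQ.m2 hk)
  rw [show (1 + Q) * k - 1 = k - 1 + Q * k by noncomm_ring,
    show P * ((1 + Q) * k) = P * k + P * (Q * k) by noncomm_ring] at f1
  rw [show (1 - Q) * k - 1 = k - 1 - Q * k by noncomm_ring,
    show P * ((1 - Q) * k) = P * k - P * (Q * k) by noncomm_ring] at f2
  rw [show (1 + 2 * Q) * k - 1 = k - 1 + 2 * (Q * k) by noncomm_ring,
    show P * ((1 + 2 * Q) * k) = P * k + 2 * (P * (Q * k)) by noncomm_ring] at f3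
  rw [show (1 - 2 * Q) * k - 1 = k - 1 - 2 * (Q * k) by noncomm_ring,
    show P * ((1 - 2 * Q) * k) = P * k - 2 * (P * (Q * k)) by noncomm_ring] at f4
  rw [e2, f1, f2, f3, f4]
  simp

theorem st3 {P Q S : R} (hP : Qd E P) (hQ : Qd E Q) (hS : Qd E S) {k : R}
    (hk : ∃ q ∈ E, (q : R) = k) :
    D3 (k - 1) (S * k) (Q * k) (P * k) + D2 (k - 1) (Q * (S * k)) (P * k) +
      D2 (k - 1) (Q * k) (P * (S * k)) + D2 (k - 1) (S * k) (P * (Q * k)) +
      D1 (k - 1) (P * (Q * (S * k))) = 0 := by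
  apply twelve H.five
  have f1 := st2 H hP hQ (mulE hS.p1 hk)
  have f2 := st2 H hP hQ (mulE hS.m1 hk)
  have f3 := st2 H hP hQ (mulE hS.p2 hk)
  have f4 := st2 H hP hQ (mulE hS.m2 hk)
  have g1 : ∀ A : R, A * ((1 + S) * k) = A * k + A * (S * k) := fun A => by noncomm_ring
  have g2 : ∀ A : R, A * ((1 - S) * k) = A * k - A * (S * k) := fun A => by noncomm_ring
  have g3 : ∀ A : R, A * ((1 + 2 * S) * k) = A * k + 2 * (A * (S * k)) := fun A => by
    noncomm_ring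
  have g4 : ∀ A : R, A * ((1 - 2 * S) * k) = A * k - 2 * (A * (S * k)) := fun A => by
    noncomm_ring
  have g5 : ∀ A B : R, A * (2 * B) = 2 * (A * B) := fun A B => by noncomm_ring
  rw [show (1 + S) * k - 1 = k - 1 + S * k by noncomm_ring, g1, g1, mul_add] at f1
  rw [show (1 - S) * k - 1 = k - 1 - S * k by noncomm_ring, g2, g2, mul_sub] at f2
  rw [show (1 + 2 * S) * k - 1 = k - 1 + 2 * (S * k) by noncomm_ring, g3, g3, mul_add, g5] at f3
  rw [show (1 - 2 * S) * k - 1 = k - 1 - 2 * (S * k) by noncomm_ring, g4, g4, mul_sub, g5] at f4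
  rw [e3, f1, f2, f3, f4]
  simp

theorem sym4_qd {P Q S T : R} (hP : Qd E P) (hQ : Qd E Q) (hS : Qd E S) (hT : Qd E T) :
    D3 T S Q P = 0 := by
  apply twelve H.five
  have f1 := st3 H hP hQ hS hT.p1
  have f2 := st3 H hP hQ hS hT.m1
  have f3 := st3 H hP hQ hS hT.p2
  have f4 := st3 H hP hQ hS hT.m2
  have g1 : ∀ A : R, A * (1 + T) = A + A * T := fun A => by noncomm_ring
  have g2 : ∀ A : R, A * (1 - T) = A - A * T := fun A => by noncomm_ring
  have g3 : ∀ A : R, A * (1 + 2 * T) = A + 2 * (A * T) := fun A => by noncomm_ring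
  have g4 : ∀ A : R, A * (1 - 2 * T) = A - 2 * (A * T) := fun A => by noncomm_ring
  have g5 : ∀ A B : R, A * (2 * B) = 2 * (A * B) := fun A B => by noncomm_ring
  simp only [show 1 + T - 1 = T by noncomm_ring, g1, mul_add] at f1
  simp only [show 1 - T - 1 = -T by noncomm_ring, g2, mul_sub] at f2
  simp only [show 1 + 2 * T - 1 = 2 * T by noncomm_ring, g3, mul_add, g5] at f3
  simp only [show 1 - 2 * T - 1 = -(2 * T) by noncomm_ring, g4, mul_sub, g5] at f4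
  have h1 := e4 T S (S * T) Q (Q * T) P (P * T)
  have h2 := e5 T (Q * S) (Q * (S * T)) P (P * T)
  have h3 := e5 T Q (Q * T) (P * S) (P * (S * T))
  have h4 := e5 T S (S * T) (P * Q) (P * (Q * T))
  have h5 := e6 T (P * (Q * S)) (P * (Q * (S * T)))
  have h6 : 12 * D3 T S Q P + 0 + 0 + 0 + 0 = _ :=
    congrArg₂ (· + ·) (congrArg₂ (· + ·) (congrArg₂ (· + ·) (congrArg₂ (· + ·) h1 h2) h3) h4) h5
  rw [add_zero, add_zero, add_zero, add_zero] at h6
  rw [h6]
  have h7 : ∀ a b c d e a' b' c' d' e' a'' b'' c'' d'' e'' a3 b3 c3 d3 e3 : R,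
      a + b + c + d + e = 0 → a' + b' + c' + d' + e' = 0 → a'' + b'' + c'' + d'' + e'' = 0 →
      a3 + b3 + c3 + d3 + e3 = 0 →
      8 * (a - a') - (a'' - a3) + (8 * (b - b') - (b'' - b3)) + (8 * (c - c') - (c'' - c3)) +
      (8 * (d - d') - (d'' - d3)) + (8 * (e - e') - (e'' - e3)) = 0 := by
    intro a b c d e a' b' c' d' e' a'' b'' c'' d'' e'' a3 b3 c3 d3 e3 k1 k2 k3 k4
    have : 8 * (a - a') - (a'' - a3) + (8 * (b - b') - (b'' - b3)) + (8 * (c - c') - (c'' - c3)) +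
      (8 * (d - d') - (d'' - d3)) + (8 * (e - e') - (e'' - e3)) =
      8 * (a + b + c + d + e) - 8 * (a' + b' + c' + d' + e') - (a'' + b'' + c'' + d'' + e'') +
      (a3 + b3 + c3 + d3 + e3) := by noncomm_ring
    rw [this, k1, k2, k3, k4]
    simp
  exact h7 _ _ _ _ _ _ _ _ _ _ _ _ _ _ _ _ _ _ _ _ f1 f2 f3 f4

end

end Pool.Agent.Helper140_E5
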