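import Pool.Agent.Helper140_E5.ActM

/-!
# Uniform version of the main theorem
-/

set_option autoImplicit false

namespace Pool.Agent.Helper140_E5

open Subgroup

universe u v

/-- the relations `5 = 0` and `(h - 1) ^ 4 = 0` -/
inductive Rl (d : ℕ) : MonoidAlgebra ℤ (FreeGroup (Fin d)) →
    MonoidAlgebra ℤ (FreeGroup (Fin d)) → Prop
  | five : Rl d 5 0
  | law (h : FreeGroup (Fin d)) :
    Rl d ((MonoidAlgebra.of ℤ (FreeGroup (Fin d)) h - 1) ^ 4) 0

/-- the universal ring -/
abbrev Ur (d : ℕ) : Type := RingQuot (Rl d)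

/-- the free group in the universal ring -/
noncomputable def Uo (d : ℕ) : FreeGroup (Fin d) →* Ur d :=
  (RingQuot.mkRingHom (Rl d) : MonoidAlgebra ℤ (FreeGroup (Fin d)) →* Ur d).comp
    (MonoidAlgebra.of ℤ (FreeGroup (Fin d)))

/-- A ring spanned by the image of a free group of finite rank, in which `5 = 0` and
`(h - 1) ^ 4 = 0`. -/
theorem ring_main {R : Type u} [Ring R] {P : Type v} [Group P] {S : Set P} (hS : S.Finite)
    (hc : closure S = ⊤) (f : P →* R) (hsp : AddSubgroup.closure (Set.range f) = ⊤)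
    (h5 : (5 : R) = 0) (h4 : ∀ h, (f h - 1) ^ 4 = 0) :
    Finite R ∧ ∃ n, ∀ l : List P, l.length = n → (l.map fun h => f h - 1).prod = 0 := by
  set E : Subgroup Rˣ := f.toHomUnits.range with hE
  have hU : Uni E := by
    refine ⟨h5, ?_⟩
    rintro _ ⟨h, rfl⟩
    exact h4 h
  have hs : {r : R | ∃ h ∈ E, (h : R) = r} = Set.range f := by
    ext r
    constructor
    · rintro ⟨_, ⟨h, rfl⟩, rfl⟩
      exact ⟨h, rfl⟩
    · rintro ⟨h, rfl⟩
      exact ⟨f.toHomUnits h, ⟨h, rfl⟩, rfl⟩
  rw [← hs] at hsp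
  have hcE : closure (f.toHomUnits '' S) = E := by
    rw [← MonoidHom.map_closure, hc, hE, MonoidHom.range_eq_map]
  have hfE := fin_main hU hsp (hS.image _) hcE
  obtain ⟨n, hn⟩ := nil_main hU hsp (hS.image _) hcE
  refine ⟨?_, n, ?_⟩
  · have h1 : {r : R | ∃ h ∈ E, (h : R) = r}.Finite := by
      have : {r : R | ∃ h ∈ E, (h : R) = r} = Set.range fun h : E => ((h : Rˣ) : R) := by
        ext r
        constructor
        · rintro ⟨h, hh, rfl⟩
          exact ⟨⟨h, hh⟩, rfl⟩
        · rintro ⟨⟨h, hh⟩, rfl⟩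
          exact ⟨h, hh, rfl⟩
      rw [this]
      exact Set.finite_range _
    have h2 := fin_sub_closure hU h1
    rw [hsp] at h2
    exact Set.finite_univ_iff.1 h2
  · intro l hl
    refine hn _ ?_ (by simpa using hl)
    intro x hx
    obtain ⟨h, -, rfl⟩ := List.mem_map.1 hx
    exact ⟨f.toHomUnits h, ⟨h, rfl⟩, rfl⟩

theorem free_top (d : ℕ) : closure (Set.range (FreeGroup.of : Fin d → FreeGroup (Fin d))) = ⊤ := by
  exact FreeGroup.closure_range_of (Fin d)

theorem Uo_span (d : ℕ) : AddSubgroup.closure (Set.range (Uo d)) = ⊤ := by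
  rw [eq_top_iff]
  rintro r -
  obtain ⟨a, rfl⟩ := RingQuot.mkRingHom_surjective (Rl d) r
  induction a using MonoidAlgebra.induction_on with
  | of g => exact AddSubgroup.subset_closure ⟨g, rfl⟩
  | add a b ha hb =>
    rw [map_add]
    exact add_mem ha hb
  | smul n a ha =>
    rw [map_zsmul]
    exact zsmul_mem ha n

theorem Ur_main (d : ℕ) : Finite (Ur d) ∧
    ∃ n, ∀ l : List (FreeGroup (Fin d)), l.length = n → (l.map fun h => Uo d h - 1).prod = 0 := by
  refine ring_main (Set.finite_range _) (free_top d) (Uo d) (Uo_span d) ?_ ?_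
  · have := RingQuot.mkRingHom_rel (Rl.five (d := d))
    rw [map_zero] at this
    rw [← this]
    exact (map_ofNat (RingQuot.mkRingHom (Rl d)) 5).symm
  · intro h
    have := RingQuot.mkRingHom_rel (Rl.law h)
    rw [map_zero, map_pow, map_sub, map_one] at this
    exact this

theorem act_five {G : Type u} [Group G] {V : Type v} [AddCommGroup V]
    {ρ : G →* AddMonoid.End V} (H : Act5 ρ) : (5 : AddMonoid.End V) = 0 := by
  have h2 : (5 : AddMonoid.End V) = (5 : ℕ) • (1 : AddMonoid.End V) := by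
    rw [nsmul_eq_mul, mul_one]
    rfl
  rw [h2]
  exact AddMonoidHom.ext fun v => H.five v

theorem act_four {G : Type u} [Group G] {V : Type v} [AddCommGroup V]
    {ρ : G →* AddMonoid.End V} (H : Act5 ρ) (g : G) : (ρ g - 1) ^ 4 = 0 := by
  have h1 : 1 + ρ g + ρ g ^ 2 + ρ g ^ 3 + ρ g ^ 4 = 0 := by
    refine AddMonoidHom.ext fun v => ?_
    have := H.law g v
    rw [map_pow, map_pow, map_pow] at this
    exact this
  have : (ρ g - 1) ^ 4 = (1 + ρ g + ρ g ^ 2 + ρ g ^ 3 + ρ g ^ 4) +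
      5 * (ρ g ^ 2 - ρ g ^ 3 - ρ g) := by noncomm_ring
  rw [this, h1, act_five H]
  simp

/-- the induced map from the universal ring -/
noncomputable def Um {d : ℕ} {V : Type v} [AddCommGroup V]
    {ρ : FreeGroup (Fin d) →* AddMonoid.End V} (H : Act5 ρ) : Ur d →+* AddMonoid.End V :=
  RingQuot.lift ⟨((MonoidAlgebra.lift ℤ (AddMonoid.End V) (FreeGroup (Fin d))) ρ :
      MonoidAlgebra ℤ (FreeGroup (Fin d)) →ₐ[ℤ] AddMonoid.End V).toRingHom, by
    intro x y hxy
    cases hxy with
    | five =>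
      rw [map_zero, ← act_five H]
      exact map_ofNat _ 5
    | law h =>
      rw [map_zero, map_pow, map_sub, map_one]
      have := act_four H h
      rw [← this]
      congr 2
      exact MonoidAlgebra.lift_of _ _⟩

theorem Um_of {d : ℕ} {V : Type v} [AddCommGroup V]
    {ρ : FreeGroup (Fin d) →* AddMonoid.End V} (H : Act5 ρ) (h : FreeGroup (Fin d)) :
    Um H (Uo d h) = ρ h := by
  rw [Um, Uo]
  change RingQuot.lift _ (RingQuot.mkRingHom (Rl d) (MonoidAlgebra.of ℤ (FreeGroup (Fin d)) h)) = _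
  rw [RingQuot.lift_mkRingHom_apply]
  exact MonoidAlgebra.lift_of _ _

theorem unif (d : ℕ) : ∃ k m : ℕ, ∀ (V : Type v) [AddCommGroup V]
    (ρ : FreeGroup (Fin d) →* AddMonoid.End V), Act5 ρ →
    (Set.range ρ).Finite ∧ (Set.range ρ).ncard ≤ m ∧
    ∀ l : List (FreeGroup (Fin d)), l.length = k → (l.map fun h => ρ h - 1).prod = 0 := by
  obtain ⟨hf, k, hk⟩ := Ur_main d
  refine ⟨k, Nat.card (Ur d), fun V _ ρ H => ?_⟩
  have hr : Set.range ρ ⊆ Set.range (Um H) := by
    rintro _ ⟨h, rfl⟩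
    exact ⟨Uo d h, Um_of H h⟩
  have hfr : (Set.range (Um H)).Finite := Set.finite_range _
  refine ⟨hfr.subset hr, ?_, ?_⟩
  · refine (Set.ncard_le_ncard hr hfr).trans ?_
    rw [← Set.image_univ]
    refine (Set.ncard_image_le (Set.toFinite _)).trans ?_
    rw [Set.ncard_univ]
  · intro l hl
    have := congrArg (Um H) (hk l hl)
    rw [map_zero, map_list_prod, List.map_map] at this
    rw [← this]
    congr 2
    funext h
    change ρ h - 1 = Um H (Uo d h - 1)
    rw [map_sub, map_one, Um_of]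

end Pool.Agent.Helper140_E5
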