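import Pool.Agent.Helper140_E5.SP

/-!
# Finitely generated spanning groups of units with `(h - 1) ^ 4 = 0` are finite
-/

set_option autoImplicit false

namespace Pool.Agent.Helper140_E5

open Subgroup
open scoped commutatorElement

universe u

section
variable {R : Type u} [Ring R]

/-- products of `n` elements of `D` -/
def Wd (D : Set R) (n : ℕ) : Set R := {r | ∃ l : List R, (∀ x ∈ l, x ∈ D) ∧ l.length = n ∧ l.prod = r}

theorem Wd_fin {D : Set R} (hD : D.Finite) (n : ℕ) : (Wd D n).Finite := by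
  refine ((fin_lists hD n).image List.prod).subset ?_
  rintro r ⟨l, h1, h2, rfl⟩
  exact ⟨l, ⟨h1, h2.le⟩, rfl⟩

theorem Wd_add {D : Set R} {m n : ℕ} {r : R} (h : r ∈ Wd D (m + n)) :
    ∃ a ∈ Wd D m, ∃ b ∈ Wd D n, r = a * b := by
  obtain ⟨l, h1, h2, rfl⟩ := h
  refine ⟨(l.take m).prod, ⟨l.take m, fun x hx => h1 x (List.mem_of_mem_take hx), ?_, rfl⟩,
    (l.drop m).prod, ⟨l.drop m, fun x hx => h1 x (List.mem_of_mem_drop hx), ?_, rfl⟩, ?_⟩
  · rw [List.length_take, h2]
    omega
  · rw [List.length_drop, h2]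
    omega
  · rw [← List.prod_append, List.take_append_drop]

theorem Wd_one {D : Set R} {x : R} (h : x ∈ D) : x ∈ Wd D 1 := ⟨[x], by simpa using h, rfl, by simp⟩

theorem Wd_cons {D : Set R} {n : ℕ} {x y : R} (h : x ∈ D) (hy : y ∈ Wd D n) : x * y ∈ Wd D (n + 1) := by
  obtain ⟨l, h1, h2, rfl⟩ := hy
  refine ⟨x :: l, ?_, by simp [h2], by simp⟩
  intro z hz
  rcases List.mem_cons.1 hz with rfl | hz
  · exact h
  · exact h1 z hz

/-- `K + R r R` for a two-sided ideal `K` -/
def Jd (K : Ideal R) (r : R) : Ideal R := K ⊔ Ideal.span {x | ∃ b, x = r * b}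

theorem Jd_two {K : Ideal R} (hK : K.IsTwoSided) (r : R) : (Jd K r).IsTwoSided := by
  constructor
  intro a b ha
  obtain ⟨k, hk, s, hs, rfl⟩ := Submodule.mem_sup.1 ha
  rw [add_mul]
  refine add_mem (Submodule.mem_sup_left (hK.mul_mem_of_left b hk)) ?_
  refine Submodule.mem_sup_right ?_
  refine Submodule.span_induction (p := fun s _ => s * b ∈ Ideal.span {x | ∃ b, x = r * b})
    ?_ ?_ ?_ ?_ hs
  · rintro x ⟨c, rfl⟩
    exact Ideal.subset_span ⟨c * b, mul_assoc _ _ _⟩
  · rw [zero_mul]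
    exact zero_mem _
  · intro x y _ _ hx hy
    rw [add_mul]
    exact add_mem hx hy
  · intro c x _ hx
    rw [smul_eq_mul, mul_assoc]
    exact Ideal.mul_mem_left _ _ hx

theorem Jd_self (K : Ideal R) (r : R) : r ∈ Jd K r :=
  Submodule.mem_sup_right (Ideal.subset_span ⟨1, (mul_one r).symm⟩)

theorem Jd_mul {K : Ideal R} (hK : K.IsTwoSided) {r : R} (hr : ∀ t, r * t * r ∈ K) {x y : R}
    (hx : x ∈ Jd K r) (hy : y ∈ Jd K r) : x * y ∈ K := by
  have h1 : ∀ b : R, r * b * y ∈ K := by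
    obtain ⟨k, hk, s, hs, rfl⟩ := Submodule.mem_sup.1 hy
    intro b
    rw [mul_add]
    refine add_mem (Ideal.mul_mem_left _ _ hk) ?_
    refine Submodule.span_induction (p := fun s _ => ∀ b : R, r * b * s ∈ K)
      ?_ ?_ ?_ ?_ hs b
    · rintro x ⟨c, rfl⟩ b
      rw [← mul_assoc]
      exact hK.mul_mem_of_left c (hr b)
    · intro b
      rw [mul_zero]
      exact zero_mem _
    · intro x y _ _ hx hy b
      rw [mul_add]
      exact add_mem (hx b) (hy b)
    · intro c x _ hx b
      rw [smul_eq_mul, ← mul_assoc, mul_assoc r b c]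
      exact hx _
  obtain ⟨k, hk, s, hs, rfl⟩ := Submodule.mem_sup.1 hx
  rw [add_mul]
  refine add_mem (hK.mul_mem_of_left y hk) ?_
  refine Submodule.span_induction (p := fun s _ => s * y ∈ K) ?_ ?_ ?_ ?_ hs
  · rintro x ⟨c, rfl⟩
    exact h1 c
  · rw [zero_mul]
    exact zero_mem _
  · intro x y _ _ hx hy
    rw [add_mul]
    exact add_mem hx hy
  · intro c x _ hx
    rw [smul_eq_mul, mul_assoc]
    exact Ideal.mul_mem_left _ _ hx

theorem chain_fin {c : Set (Ideal R)} (hc : IsChain (· ≤ ·) c) (hne : c.Nonempty) {T : Set R}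
    (hT : T.Finite) (h : ∀ t ∈ T, t ∈ sSup c) : ∃ K ∈ c, T ⊆ (K : Set R) := by
  induction T, hT using Set.Finite.induction_on with
  | empty =>
    obtain ⟨K, hK⟩ := hne
    exact ⟨K, hK, Set.empty_subset _⟩
  | @insert a T _ _ ih =>
    obtain ⟨K, hK, hKT⟩ := ih fun t ht => h t (Set.mem_insert_of_mem _ ht)
    have ha := h a (Set.mem_insert _ _)
    rw [Submodule.mem_sSup_of_directed hne hc.directedOn] at ha
    obtain ⟨L, hL, haL⟩ := ha
    rcases hc.total hK hL with hle | hle
    · refine ⟨L, hL, ?_⟩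
      intro t ht
      rcases Set.mem_insert_iff.1 ht with rfl | ht
      · exact haL
      · exact hle (hKT ht)
    · refine ⟨K, hK, ?_⟩
      intro t ht
      rcases Set.mem_insert_iff.1 ht with rfl | ht
      · exact hle haL
      · exact hKT ht

variable {E : Subgroup Rˣ}

/-- the image of `E` -/
def Eq' (E : Subgroup Rˣ) (K : Ideal R) [K.IsTwoSided] : Subgroup (R ⧸ K)ˣ :=
  E.map (Units.map (Ideal.Quotient.mk K : R →* R ⧸ K))

theorem uni_quot (H : Uni E) (K : Ideal R) [K.IsTwoSided] : Uni (Eq' E K) := by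
  constructor
  · have := congrArg (Ideal.Quotient.mk K) H.five
    rw [map_zero] at this
    rw [← this]
    exact (map_ofNat (Ideal.Quotient.mk K) 5).symm
  · rintro _ ⟨h, hh, rfl⟩
    have := congrArg (Ideal.Quotient.mk K) (H.law h hh)
    rw [map_zero, map_pow, map_sub, map_one] at this
    exact this

theorem nil_words (H : Uni E) (hs : AddSubgroup.closure {r : R | ∃ h ∈ E, (h : R) = r} = ⊤)
    {S : Set Rˣ} (hS : S.Finite) (hSE : closure S = E) :
    ∃ n, ∀ l : List R, (∀ x ∈ l, ∃ s ∈ S, x = (s : R) - 1) → l.length = n → l.prod = 0 := by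
  set D : Set R := (fun s : Rˣ => (s : R) - 1) '' S with hD
  have hDf : D.Finite := hS.image _
  by_contra hcon
  push Not at hcon
  have hbot : (⊥ : Ideal R) ∈ {K : Ideal R | K.IsTwoSided ∧ ∀ n, ¬ Wd D n ⊆ (K : Set R)} := by
    refine ⟨inferInstance, ?_⟩
    intro n hn
    obtain ⟨l, h1, h2, h3⟩ := hcon n
    refine h3 ?_
    have : l.prod ∈ Wd D n := ⟨l, fun x hx => by
      obtain ⟨s, hs, e⟩ := h1 x hx
      exact ⟨s, hs, e.symm⟩, h2, rfl⟩
    exact hn this
  obtain ⟨K, -, hK⟩ := zorn_le_nonempty₀ _ (fun c hc hch y hy => by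
    refine ⟨sSup c, ⟨?_, ?_⟩, fun z hz => le_sSup hz⟩
    · constructor
      intro a b ha
      rw [Submodule.mem_sSup_of_directed ⟨y, hy⟩ hch.directedOn] at ha ⊢
      obtain ⟨L, hL, haL⟩ := ha
      exact ⟨L, hL, (hc hL).1.mul_mem_of_left b haL⟩
    · intro n hn
      obtain ⟨L, hL, hLT⟩ := chain_fin hch ⟨y, hy⟩ (Wd_fin hDf n) hn
      exact (hc hL).2 n hLT) ⊥ hbot
  obtain ⟨⟨hK2, hKn⟩, hmax⟩ := hK
  have sp : Sp (Eq' E K) := by
    intro r' hr'
    obtain ⟨r, rfl⟩ := Ideal.Quotient.mk_surjective r'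
    rw [Ideal.Quotient.eq_zero_iff_mem]
    have h1 : ∀ h ∈ E, r * (h : R) * r ∈ K := by
      intro h hh
      have := hr' (Units.map (Ideal.Quotient.mk K : R →* R ⧸ K) h) ⟨h, hh, rfl⟩
      rw [← Ideal.Quotient.eq_zero_iff_mem, map_mul, map_mul]
      exact this
    have h2 : ∀ t : R, r * t * r ∈ K := by
      intro t
      have ht : t ∈ AddSubgroup.closure {r : R | ∃ h ∈ E, (h : R) = r} := by
        rw [hs]
        trivial
      refine AddSubgroup.closure_induction (p := fun t _ => r * t * r ∈ K) ?_ ?_ ?_ ?_ ht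
      · rintro _ ⟨h, hh, rfl⟩
        exact h1 h hh
      · rw [mul_zero, zero_mul]
        exact zero_mem _
      · intro x y _ _ hx hy
        rw [mul_add, add_mul]
        exact add_mem hx hy
      · intro x _ hx
        rw [mul_neg, neg_mul]
        exact neg_mem hx
    by_contra hr
    have hJ : ∃ n, Wd D n ⊆ (Jd K r : Set R) := by
      by_contra hJ
      push Not at hJ
      have := hmax (y := Jd K r) ⟨Jd_two hK2 r, hJ⟩ le_sup_left
      exact hr (this (Jd_self K r))
    obtain ⟨n, hn⟩ := hJ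
    refine hKn (n + n) ?_
    intro x hx
    obtain ⟨a, ha, b, hb, rfl⟩ := Wd_add hx
    exact Jd_mul hK2 h2 (hn ha) (hn hb)
  refine hKn 1 ?_
  rintro _ ⟨l, h1, h2, rfl⟩
  obtain ⟨x, rfl⟩ := List.length_eq_one_iff.1 h2
  obtain ⟨s, hs, hx⟩ := h1 x (by simp)
  have hsE : s ∈ E := by
    rw [← hSE]
    exact subset_closure hs
  have := sp_trivial (uni_quot H K) sp (x := Units.map (Ideal.Quotient.mk K : R →* R ⧸ K) s)
    ⟨s, hsE, rfl⟩
  rw [List.prod_singleton, ← hx]
  change (s : R) - 1 ∈ K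
  rw [← Ideal.Quotient.eq_zero_iff_mem, map_sub, map_one]
  have h3 := congrArg (fun u : (R ⧸ K)ˣ => (u : R ⧸ K)) this
  have h4 : Ideal.Quotient.mk K (s : R) = 1 := h3
  rw [h4, sub_self]

/-- Theorem M, finiteness part. -/
theorem fin_main (H : Uni E) (hs : AddSubgroup.closure {r : R | ∃ h ∈ E, (h : R) = r} = ⊤)
    {S : Set Rˣ} (hS : S.Finite) (hSE : closure S = E) : Finite E := by
  obtain ⟨n, hn⟩ := nil_words H hs hS hSE
  set D : Set R := (fun s : Rˣ => (s : R) - 1) '' S with hD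
  have hDf : D.Finite := hS.image _
  set T : Set R := ⋃ m ∈ Set.Iic n, Wd D m with hT
  have hTf : T.Finite := (Set.finite_Iic n).biUnion fun m _ => Wd_fin hDf m
  set A : AddSubgroup R := AddSubgroup.closure T with hA
  have hAf : (A : Set R).Finite := fin_sub_closure H hTf
  have hn' : ∀ w ∈ Wd D n, w = 0 := by
    rintro _ ⟨l, h1, h2, rfl⟩
    refine hn l (fun x hx => ?_) h2
    obtain ⟨s, hs, e⟩ := h1 x hx
    exact ⟨s, hs, e.symm⟩
  have hsA : ∀ s ∈ S, ∀ a ∈ A, (s : R) * a ∈ A := by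
    intro s hs a ha
    have h1 : ((s : R) - 1) * a ∈ A := by
      refine AddSubgroup.closure_induction (p := fun a _ => ((s : R) - 1) * a ∈ A) ?_ ?_ ?_ ?_ ha
      · intro w hw
        rw [hT, Set.mem_iUnion₂] at hw
        obtain ⟨m, hm, hw⟩ := hw
        rcases Nat.lt_or_ge m n with hlt | hge
        · refine AddSubgroup.subset_closure ?_
          rw [hT, Set.mem_iUnion₂]
          exact ⟨m + 1, hlt, Wd_cons ⟨s, hs, rfl⟩ hw⟩
        · have : m = n := le_antisymm hm hge
          subst this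
          rw [hn' w hw, mul_zero]
          exact zero_mem _
      · rw [mul_zero]
        exact zero_mem _
      · intro x y _ _ hx hy
        rw [mul_add]
        exact add_mem hx hy
      · intro x _ hx
        rw [mul_neg]
        exact neg_mem hx
    have : (s : R) * a = a + ((s : R) - 1) * a := by noncomm_ring
    rw [this]
    exact add_mem ha h1
  have hgA : ∀ g ∈ E, ∀ a ∈ A, (g : R) * a ∈ A := by
    intro g hg
    rw [← hSE] at hg
    have hpow : ∀ (g : Rˣ), (∀ a ∈ A, (g : R) * a ∈ A) → ∀ k : ℕ, ∀ a ∈ A, ((g ^ k : Rˣ) : R) * a ∈ A := by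
      intro g hg k
      induction k with
      | zero =>
        intro a ha
        rw [pow_zero, Units.val_one, one_mul]
        exact ha
      | succ k ih =>
        intro a ha
        rw [pow_succ, Units.val_mul, mul_assoc]
        exact ih _ (hg a ha)
    refine closure_induction (p := fun (g : Rˣ) _ => ∀ a ∈ A, (g : R) * a ∈ A) ?_ ?_ ?_ ?_ hg
    · exact hsA
    · intro a ha
      rw [Units.val_one, one_mul]
      exact ha
    · intro x y _ _ hx hy a ha
      rw [Units.val_mul, mul_assoc]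
      exact hx _ (hy a ha)
    · intro x hx hxa a ha
      have h5 := pow5 H (u := x) (by rw [← hSE]; exact hx)
      have : x⁻¹ = x ^ 4 := by
        rw [inv_eq_iff_mul_eq_one, ← pow_succ']
        exact h5
      rw [this]
      exact hpow x hxa 4 a ha
  have h1 : (1 : R) ∈ A := by
    refine AddSubgroup.subset_closure ?_
    rw [hT, Set.mem_iUnion₂]
    exact ⟨0, Nat.zero_le n, [], by simp, rfl, rfl⟩
  refine fin_units hAf fun g hg => ?_
  have := hgA g hg 1 h1
  rw [mul_one] at this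
  exact this

/-- Theorem M, nilpotency part. -/
theorem nil_main (H : Uni E) (hs : AddSubgroup.closure {r : R | ∃ h ∈ E, (h : R) = r} = ⊤)
    {S : Set Rˣ} (hS : S.Finite) (hSE : closure S = E) :
    ∃ n, ∀ l : List R, (∀ x ∈ l, ∃ s ∈ E, x = (s : R) - 1) → l.length = n → l.prod = 0 := by
  have := fin_main H hs hS hSE
  exact nil_words H hs (S := (E : Set Rˣ)) (Set.toFinite _) (closure_eq E)

end

end Pool.Agent.Helper140_E5
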